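import Pool.Agent.N113.FG.Slice

/-!
# Projections of subvarieties
-/

set_option autoImplicit false
set_option linter.unusedSectionVars false
set_option linter.style.haveILetI false

namespace Pool.Agent.N113.FG

open MvPolynomial
open Pool.Agent.N101.ZP
open Pool.Agent.N113.EC
open Pool.Agent.R948 (td tdP td_le_of_alg td_le_of_ker tdP_eq)

section

variable {F : Type} [Field F] [CharZero F] {A K k : Type} [Field A] [Field K] [Field k]
  [Algebra F K] [Algebra A K] [Algebra F k] [Algebra A k]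

theorem aeval_place {σ : Type} (π : Pl F K k)
    (hA : ∀ c : A, ∃ h : algebraMap A K c ∈ π.O, π.φ ⟨_, h⟩ = algebraMap A k c)
    (p : σ → K) (q : σ → k) (h : ∀ i, ∃ h : p i ∈ π.O, π.φ ⟨_, h⟩ = q i)
    (f : MvPolynomial σ A) : ∃ h : aeval p f ∈ π.O, π.φ ⟨_, h⟩ = aeval q f := by
  induction f using MvPolynomial.induction_on with
  | C c =>
    obtain ⟨h1, h2⟩ := hA c
    refine ⟨by rw [aeval_C]; exact h1, ?_⟩
    refine Eq.trans ?_ (h2.trans (aeval_C q c).symm)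
    congr 1
    exact Subtype.ext (aeval_C _ _)
  | add f g hf hg =>
    obtain ⟨h1, h2⟩ := hf
    obtain ⟨h3, h4⟩ := hg
    refine ⟨by rw [map_add]; exact add_mem h1 h3, ?_⟩
    have e1 : aeval q (f + g) = π.φ (⟨_, h1⟩ + ⟨_, h3⟩) := by rw [map_add, map_add, h2, h4]
    refine Eq.trans ?_ e1.symm
    congr 1
    exact Subtype.ext (map_add _ _ _)
  | mul_X f i hf =>
    obtain ⟨h1, h2⟩ := hf
    obtain ⟨h3, h4⟩ := h i
    refine ⟨by rw [map_mul, aeval_X]; exact mul_mem h1 h3, ?_⟩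
    have e1 : aeval q (f * X i) = π.φ (⟨_, h1⟩ * ⟨_, h3⟩) := by
      rw [map_mul, map_mul, h2, h4, aeval_X]
    refine Eq.trans ?_ e1.symm
    congr 1
    apply Subtype.ext
    change aeval p (f * X i) = aeval p f * p i
    rw [map_mul, aeval_X]

end

section

variable {F : Type} [Field F] [CharZero F] [Algebra F ℂ] {J : Type} [Fintype J]
  {E : J → Cv F} {n : J → Type} [∀ j, Fintype (n j)]

/-- **A relation between the coordinates of the points of a subvariety holds for its generic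
point.** -/
theorem rel_of_points {P : PP ℂ ((Σ j, n j) ⊕ (Σ j, n j))} (hP : Adm (pw E n) P)
    (p : ∀ y, (pw E n y).Pt P.fld) (hp : ∀ y, p y ≠ 0) (hp2 : cK p = P.pt) (j : J)
    {κ : Type} [Fintype κ] (g : κ → n j) (m : κ → ℤ)
    (h : ∀ q ∈ Z0 (pw E n) P, (∑ k, m k • (q ⟨j, g k⟩ : (E j).Pt ℂ) : (E j).Pt ℂ) = 0) :
    (∑ k, m k • (p ⟨j, g k⟩ : (E j).Pt P.fld) : (E j).Pt P.fld) = 0 := by
  by_contra hQ
  obtain ⟨Q, hQd⟩ : ∃ Q : (E j).Pt P.fld,
    Q = ∑ k, m k • (p ⟨j, g k⟩ : (E j).Pt P.fld) := ⟨_, rfl⟩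
  rw [← hQd] at hQ
  obtain ⟨a, b, hb, hab⟩ := IsFractionRing.div_surjective (A := MvPolynomial _ ℂ ⧸ P.I)
    ((E j).uu Q)
  obtain ⟨f, rfl⟩ := Ideal.Quotient.mk_surjective a
  obtain ⟨g₀, rfl⟩ := Ideal.Quotient.mk_surjective b
  rw [← P.aeval_pt, ← P.aeval_pt] at hab
  have hg₀ : g₀ ∉ P.I := by
    intro h1
    rw [Ideal.Quotient.eq_zero_iff_mem.2 h1] at hb
    exact (nonZeroDivisors.ne_zero hb) rfl
  obtain ⟨q, hq, hqg⟩ : ∃ q ∈ Z0 (pw E n) P, eval (co q) g₀ ≠ 0 := by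
    by_contra hcon
    push Not at hcon
    exact hg₀ (mem_of_Z0 hP hcon)
  have hsp : Sp ℂ P.pt (co q) := fun f hf => hq.2 f ((P.aeval_pt_eq_zero f).1 hf)
  obtain ⟨k, i1, i2, i3, i4, π, h1, r, h2, h3, h4⟩ := exists_place (F := F) _ _ hsp
  have h5 : ∀ l : κ, (E j).red π (p ⟨j, g l⟩) ≠ 0 ∧
      (E j).uu ((E j).red π (p ⟨j, g l⟩)) = r (Sum.inl ⟨j, g l⟩) ∧
      (E j).yy ((E j).red π (p ⟨j, g l⟩)) = r (Sum.inr ⟨j, g l⟩) := by
    intro l
    obtain ⟨g1, g2⟩ := h2 (Sum.inl ⟨j, g l⟩)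
    obtain ⟨g3, g4⟩ := h2 (Sum.inr ⟨j, g l⟩)
    have e1 : (E j).uu (p ⟨j, g l⟩ : (E j).Pt P.fld) = P.pt (Sum.inl ⟨j, g l⟩) :=
      congrFun hp2 (Sum.inl ⟨j, g l⟩)
    have e2 : (E j).yy (p ⟨j, g l⟩ : (E j).Pt P.fld) = P.pt (Sum.inr ⟨j, g l⟩) :=
      congrFun hp2 (Sum.inr ⟨j, g l⟩)
    have hu : (E j).uu (p ⟨j, g l⟩ : (E j).Pt P.fld) ∈ π.O := by rw [e1]; exact g1
    obtain ⟨g5, g6, g7, g8⟩ := (E j).red_mem π (hp ⟨j, g l⟩) hu
    refine ⟨g5, g6.trans ?_, g8.trans ?_⟩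
    · rw [← g2]
      congr 1
      exact Subtype.ext e1
    · rw [← g4]
      congr 1
      exact Subtype.ext e2
  have h6 : cc (E j) (fun l => (E j).red π (p ⟨j, g l⟩)) =
      fun a => r (Sum.map (fun l => (⟨j, g l⟩ : Σ j, n j)) (fun l => (⟨j, g l⟩ : Σ j, n j)) a) := by
    funext a
    rcases a with i | i
    · exact (h5 i).2.1
    · exact (h5 i).2.2
  have h7 : cc (E j) (fun l => (q ⟨j, g l⟩ : (E j).Pt ℂ)) =
      fun a => co q
        (Sum.map (fun l => (⟨j, g l⟩ : Σ j, n j)) (fun l => (⟨j, g l⟩ : Σ j, n j)) a) := by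
    funext a
    rcases a with i | i <;> rfl
  have h8 := rel_iso (A := ℂ) (E j) (fun l => (q ⟨j, g l⟩ : (E j).Pt ℂ))
    (fun l => (E j).red π (p ⟨j, g l⟩)) (fun l => hq.1 ⟨j, g l⟩) (fun l => (h5 l).1)
    (by rw [h6, h7]; exact h4.comp _) (by rw [h6, h7]; exact h3.comp _) m 0
    (by rw [map_zero, add_zero]; exact h q hq)
  rw [map_zero, add_zero] at h8
  have h9 : (E j).red π Q = 0 := by
    rw [hQd, map_sum]
    simp only [map_zsmul]
    exact h8
  obtain ⟨m1, m2⟩ := aeval_place (A := ℂ) π h1 P.pt r h2 g₀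
  obtain ⟨m3, -⟩ := aeval_place (A := ℂ) π h1 P.pt r h2 f
  have h10 : π.φ ⟨_, m1⟩ ≠ 0 := by
    rw [m2]
    intro h11
    exact hqg (h3 g₀ h11)
  have h11 := π.hunit ⟨_, m1⟩ h10
  have h12 : (E j).uu Q ∈ π.O := by
    rw [← hab, div_eq_mul_inv]
    exact mul_mem m3 h11
  exact ((E j).red_mem π hQ h12).1 h9

end

/-! ### projections -/

section

variable {F : Type} [Field F] [CharZero F] [IsAlgClosed F] [Algebra F ℂ] {J : Type} [Fintype J]
  {E : J → Cv F} {n n' : J → Type} [∀ j, Fintype (n j)] [∀ j, Fintype (n' j)]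
  (g : ∀ j, n' j → n j)

/-- the coordinates -/
def gi (y : Σ j, n' j) : Σ j, n j := ⟨y.1, g y.1 y.2⟩

/-- the projection to some of the coordinates -/
def prj (P : Pts (pw E n)) : Pts (pw E n') := fun y => P (gi g y)

theorem aff_prj {P : Pts (pw E n)} (hP : Aff P) : Aff (prj g P) := fun y => hP (gi g y)

theorem co_prj (P : Pts (pw E n)) :
    co (prj g P) = fun a => co P (Sum.map (gi g) (gi g) a) := by
  funext a
  rcases a with a | a <;> rfl

theorem eval_prj (P : Pts (pw E n)) (f : MvPolynomial ((Σ j, n' j) ⊕ (Σ j, n' j)) ℂ) :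
    eval (co (prj g P)) f = eval (co P) (rename (Sum.map (gi g) (gi g)) f) := by
  rw [co_prj, eval_rename]
  rfl

theorem closed_prj {B : Set (Pts (pw E n'))} (hB : ZClosed B) :
    ZClosed {P : Pts (pw E n) | prj g P ∈ B} := by
  intro ε
  obtain ⟨S, hS⟩ := hB (fun y => ε (gi g y))
  refine ⟨(fun f => rename (Sum.map (gi g) (gi g)) f) '' S, fun p hp => ?_⟩
  have h1 := hS (prj g p) (aff_prj g hp)
  have h2 : tr (fun y => ε (gi g y)) (prj g p) = prj g (tr ε p) := rfl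
  rw [h2] at h1
  change prj g (tr ε p) ∈ B ↔ _
  rw [h1]
  constructor
  · rintro h3 _ ⟨f, hf, rfl⟩
    rw [← eval_prj]
    exact h3 f hf
  · intro h3 f hf
    rw [eval_prj]
    exact h3 _ ⟨f, hf, rfl⟩

/-- the closure of the projection -/
def im (W : Set (Pts (pw E n))) : Set (Pts (pw E n')) := closure (prj g '' W)

theorem im_sub {W : Set (Pts (pw E n))} {B : Set (Pts (pw E n'))} (hB : ZClosed B)
    (h : ∀ P ∈ W, prj g P ∈ B) : im g W ⊆ B :=
  closure_sub hB (by rintro _ ⟨P, hP, rfl⟩; exact h P hP)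

theorem prj_mem {W : Set (Pts (pw E n))} {P : Pts (pw E n)} (hP : P ∈ W) : prj g P ∈ im g W :=
  sub_closure _ ⟨P, hP, rfl⟩

theorem sub_im {W : Set (Pts (pw E n))} (hW : Subvariety W) : Subvariety (im g W) where
  closed := closed_closure _
  nonempty := by
    obtain ⟨P, hP⟩ := hW.nonempty
    exact ⟨_, prj_mem g hP⟩
  irreducible := fun B D hB hD h => by
    have h1 : W ⊆ {P | prj g P ∈ B} ∪ {P | prj g P ∈ D} := fun P hP => h (prj_mem g hP)
    rcases hW.irreducible _ _ (closed_prj g hB) (closed_prj g hD) h1 with h2 | h2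
    · exact Or.inl (im_sub g hB h2)
    · exact Or.inr (im_sub g hD h2)

theorem meets_im {W : Set (Pts (pw E n))} (hW : Meets W) : Meets (im g W) := by
  obtain ⟨P, hP, hP'⟩ := hW
  exact ⟨_, prj_mem g hP, aff_prj g hP'⟩

theorem mem_v0_im {W : Set (Pts (pw E n))} (hW : Subvariety W) (hM : Meets W)
    (f : MvPolynomial ((Σ j, n' j) ⊕ (Σ j, n' j)) ℂ) :
    f ∈ v0 (im g W) ↔ rename (Sum.map (gi g) (gi g)) f ∈ v0 W := by
  rw [mem_v0, mem_v0]
  constructor
  · intro h P hP hP'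
    rw [← eval_prj]
    exact h _ (prj_mem g hP) (aff_prj g hP')
  · intro h
    have h1 : W ⊆ {P | prj g P ∈ N (pw E n') {f}} := by
      refine sub_of_aff hW hM (closed_prj g (closed_N _)) fun P hP hP' => ?_
      intro _ f' hf'
      rw [Set.mem_singleton_iff.1 hf', eval_prj]
      exact h P hP hP'
    intro q hq hq'
    exact im_sub g (closed_N _) h1 hq hq' f rfl

theorem pt_im {W : Set (Pts (pw E n))} (hW : Subvariety W) (hM : Meets W)
    (f : MvPolynomial ((Σ j, n' j) ⊕ (Σ j, n' j)) ℂ) :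
    aeval (toP (sub_im g hW) (meets_im g hM)).pt f = 0 ↔
      aeval (fun a => (toP hW hM).pt (Sum.map (gi g) (gi g) a)) f = 0 := by
  rw [PP.aeval_pt_eq_zero]
  refine (mem_v0_im g hW hM f).trans ?_
  have h2 := MvPolynomial.aeval_rename (Sum.map (gi g) (gi g)) (toP hW hM).pt f
  constructor
  · intro h
    have h3 := ((toP hW hM).aeval_pt_eq_zero _).2 h
    rw [h2] at h3
    exact h3
  · intro h
    refine ((toP hW hM).aeval_pt_eq_zero _).1 ?_
    rw [h2]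
    exact h

theorem vdim_im {W : Set (Pts (pw E n))} (hW : Subvariety W) (hM : Meets W) :
    vdim (im g W) ≤ vdim W := by
  rw [vdim_eq hW hM, vdim_eq (sub_im g hW) (meets_im g hM)]
  have s2 : Sp ℂ (fun a => (toP hW hM).pt (Sum.map (gi g) (gi g) a))
      (toP (sub_im g hW) (meets_im g hM)).pt := fun f hf => (pt_im g hW hM f).2 hf
  exact (td_le_of_ker ℂ s2).trans (td_comp (F := ℂ) _ _)

end

end Pool.Agent.N113.FG
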