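import Pool.Agent.N113.FG.LA
import Pool.Agent.N113.FG.Pr

/-!
# Pink's conjecture for products of elliptic curves is equivalent to the finiteness of the optimal
points of slices
-/

set_option autoImplicit false
set_option linter.unusedSectionVars false
set_option linter.style.haveILetI false

namespace Pool.Agent.N113.FG

open MvPolynomial
open Pool.Agent.N101.ZP
open Pool.Agent.N113.EC
open Pool.Agent.R948 (td tdP mon rel td_le_of_alg td_le_of_ker mem_rel_int exists_mul_int)

section

variable {F : Type} [Field F] [CharZero F] [IsAlgClosed F] [Algebra F ℂ] {J : Type} [Fintype J]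
  {E : J → Cv F}

/-- Pink's statement for the products of powers of the curves -/
def PinkFor (E : J → Cv F) : Prop :=
  ∀ (n : J → Type) [∀ j, Fintype (n j)] (X : Set (Pts (pw E n))), Subvariety X → ¬ InSub X →
    ¬ X ⊆ closure (X ∩ Deep E n (vdim X))

variable {n : J → Type} [∀ j, Fintype (n j)]

theorem mem_deep {P : Pts (pw E n)} {d : ℕ} (h : d < ∑ j, Module.finrank ℚ (rel (mx P j))) :
    P ∈ Deep E n d := by
  choose L hL hf using fun j => exists_lattice (mx P j)
  refine ⟨L, lt_of_lt_of_le h (Finset.sum_le_sum fun j _ => hf j), fun j m hm => ?_⟩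
  have h1 := hL j m hm
  rw [mon_mx] at h1
  exact h1

theorem le_defect_point (x : Pts (pw E n)) (hx : Aff x) :
    (rkz E (co x) : ℤ) ≤ defect ({x} : Set (Pts (pw E n))) := by
  have hM : Meets ({x} : Set (Pts (pw E n))) := ⟨x, rfl, hx⟩
  rw [defect_eq (sub_one x) hM]
  have q1 : Sp ℂ (toP (sub_one x) hM).pt (co x) := fun f hf => by
    rw [PP.aeval_pt_eq_zero] at hf
    exact mem_v0.1 hf x rfl hx
  have q2 : Sp ℂ (co x) (toP (sub_one x) hM).pt := fun f hf => by
    rw [PP.aeval_pt_eq_zero]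
    refine mem_v0.2 fun q hq _ => ?_
    rw [Set.mem_singleton_iff.1 hq]
    exact hf
  have s1 := sp_restrict (F := F) q1
  have s2 := sp_restrict (F := F) q2
  have h1 : rkz E (toP (sub_one x) hM).pt = rkz E (co x) :=
    (RTh E).rk_eq _ _ _ (s1.comp Sum.inl) (s2.comp Sum.inl) (okr E _ _)
  have h2 : td ℂ (toP (sub_one x) hM).pt ≤ td ℂ (co x) := q2.td_le
  have h3 : td ℂ (co x) = 0 := by
    have h4 : td ℂ (co x) ≤ td ℂ (fun a : PEmpty => (a.elim : ℂ)) :=
      td_le_of_alg ℂ fun j => isAlgebraic_algebraMap (A := ℂ)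
        (⟨co x j, Subalgebra.algebraMap_mem _ (co x j)⟩ :
          Algebra.adjoin ℂ (Set.range fun a : PEmpty => (a.elim : ℂ)))
    have h5 := R948.td_le_card ℂ (fun a : PEmpty => (a.elim : ℂ))
    simp at h5
    omega
  rw [h1]
  omega

/-- **Optimal points are not dense.** -/
theorem not_dense (hPink : PinkFor E) {W : Set (Pts (pw E n))} (hW : Subvariety W) (hM : Meets W)
    (hne : ∀ P, W ≠ {P}) : ¬ W ⊆ closure {P | Aff P ∧ Optimal {P} W} := by
  obtain ⟨p, hp, hp2⟩ := exists_gen (adm_toP hW hM)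
  choose κ iκ a ha hind hcard using fun j => basis_coords (rel (mx p j))
  have hrk := rkz_card p hp
  have hcl : cl (pw E n) (toP hW hM) = W := cl_toP hW hM
  have hns : ¬ InSub (im (n' := κ) a W) := by
    rintro ⟨j, m, hm, h⟩
    have h1 := rel_of_points (adm_toP hW hM) p hp hp2 j (a j) m (fun q hq => by
      have h2 : q ∈ W := by
        rw [← hcl]
        exact Z0_sub_cl _ hq
      exact h (prj a q) (prj_mem a h2))
    have h2 : mon (fun k => mx p j (a j k)) m = 1 := by
      have h3 := mon_mx (E := E) (n := κ) (K := (toP hW hM).fld) (fun y => p (gi a y)) j m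
      have h4 : mon (fun k => mx p j (a j k)) m =
        Multiplicative.ofAdd (∑ i, m i • (p ⟨j, a j i⟩ : (E j).Pt (toP hW hM).fld)) := h3
      rw [h4, h1]
      rfl
    have h3 := hind j _ (rel_extend (mx p j) (a j) (ha j) m h2)
    apply hm
    funext i
    have h4 : (m i : ℚ) = 0 := congrFun h3 i
    exact_mod_cast h4
  intro hcl2
  refine hPink κ (im a W) (sub_im a hW) hns ?_
  have hsum : (∑ j, Fintype.card (κ j)) + ∑ j, Module.finrank ℚ (rel (mx p j)) =
      Fintype.card (Σ j, n j) := by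
    rw [Fintype.card_sigma, ← Finset.sum_add_distrib]
    exact Finset.sum_congr rfl fun j _ => hcard j
  have h2 : ∀ P : Pts (pw E n), Aff P → Optimal {P} W →
      prj a P ∈ Deep E κ (vdim (im (n' := κ) a W)) := by
    intro P hP hopt
    apply mem_deep
    have h1 : ({P} : Set (Pts (pw E n))) ⊂ W :=
      lt_of_le_of_ne hopt.2.1 fun h => hne P h.symm
    have h3 := hopt.2.2 W hW h1 subset_rfl
    rw [not_le, defect_eq hW hM, ← hp2] at h3
    have h4 := le_defect_point P hP
    have h5 := rkz_card (K := ℂ) P hP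
    rw [← co_eq] at h5
    have h6 : (∑ j, Fintype.card (κ j)) + ∑ j, Module.finrank ℚ (rel (mx P j)) ≤
        (∑ j, Module.finrank ℚ (rel (mx (prj a P) j))) + Fintype.card (Σ j, n j) := by
      rw [Fintype.card_sigma, ← Finset.sum_add_distrib, ← Finset.sum_add_distrib]
      exact Finset.sum_le_sum fun j _ => finrank_comap _ (a j) _ fun w hw =>
        extend_rel (mx P j) (a j) (ha j) w hw
    have h7 := vdim_im a (n' := κ) hW hM
    rw [vdim_eq hW hM, ← hp2] at h7
    omega
  exact im_sub a (closed_closure _) (hcl2.trans (closure_sub (closed_prj a (closed_closure _))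
    fun P hP => sub_closure _ ⟨prj_mem a (hP.2.2.1 rfl), h2 P hP.1 hP.2⟩))

end

/-! ### Noetherian induction -/

section

variable {F : Type} [Field F] [CharZero F] [IsAlgClosed F] [Algebra F ℂ]

theorem mem_iff_van {ι : Type} [Fintype ι] {C : ι → Cv F} {A : Set (Pts C)} (hA : ZClosed A)
    (ε : ι → Bool) {q : Pts C} (hq : Aff q) :
    tr ε q ∈ A ↔ ∀ f ∈ van ε A, eval (co q) f = 0 := by
  constructor
  · intro h f hf
    exact hf q hq h
  · intro h
    obtain ⟨S, hS⟩ := hA ε
    refine (hS q hq).2 fun f hf => h f ?_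
    intro p hp hp'
    exact (hS p hp).1 hp' f hf

theorem sub_of_van {ι : Type} [Fintype ι] {C : ι → Cv F} {A B : Set (Pts C)} (hA : ZClosed A)
    (h : ∀ ε, van ε A ≤ van ε B) : B ⊆ A := by
  intro p hp
  obtain ⟨ε, hε⟩ := exists_aff p
  have h1 : tr ε (tr ε p) = p := tr_self ε p
  rw [← h1, mem_iff_van hA ε hε]
  intro f hf
  refine h ε hf (tr ε p) hε ?_
  rw [h1]
  exact hp

theorem van_anti {ι : Type} [Fintype ι] {C : ι → Cv F} {A B : Set (Pts C)} (h : A ⊆ B)
    (ε : ι → Bool) : van ε B ≤ van ε A := fun _ hf p hp hp' => hf p hp (h hp')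

/-- Noetherian induction -/
theorem noeth {ι : Type} [Fintype ι] {C : ι → Cv F} (Q : Set (Pts C) → Prop)
    (h : ∀ A, ZClosed A → (∀ B, ZClosed B → B ⊂ A → Q B) → Q A) : ∀ A, ZClosed A → Q A := by
  haveI : WellFoundedLT (Ideal (MvPolynomial (ι ⊕ ι) ℂ))ᵒᵈ := inferInstance
  have key : ∀ m : (ι → Bool) → (Ideal (MvPolynomial (ι ⊕ ι) ℂ))ᵒᵈ, ∀ A : Set (Pts C),
      ZClosed A → (fun ε => OrderDual.toDual (van ε A)) = m → Q A := by
    intro m
    induction m using WellFoundedLT.induction with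
    | ind m ih =>
      rintro A hA rfl
      refine h A hA fun B hB hBA => ih _ ?_ B hB rfl
      refine lt_of_le_of_ne (fun ε => OrderDual.toDual_le_toDual.2 (van_anti hBA.1 ε)) fun h1 => ?_
      refine hBA.2 (sub_of_van hB fun ε => ?_)
      have h2 := congrFun h1 ε
      exact le_of_eq (OrderDual.toDual.injective h2)
  exact fun A hA => key _ A hA rfl

variable {J : Type} [Fintype J] {E : J → Cv F} {n : J → Type} [∀ j, Fintype (n j)]

theorem opt_anti {P : Pts (pw E n)} {V V' : Set (Pts (pw E n))} (h : Optimal {P} V) (hP : P ∈ V')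
    (hV : V' ⊆ V) : Optimal {P} V' :=
  ⟨h.1, Set.singleton_subset_iff.2 hP, fun B hB hPB hBV => h.2.2 B hB hPB (hBV.trans hV)⟩

theorem closed_inter {ι : Type} [Fintype ι] {C : ι → Cv F} {A B : Set (Pts C)} (hA : ZClosed A)
    (hB : ZClosed B) : ZClosed (A ∩ B) := by
  rw [← Set.sInter_pair]
  refine closed_sInter _ fun D hD => ?_
  rcases hD with rfl | hD
  · exact hA
  · rw [Set.mem_singleton_iff.1 hD]
    exact hB

theorem fin_points0 (hPink : PinkFor E) : ∀ V : Set (Pts (pw E n)), ZClosed V →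
    {P | Aff P ∧ Optimal {P} V}.Finite := by
  refine noeth _ fun V hV ih => ?_
  have hsub : ∀ V', V' ⊆ V → {P | Aff P ∧ Optimal {P} V} ∩ V' ⊆ {P | Aff P ∧ Optimal {P} V'} :=
    fun V' hV' P hP => ⟨hP.1.1, opt_anti hP.1.2 hP.2 hV'⟩
  have hin : {P | Aff P ∧ Optimal {P} V} ⊆ V := fun P hP => hP.2.2.1 rfl
  by_cases h0 : V.Nonempty
  swap
  · rw [Set.not_nonempty_iff_eq_empty] at h0
    refine Set.Finite.subset Set.finite_empty ?_
    rw [← h0]
    exact hin
  by_cases hirr : ∀ B D : Set (Pts (pw E n)), ZClosed B → ZClosed D → V ⊆ B ∪ D → V ⊆ B ∨ V ⊆ D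
  · have hsv : Subvariety V := ⟨hV, h0, hirr⟩
    by_cases hone : ∃ P, V = {P}
    · obtain ⟨P, hP⟩ := hone
      exact (Set.finite_singleton P).subset (hP ▸ hin)
    push Not at hone
    by_cases hM : Meets V
    · have h1 := not_dense hPink hsv hM hone
      have h2 : closure {P | Aff P ∧ Optimal {P} V} ⊂ V := ⟨closure_sub hV hin, h1⟩
      refine (ih _ (closed_closure _) h2).subset fun P hP => ?_
      exact hsub _ h2.1 ⟨hP, sub_closure _ hP⟩
    · refine Set.finite_empty.subset fun P hP => ?_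
      exact hM ⟨P, hin hP, hP.1⟩
  · push Not at hirr
    obtain ⟨B, D, hB, hD, h1, h2, h3⟩ := hirr
    have h4 : V ∩ B ⊂ V := ⟨Set.inter_subset_left, fun h => h2 fun x hx => (h hx).2⟩
    have h5 : V ∩ D ⊂ V := ⟨Set.inter_subset_left, fun h => h3 fun x hx => (h hx).2⟩
    refine ((ih _ (closed_inter hV hB) h4).union (ih _ (closed_inter hV hD) h5)).subset ?_
    intro P hP
    rcases h1 (hin hP) with h6 | h6
    · exact Or.inl (hsub _ h4.1 ⟨hP, hin hP, h6⟩)
    · exact Or.inr (hsub _ h5.1 ⟨hP, hin hP, h6⟩)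

theorem fin_points (hPink : PinkFor E) {V : Set (Pts (pw E n))} (hV : ZClosed V) :
    {P | Optimal {P} V}.Finite := by
  refine Set.Finite.subset (Set.finite_iUnion fun δ : (Σ j, n j) → Bool =>
    (fin_points0 hPink {p | tr δ p ∈ V} (closed_tr hV δ)).image (tr δ)) ?_
  intro P hP
  obtain ⟨δ, hδ⟩ := exists_aff P
  refine Set.mem_iUnion.2 ⟨δ, tr δ P, ⟨hδ, ?_⟩, tr_self δ P⟩
  have h1 : {q | tr δ q ∈ ({P} : Set (Pts (pw E n)))} = {tr δ P} := by
    ext q
    constructor
    · intro hq
      have h2 : tr δ q = P := hq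
      rw [Set.mem_singleton_iff, ← h2, tr_self]
    · intro hq
      rw [Set.mem_singleton_iff.1 hq]
      change tr δ (tr δ P) = P
      exact tr_self δ P
  have h2 := optimal_tr hP δ
  rw [h1] at h2
  exact h2

end

section

variable {F : Type} [Field F] [CharZero F] [IsAlgClosed F] [Algebra F ℂ] {J : Type} [Fintype J]
  (E : J → Cv F) (j₀ : J)

/-- **The main theorem: Pink's conjecture and optimal points of slices.** -/
theorem pink_iff (hal : (E j₀).al = 1) (halg : Algebra.IsAlgebraic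
    (Algebra.adjoin ℤ (Set.range fun j => (E j).al) ⊔
      Algebra.adjoin ℤ (Set.range fun j => (E j).be) : Subalgebra ℤ F) F)
    (hex : ∀ M : ℕ, ∃ c : Fin M × Fin 3 → ℂ, AlgebraicIndependent F c) :
    PinkFor E ↔
      ∀ (M : ℕ) (k : Fin M → J) (S : Finset (Fin M × Fin 3)), (∀ x ∈ S, x.2 ≠ 2) →
        ∃ c : Fin M × Fin 3 → ℂ, AlgebraicIndependent F (fun x : S => c x) ∧
          {P | Optimal {P} (closure (slice E j₀ k S c))}.Finite := by
  constructor
  · intro h M k S _
    obtain ⟨c, hc⟩ := hex M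
    exact ⟨c, hc.comp _ Subtype.val_injective, fin_points h (closed_closure _)⟩
  · intro h n _ X hX hns
    exact pink hX ((optimal_iff_points E j₀ hal halg hex).2 h n X hX) hns

end

end Pool.Agent.N113.FG
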