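import Pool.Agent.N113.FG.End
import Pool.Agent.N902.OP.Abs

/-!
# Optimal points of the slices of the products of the surfaces

(The abstract argument on slices is due to helper902, `Pool.Agent.N902.OP.Abs`.)
-/

set_option autoImplicit false
set_option linter.unusedSectionVars false
set_option linter.style.haveILetI false

namespace Pool.Agent.N113.FG

open MvPolynomial
open Pool.Agent.N101.ZP
open Pool.Agent.N113.EC
open Pool.Agent.R948 (td tdP td_le_of_alg td_le_of_ker tdP_eq)
open Pool.Agent.N902.OP (OptPt fin_of_slices)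

section

variable {F : Type} [Field F] [CharZero F] [IsAlgClosed F] [Algebra F ℂ] {ι : Type} [Fintype ι]
  {C : ι → Cv F}

theorem pt_ext {p q : Pts C} (hp : Aff p) (hq : Aff q) (h : co p = co q) : p = q :=
  funext fun i => (C i).ext (hp i) (hq i) (congrFun h (Sum.inl i)) (congrFun h (Sum.inr i))

theorem closed_one (p : Pts C) : ZClosed ({p} : Set (Pts C)) := by
  intro ε
  by_cases h : Aff (tr ε p)
  · refine ⟨Set.range fun a => X a - MvPolynomial.C (co (tr ε p) a), fun q hq => ?_⟩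
    constructor
    · intro h1
      rw [Set.mem_singleton_iff] at h1
      have h2 : q = tr ε p := by rw [← h1, tr_self]
      rintro _ ⟨a, rfl⟩
      rw [map_sub, eval_X, eval_C, h2, sub_self]
    · intro h1
      have h2 : q = tr ε p := by
        refine pt_ext hq h (funext fun a => ?_)
        have h3 := h1 _ ⟨a, rfl⟩
        rw [map_sub, eval_X, eval_C, sub_eq_zero] at h3
        exact h3
      rw [Set.mem_singleton_iff, h2, tr_self]
  · refine ⟨{1}, fun q hq => ⟨fun h1 => ?_, fun h1 => ?_⟩⟩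
    · exfalso
      apply h
      rw [Set.mem_singleton_iff] at h1
      rw [← h1, tr_self]
      exact hq
    · have h2 := h1 1 rfl
      rw [map_one] at h2
      exact absurd h2 one_ne_zero

theorem sub_one (p : Pts C) : Subvariety ({p} : Set (Pts C)) where
  closed := closed_one p
  nonempty := ⟨p, rfl⟩
  irreducible := fun B D _ _ h => by
    rcases h (Set.mem_singleton p) with h1 | h1
    · exact Or.inl (Set.singleton_subset_iff.2 h1)
    · exact Or.inr (Set.singleton_subset_iff.2 h1)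

theorem vdim_lt0 {A B : Set (Pts C)} (hA : Subvariety A) (hB : Subvariety B) (h : A ⊂ B)
    (hA' : Meets A) : vdim A < vdim B := by
  have hB' : Meets B := hA'.mono h.1
  rw [vdim_eq hA hA', vdim_eq hB hB', PP.td_pt, PP.td_pt]
  refine R948.tdP_strict (lt_of_le_of_ne (v0_anti h.1) fun h1 => ?_)
  have h2 : toP hB hB' = toP hA hA' := PP.ext' h1
  have h3 := cl_toP hA hA'
  rw [← h2, cl_toP hB hB'] at h3
  exact h.ne h3.symm

end

section

variable {F : Type} [Field F] [CharZero F] [IsAlgClosed F] [Algebra F ℂ] {J : Type} [Fintype J]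
  {E : J → Cv F} {n : J → Type} [∀ j, Fintype (n j)]

/-- the restriction to the coordinates `u` -/
noncomputable def rs (n : J → Type) : MvPolynomial (Σ j, n j) ℂ →ₐ[ℂ]
    MvPolynomial ((Σ j, n j) ⊕ (Σ j, n j)) ℂ := rename Sum.inl

theorem aeval_rs {K : Type} [Field K] [Algebra ℂ K] (z : (Σ j, n j) ⊕ (Σ j, n j) → K)
    (f : MvPolynomial (Σ j, n j) ℂ) : aeval z (rs n f) = aeval (fun a => z (Sum.inl a)) f :=
  aeval_rename _ _ _

theorem res_iff {R : PP ℂ ((Σ j, n j) ⊕ (Σ j, n j))} {P : PP ℂ (Σ j, n j)}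
    (hP : P.I = R.I.comap (rs n)) (f : MvPolynomial (Σ j, n j) ℂ) :
    aeval P.pt f = 0 ↔ aeval (fun a => R.pt (Sum.inl a)) f = 0 := by
  rw [PP.aeval_pt_eq_zero, hP, ← aeval_rs, PP.aeval_pt_eq_zero]
  exact Iff.rfl

theorem td_res {R : PP ℂ ((Σ j, n j) ⊕ (Σ j, n j))} {P : PP ℂ (Σ j, n j)}
    (hR : Adm (pw E n) R) (hP : P.I = R.I.comap (rs n)) : td ℂ P.pt = td ℂ R.pt := by
  have s1 : Sp ℂ P.pt (fun a => R.pt (Sum.inl a)) := fun f hf => (res_iff hP f).1 hf
  have s2 : Sp ℂ (fun a => R.pt (Sum.inl a)) P.pt := fun f hf => (res_iff hP f).2 hf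
  refine le_antisymm ((td_le_of_ker ℂ s2).trans (td_comp (F := ℂ) _ _)) ?_
  obtain ⟨x, hx, hx2⟩ := exists_gen hR
  have h3 := td_uu (A := ℂ) x
  have h4 : (fun i => (pw E n i).uu (x i)) = fun a => R.pt (Sum.inl a) := by
    rw [← hx2]
    rfl
  rw [h4, hx2] at h3
  exact h3.trans (td_le_of_ker ℂ s1)

theorem df_res {R : PP ℂ ((Σ j, n j) ⊕ (Σ j, n j))} {P : PP ℂ (Σ j, n j)}
    (hR : Adm (pw E n) R) (hP : P.I = R.I.comap (rs n)) :
    (RTh E).df ℂ (ss E n) P.pt = (rkz E R.pt : ℤ) - td ℂ R.pt := by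
  have s1 : Sp ℂ P.pt (fun a => R.pt (Sum.inl a)) := fun f hf => (res_iff hP f).1 hf
  have s2 : Sp ℂ (fun a => R.pt (Sum.inl a)) P.pt := fun f hf => (res_iff hP f).2 hf
  have h3 : (RTh E).rk (ss E n) P.pt = rkz E R.pt :=
    (RTh E).rk_eq (ss E n) _ _ (sp_restrict (F := F) s1) (sp_restrict (F := F) s2) (okr E _ _)
  rw [RT.df, td_res hR hP, h3]

/-- **An optimal point gives an optimal subvariety.** -/
theorem optimal_point {V : Set (Pts (pw E n))} (LL : List (MvPolynomial (Σ j, n j) ℤ))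
    (S : Finset (Σ j, n j)) (c : S → ℂ)
    (hV : ∀ p : Pts (pw E n), Aff p → (p ∈ V ↔ (∀ H ∈ LL,
      aeval (fun i => (pw E n i).uu (p i) : (Σ j, n j) → ℂ) H = 0) ∧
        ∀ j : S, (pw E n j).uu (p j) = c j))
    (p : Pts (pw E n)) (hp : Aff p)
    (h : OptPt (RTh E) (ss E n) (polsZ LL) S c (fun i => (pw E n i).uu (p i))) :
    Optimal {p} V := by
  obtain ⟨hok, hsat, hc, hmax⟩ := h
  have hpV : p ∈ V := (hV p hp).2 ⟨hsat, hc⟩
  refine ⟨sub_one p, Set.singleton_subset_iff.2 hpV, fun B hB hpB hBV hd => ?_⟩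
  have hM : Meets ({p} : Set (Pts (pw E n))) := ⟨p, rfl, hp⟩
  have hMB : Meets B := hM.mono hpB.1
  have hpmem : p ∈ B := hpB.1 rfl
  obtain ⟨P, hP⟩ : ∃ P : PP ℂ (Σ j, n j), P.I = (v0 B).comap (rs n) := ⟨⟨(v0 B).comap (rs n), by
    have := prime_v0 hB hMB
    exact Ideal.comap_isPrime (rs n) (v0 B)⟩, rfl⟩
  have hev : ∀ (q : Pts (pw E n)) (f : MvPolynomial (Σ j, n j) ℂ),
      eval (co q) (rs n f) = aeval (fun i => (pw E n i).uu (q i) : (Σ j, n j) → ℂ) f := by
    intro q f
    have h1 : eval (co q) (rs n f) = aeval (co q) (rs n f) := rfl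
    rw [h1, aeval_rs]
    rfl
  have hPI : ∀ f, f ∈ P.I ↔ ∀ q ∈ B, Aff q →
      aeval (fun i => (pw E n i).uu (q i) : (Σ j, n j) → ℂ) f = 0 := by
    intro f
    rw [hP, Ideal.mem_comap]
    constructor
    · intro h1 q hq hq'
      rw [← hev]
      exact mem_v0.1 h1 q hq hq'
    · intro h1
      refine mem_v0.2 fun q hq hq' => ?_
      rw [hev]
      exact h1 q hq hq'
  have e1 : (polsZ (F := F) LL).sat P.pt := by
    rw [← spanZ_le (F := F) LL P, spanZ, Ideal.span_le]
    rintro _ ⟨H, hH, rfl⟩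
    refine (hPI _).2 fun q hq hq' => ?_
    have h5 := ((hV q hq').1 (hBV hq)).1 H hH
    rw [← h5]
    exact aeval_map_algebraMap ℂ _ H
  have e2 : ∀ j : S, P.pt j = algebraMap ℂ P.fld (c j) := by
    intro j
    have h1 : (X (j : Σ j, n j) - MvPolynomial.C (c j) : MvPolynomial (Σ j, n j) ℂ) ∈ P.I := by
      refine (hPI _).2 fun q hq hq' => ?_
      rw [map_sub, aeval_X, aeval_C, ((hV q hq').1 (hBV hq)).2 j]
      exact sub_self _
    rw [← P.aeval_pt_eq_zero, map_sub, aeval_X, aeval_C, sub_eq_zero] at h1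
    exact h1
  have e3 : Sp ℂ P.pt (fun i => (pw E n i).uu (p i)) := fun f hf => by
    rw [PP.aeval_pt_eq_zero] at hf
    exact (hPI f).1 hf p hpmem hp
  obtain ⟨Q, hQ⟩ : ∃ Q : PP ℂ (Σ j, n j), Q = PP.ofPt ℂ (fun i => (pw E n i).uu (p i)) := ⟨_, rfl⟩
  have hQI : Q.I = (toP (sub_one p) hM).I.comap (rs n) := by
    ext f
    rw [hQ, Ideal.mem_comap]
    change aeval _ f = 0 ↔ rs n f ∈ v0 {p}
    constructor
    · intro h1
      refine mem_v0.2 fun q hq _ => ?_
      rw [Set.mem_singleton_iff.1 hq, hev]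
      exact h1
    · intro h1
      rw [← hev]
      exact mem_v0.1 h1 p rfl hp
  have hPI' : P.I = (toP hB hMB).I.comap (rs n) := hP
  have t1 := td_res (adm_toP hB hMB) hPI'
  have t2 := td_res (adm_toP (sub_one p) hM) hQI
  have d1 := df_res (adm_toP hB hMB) hPI'
  have d2 := df_res (adm_toP (sub_one p) hM) hQI
  have hlt := vdim_lt0 (sub_one p) hB hpB hM
  rw [vdim_eq (sub_one p) hM, vdim_eq hB hMB, ← t1, ← t2] at hlt
  have e4 : PP.ofPt ℂ (fun i => (pw E n i).uu (p i)) ≠ P := by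
    rw [← hQ]
    intro h1
    rw [h1] at hlt
    exact lt_irrefl _ hlt
  refine hmax P e1 e2 e3 e4 ?_
  rw [defect_eq hB hMB, defect_eq (sub_one p) hM] at hd
  have q1 : Sp ℂ Q.pt (fun i => (pw E n i).uu (p i)) := by
    rw [hQ]
    exact PP.sp_ofPt _
  have q2 : Sp ℂ (fun i => (pw E n i).uu (p i)) Q.pt := by
    rw [hQ]
    exact PP.sp_ofPt' _
  have r1 : (RTh E).rk (ss E n) Q.pt = (RTh E).rk (ss E n) (fun i => (pw E n i).uu (p i)) :=
    (RTh E).rk_eq (ss E n) _ _ (sp_restrict (F := F) q1) (sp_restrict (F := F) q2) (okr E _ _)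
  have r2 : td ℂ Q.pt = td ℂ (fun i => (pw E n i).uu (p i) : (Σ j, n j) → ℂ) :=
    le_antisymm q2.td_le q1.td_le
  rw [RT.df, r1, r2, ← RT.df] at d2
  rw [df_inst _ _ OreLocalization.instAlgebra inferInstance inferInstance] at d1
  rw [d2]
  refine le_trans (le_of_eq ?_) hd
  rw [← d1]

/-- finitely many optimal points in all the slices suffice -/
theorem finC_of_points (LL : List (MvPolynomial (Σ j, n j) ℤ)) (S₀ : Finset (Σ j, n j))
    (hS₀ : ∀ P : PP F (Σ j, n j), (polsZ (F := F) LL).sat P.pt →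
      ∀ i, IsAlgebraic (Algebra.adjoin F (P.pt '' S₀)) (P.pt i))
    (c : ∀ S : Finset (Σ j, n j), S → ℂ) (hc : ∀ S ⊆ S₀, AlgebraicIndependent F (c S))
    (V : Finset (Σ j, n j) → Set (Pts (pw E n)))
    (hV : ∀ S ⊆ S₀, ∀ p : Pts (pw E n), Aff p → (p ∈ V S ↔ (∀ H ∈ LL,
      aeval (fun i => (pw E n i).uu (p i) : (Σ j, n j) → ℂ) H = 0) ∧
        ∀ j : S, (pw E n j).uu (p j) = c S j))
    (h : ∀ S ⊆ S₀, {p : Pts (pw E n) | Optimal {p} (V S)}.Finite) :
    FinC (RTh E) (ss E n) (polsZ LL) := by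
  refine fin_of_slices (k := ℂ) (RTh E) (ss E n) (polsZ LL) S₀ hS₀ c hc fun S hS => ?_
  refine ((h S hS).image (fun p i => (pw E n i).uu (p i))).subset ?_
  intro y hy
  choose p hp hp2 using fun i => (pw E n i).exists_pt (y i)
  have h1 : (fun i => (pw E n i).uu (p i)) = y := funext hp2
  refine ⟨p, optimal_point LL S (c S) (hV S hS) p hp ?_, h1⟩
  rw [h1]
  exact hy

end

/-! ### the products of the surfaces -/

section

variable {F : Type} [Field F] [CharZero F] [Algebra F ℂ] {J : Type} [Fintype J] (E : J → Cv F)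
  (j₀ : J) {M : ℕ} (k : Fin M → J)

/-- The slice `u (P x) = c x`, `x ∈ S`, of the product of the surfaces. -/
def slice (S : Finset (Fin M × Fin 3)) (c : Fin M × Fin 3 → ℂ) : Set (Pts (pw E (ns j₀ k))) :=
  {P | P ∈ surf E j₀ k ∧ ∀ x ∈ S, (pw E (ns j₀ k) (ix j₀ k x)).uu (P (ix j₀ k x)) = c x}

end

section

variable {F : Type} [Field F] [CharZero F] [IsAlgClosed F] [Algebra F ℂ] {J : Type} [Fintype J]
  (E : J → Cv F) (j₀ : J)

theorem eval_rs (n : J → Type) [∀ j, Fintype (n j)] (q : Pts (pw E n))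
    (f : MvPolynomial (Σ j, n j) ℂ) :
    eval (co q) (rs n f) = aeval (fun i => (pw E n i).uu (q i) : (Σ j, n j) → ℂ) f := by
  have h1 : eval (co q) (rs n f) = aeval (co q) (rs n f) := rfl
  rw [h1, aeval_rs]
  rfl

theorem mem_closure_slice {M : ℕ} (k : Fin M → J) (S : Finset (Fin M × Fin 3))
    (c : Fin M × Fin 3 → ℂ) (p : Pts (pw E (ns j₀ k))) (hp : Aff p) :
    p ∈ closure (slice E j₀ k S c) ↔ (∀ H ∈ surfL j₀ k,
      aeval (fun i => (pw E (ns j₀ k) i).uu (p i) : (Σ j, ns j₀ k j) → ℂ) H = 0) ∧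
      ∀ x ∈ S, (pw E (ns j₀ k) (ix j₀ k x)).uu (p (ix j₀ k x)) = c x := by
  constructor
  · intro h
    refine ⟨(mem_closure_surf E j₀ k p hp).1
      (closure_sub (closed_closure _) (fun q hq => sub_closure _ hq.1) h), fun x hx => ?_⟩
    have h1 : closure (slice E j₀ k S c) ⊆ N (pw E (ns j₀ k))
        {f | ∃ x ∈ S, f = rs (ns j₀ k) (X (ix j₀ k x) - MvPolynomial.C (c x))} := by
      refine closure_sub (closed_N _) fun q hq hq' => ?_
      rintro _ ⟨x, hx, rfl⟩
      rw [eval_rs, map_sub, aeval_X, aeval_C, hq.2 x hx]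
      exact sub_self _
    have h2 := h1 h hp _ ⟨x, hx, rfl⟩
    rw [eval_rs, map_sub, aeval_X, aeval_C] at h2
    exact sub_eq_zero.1 h2
  · rintro ⟨h1, h2⟩
    exact sub_closure _ ⟨(mem_surf E j₀ k p).2 ⟨hp, h1⟩, h2⟩

/-- the coordinates -/
noncomputable def eqv {M : ℕ} (k : Fin M → J) : (Σ j, ns j₀ k j) ≃ Fin M × Fin 3 where
  toFun := fun y => y.2.1
  invFun := fun x => ix j₀ k x
  left_inv := fun y => ix_surj j₀ k y
  right_inv := fun _ => rfl

/-- **The main theorem: optimal points of generic slices.** -/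
theorem optimal_iff_points (hal : (E j₀).al = 1) (halg : Algebra.IsAlgebraic
    (Algebra.adjoin ℤ (Set.range fun j => (E j).al) ⊔
      Algebra.adjoin ℤ (Set.range fun j => (E j).be) : Subalgebra ℤ F) F)
    (hex : ∀ M : ℕ, ∃ c : Fin M × Fin 3 → ℂ, AlgebraicIndependent F c) :
    (∀ (n : J → Type) [∀ j, Fintype (n j)] (V : Set (Pts (pw E n))),
      Subvariety V → {A | Optimal A V}.Finite) ↔
      ∀ (M : ℕ) (k : Fin M → J) (S : Finset (Fin M × Fin 3)), (∀ x ∈ S, x.2 ≠ 2) →
        ∃ c : Fin M × Fin 3 → ℂ, AlgebraicIndependent F (fun x : S => c x) ∧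
          {P | Optimal {P} (closure (slice E j₀ k S c))}.Finite := by
  classical
  constructor
  · intro h M k S _
    obtain ⟨c, hc⟩ := hex M
    refine ⟨c, hc.comp _ Subtype.val_injective, ?_⟩
    have h1 : {A | Optimal A (closure (slice E j₀ k S c))}.Finite := by
      refine finite_closure (fun V hV => h _ V hV) (Ideal.span
        (({f | ∃ H ∈ surfL j₀ k, f = rs (ns j₀ k) (MvPolynomial.map (Int.castRingHom ℂ) H)} ∪
          {f | ∃ x ∈ S, f = rs (ns j₀ k) (X (ix j₀ k x) - MvPolynomial.C (c x))}) ∪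
          Set.range fun i => cv (pw E (ns j₀ k)) ℂ i)) (fun i => Ideal.subset_span (Or.inr ⟨i, rfl⟩))
        _ fun p => ?_
      have h1 : ∀ H : MvPolynomial (Σ j, ns j₀ k j) ℤ,
          eval (co p) (rs (ns j₀ k) (MvPolynomial.map (Int.castRingHom ℂ) H)) =
          aeval (fun i => (pw E (ns j₀ k) i).uu (p i) : (Σ j, ns j₀ k j) → ℂ) H := by
        intro H
        rw [eval_rs]
        exact aeval_map_algebraMap ℂ _ H
      have h2 : ∀ x, eval (co p) (rs (ns j₀ k) (X (ix j₀ k x) - MvPolynomial.C (c x))) =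
          (pw E (ns j₀ k) (ix j₀ k x)).uu (p (ix j₀ k x)) - c x := by
        intro x
        rw [eval_rs, map_sub, aeval_X, aeval_C]
        rfl
      change p ∈ surf E j₀ k ∧ _ ↔ _
      rw [mem_surf, and_assoc]
      refine and_congr_right fun hp => ?_
      constructor
      · rintro ⟨h3, h4⟩ f hf
        refine Submodule.span_induction (p := fun f _ => eval (co p) f = 0) ?_ ?_ ?_ ?_ hf
        · rintro _ ((⟨H, hH, rfl⟩ | ⟨x, hx, rfl⟩) | ⟨i, rfl⟩)
          · rw [h1]
            exact h3 H hH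
          · rw [h2, h4 x hx, sub_self]
          · exact aeval_cv_cK (k₀ := ℂ) p i
        · exact map_zero _
        · intro a b _ _ ha hb
          rw [map_add, ha, hb, add_zero]
        · intro a b _ hb
          rw [smul_eq_mul, map_mul, hb, mul_zero]
      · intro h3
        refine ⟨fun H hH => ?_, fun x hx => ?_⟩
        · rw [← h1]
          exact h3 _ (Ideal.subset_span (Or.inl (Or.inl ⟨H, hH, rfl⟩)))
        · have h4 := h3 _ (Ideal.subset_span (Or.inl (Or.inr ⟨x, hx, rfl⟩)))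
          rw [h2] at h4
          exact sub_eq_zero.1 h4
    exact h1.preimage (Set.singleton_injective.injOn)
  · intro h n _ V hV
    refine finite_optimal hV.closed fun I => main_c E j₀ hal halg (fun M k => ?_) (es E n) I
    let e := eqv j₀ k
    choose! c hc hfin using h M k
    have hbd : ∀ S : Finset (Σ j, ns j₀ k j),
        S ⊆ (Finset.univ.filter fun y : Σ j, ns j₀ k j => y.2.1.2 ≠ 2) →
        ∀ x ∈ S.image e, x.2 ≠ 2 := by
      intro S hS x hx
      obtain ⟨y, hy, rfl⟩ := Finset.mem_image.1 hx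
      exact (Finset.mem_filter.1 (hS hy)).2
    have h2 : FinC (RTh E) (ss E (ns j₀ k)) (polsZ (surfL j₀ k)) := by
      refine finC_of_points (surfL j₀ k)
        (Finset.univ.filter fun y : Σ j, ns j₀ k j => y.2.1.2 ≠ 2) ?_
        (fun S y => c (S.image e) (e y)) ?_
        (fun S => closure (slice E j₀ k (S.image e) (c (S.image e)))) ?_ ?_
      · intro P hP y
        obtain ⟨x, rfl⟩ := e.symm.surjective y
        have hmem : ∀ x : Fin M × Fin 3, x.2 ≠ 2 → P.pt (e.symm x) ∈ Algebra.adjoin F (P.pt ''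
            ((Finset.univ.filter fun y : Σ j, ns j₀ k j => y.2.1.2 ≠ 2 : Finset _) :
              Set (Σ j, ns j₀ k j))) := fun x hx =>
          Algebra.subset_adjoin ⟨e.symm x, by
            rw [Finset.mem_coe, Finset.mem_filter]
            exact ⟨Finset.mem_univ _, hx⟩, rfl⟩
        by_cases hx : x.2 = 2
        · have h3 := hP (X (ix j₀ k (x.1, 0)) + X (ix j₀ k (x.1, 1)) + X (ix j₀ k (x.1, 2)))
            (List.mem_map.2 ⟨x.1, by simp, rfl⟩)
          simp only [map_add, aeval_X] at h3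
          have h4 : P.pt (e.symm x) = -(P.pt (e.symm (x.1, 0)) + P.pt (e.symm (x.1, 1))) := by
            have h5 : x = (x.1, 2) := Prod.ext rfl hx
            rw [h5]
            exact eq_neg_of_add_eq_zero_right h3
          have h5 : P.pt (e.symm x) ∈ Algebra.adjoin F (P.pt ''
            ((Finset.univ.filter fun y : Σ j, ns j₀ k j => y.2.1.2 ≠ 2 : Finset _) :
              Set (Σ j, ns j₀ k j))) := by
            rw [h4]
            exact neg_mem (add_mem (hmem (x.1, 0) (by simp)) (hmem (x.1, 1) (by simp)))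
          exact isAlgebraic_algebraMap (A := P.fld) (⟨_, h5⟩ : Algebra.adjoin F (P.pt ''
            ((Finset.univ.filter fun y : Σ j, ns j₀ k j => y.2.1.2 ≠ 2 : Finset _) :
              Set (Σ j, ns j₀ k j))))
        · exact isAlgebraic_algebraMap (A := P.fld) (⟨_, hmem x hx⟩ : Algebra.adjoin F (P.pt ''
            ((Finset.univ.filter fun y : Σ j, ns j₀ k j => y.2.1.2 ≠ 2 : Finset _) :
              Set (Σ j, ns j₀ k j))))
      · intro S hS
        have h3 := hc (S.image e) (hbd S hS)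
        exact h3.comp (fun y : S => (⟨e y, Finset.mem_image_of_mem e y.2⟩ : ↥(S.image e)))
          fun a b hab => Subtype.ext (e.injective (congrArg Subtype.val hab))
      · intro S hS p hp
        rw [mem_closure_slice E j₀ k _ _ p hp]
        refine and_congr_right fun _ => ?_
        constructor
        · rintro h3 ⟨y, hy⟩
          have h4 := h3 (e y) (Finset.mem_image_of_mem e hy)
          have h5 : ix j₀ k (e y) = y := ix_surj j₀ k y
          rw [h5] at h4
          exact h4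
        · intro h3 x hx
          obtain ⟨y, hy, rfl⟩ := Finset.mem_image.1 hx
          have h5 : ix j₀ k (e y) = y := ix_surj j₀ k y
          rw [h5]
          exact h3 ⟨y, hy⟩
      · intro S hS
        exact hfin (S.image e) (hbd S hS)
    have h3 := FinC.reindex h2 e (ssum j₀ k) (fun y => y.2.2)
    refine FinR.congr h3 ?_ (fun _ _ _ _ _ _ _ => trivial)
    intro K _ _ y _
    simp only [Cond.comap, Pool.Agent.N101.ZP.polsZ, sumL, surfL, List.mem_map,
      Finset.mem_toList, Finset.mem_univ, true_and,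
      forall_exists_index, forall_apply_eq_imp_iff, map_add, aeval_X]
    rfl

end

end Pool.Agent.N113.FG
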