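import Pool.Agent.N113.FG.Fin

/-!
# The Zilber–Pink conjecture for products of elliptic curves and the powers of some surfaces
-/

set_option autoImplicit false
set_option linter.unusedSectionVars false
set_option linter.style.haveILetI false

namespace Pool.Agent.N113.FG

open MvPolynomial
open Pool.Agent.N101.ZP
open Pool.Agent.N113.EC
open Pool.Agent.R948 (td tdP td_le_of_alg td_le_of_ker tdP_eq)

section

variable {F : Type} [Field F] [CharZero F] [Algebra F ℂ] {J : Type} [Fintype J] (E : J → Cv F)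
  (j₀ : J) {M : ℕ} (k : Fin M → J)

/-- The coordinates `(i, c)`, `i < M`, `c < 3`, of the product of the surfaces in the products
`E j₀ × E j₀ × E (k i)` which belong to the curve `E j`. -/
def ns (j : J) : Type := {x : Fin M × Fin 3 // ssum j₀ k x = j}

noncomputable instance (j : J) : Fintype (ns j₀ k j) := by
  classical exact inferInstanceAs (Fintype {x : Fin M × Fin 3 // ssum j₀ k x = j})

/-- The coordinate `(i, c)`. -/
def ix (x : Fin M × Fin 3) : Σ j, ns j₀ k j := ⟨ssum j₀ k x, x, rfl⟩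

/-- The product of the surfaces `u(P) + u(Q) + u(R) = 0` (`P, Q, R ≠ 0`) in the products
`E j₀ × E j₀ × E (k i)`, `i < M`. -/
def surf : Set (Pts (pw E (ns j₀ k))) :=
  {P | ∀ i : Fin M, (∀ c : Fin 3, P (ix j₀ k (i, c)) ≠ 0) ∧
    ∑ c : Fin 3, (pw E (ns j₀ k) (ix j₀ k (i, c))).uu (P (ix j₀ k (i, c))) = 0}

end

/-! ### irreducible components -/

section

variable {F : Type} [Field F] [CharZero F] [IsAlgClosed F] [Algebra F ℂ] {J : Type} [Fintype J]
  {E : J → Cv F} {n : J → Type} [∀ j, Fintype (n j)]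

theorem sub_of_finite {ι : Type} [Fintype ι] {C : ι → Cv F} {A : Set (Pts C)} (hA : Subvariety A)
    {α : Type} (s : Finset α) (Z : α → Set (Pts C)) (hZ : ∀ a ∈ s, ZClosed (Z a))
    (h : A ⊆ ⋃ a ∈ s, Z a) : ∃ a ∈ s, A ⊆ Z a := by
  classical
  induction s using Finset.induction_on with
  | empty =>
    obtain ⟨x, hx⟩ := hA.nonempty
    have h1 := h hx
    simp at h1
  | insert a s ha ih =>
    have hcl : ∀ s : Finset α, (∀ a ∈ s, ZClosed (Z a)) → ZClosed (⋃ a ∈ s, Z a) := by
      intro s
      induction s using Finset.induction_on with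
      | empty =>
        intro _ ε
        refine ⟨{1}, fun p hp => ⟨fun h => by simp at h, fun h => ?_⟩⟩
        have h1 := h 1 rfl
        rw [map_one] at h1
        exact absurd h1 one_ne_zero
      | insert a s ha ih =>
        intro h1
        rw [Finset.set_biUnion_insert]
        exact closed_union (h1 a (Finset.mem_insert_self _ _))
          (ih fun b hb => h1 b (Finset.mem_insert_of_mem hb))
    rw [Finset.set_biUnion_insert] at h
    rcases hA.irreducible _ _ (hZ a (Finset.mem_insert_self _ _))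
      (hcl s fun b hb => hZ b (Finset.mem_insert_of_mem hb)) h with h1 | h1
    · exact ⟨a, Finset.mem_insert_self _ _, h1⟩
    · obtain ⟨b, hb, h2⟩ := ih (fun b hb => hZ b (Finset.mem_insert_of_mem hb)) h1
      exact ⟨b, Finset.mem_insert_of_mem hb, h2⟩

/-- finiteness of the optimal subvarieties of the closure of a closed subset of `U` -/
theorem finite_closure (h : ∀ V : Set (Pts (pw E n)), Subvariety V → {A | Optimal A V}.Finite)
    (I : Ideal (MvPolynomial ((Σ j, n j) ⊕ (Σ j, n j)) ℂ)) (hI : ∀ i, cv (pw E n) ℂ i ∈ I)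
    (S : Set (Pts (pw E n))) (hS : ∀ p, p ∈ S ↔ Aff p ∧ ∀ f ∈ I, eval (co p) f = 0) :
    {A | Optimal A (closure S)}.Finite := by
  classical
  have hfin : I.minimalPrimes.Finite := Ideal.finite_minimalPrimes_of_isNoetherianRing _ _
  let Z : Ideal (MvPolynomial ((Σ j, n j) ⊕ (Σ j, n j)) ℂ) → Set (Pts (pw E n)) := fun P =>
    closure {p | Aff p ∧ ∀ f ∈ P, eval (co p) f = 0}
  have hsub : ∀ P ∈ I.minimalPrimes, Z P ⊆ closure S := by
    intro P hP
    refine closure_sub (closed_closure _) fun p hp => sub_closure _ ((hS p).2 ⟨hp.1, fun f hf => ?_⟩)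
    exact hp.2 f (hP.1.2 hf)
  have h1 : {A | Optimal A (closure S)} ⊆ ⋃ P ∈ I.minimalPrimes, {A | Optimal A (Z P)} := by
    rintro A ⟨hA, hAS, hopt⟩
    have h2 : A ⊆ ⋃ P ∈ hfin.toFinset, Z P := by
      have hcl : ZClosed (⋃ P ∈ hfin.toFinset, Z P) := by
        have hcl : ∀ s : Finset (Ideal (MvPolynomial ((Σ j, n j) ⊕ (Σ j, n j)) ℂ)),
            ZClosed (⋃ P ∈ s, Z P) := by
          intro s
          induction s using Finset.induction_on with
          | empty =>
            intro ε
            refine ⟨{1}, fun p hp => ⟨fun h => by simp at h, fun h => ?_⟩⟩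
            have h1 := h 1 rfl
            rw [map_one] at h1
            exact absurd h1 one_ne_zero
          | insert a s ha ih =>
            rw [Finset.set_biUnion_insert]
            exact closed_union (closed_closure _) ih
        exact hcl _
      refine hAS.trans (closure_sub hcl fun p hp => ?_)
      obtain ⟨hp1, hp2⟩ := (hS p).1 hp
      let m : Ideal (MvPolynomial ((Σ j, n j) ⊕ (Σ j, n j)) ℂ) := RingHom.ker (eval (co p))
      have hm : m.IsPrime := RingHom.ker_isPrime _
      have hIm : I ≤ m := fun f hf => hp2 f hf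
      obtain ⟨P, hP, hPm⟩ := Ideal.exists_minimalPrimes_le hIm
      refine Set.mem_iUnion₂.2 ⟨P, hfin.mem_toFinset.2 hP, sub_closure _ ⟨hp1, fun f hf => ?_⟩⟩
      exact hPm hf
    obtain ⟨P, hP, h3⟩ := sub_of_finite hA hfin.toFinset Z (fun P _ => closed_closure _) h2
    have hP' := hfin.mem_toFinset.1 hP
    exact Set.mem_iUnion₂.2 ⟨P, hP', hA, h3, fun B hB hAB hBZ =>
      hopt B hB hAB (hBZ.trans (hsub P hP'))⟩
  refine Set.Finite.subset (hfin.biUnion fun P hP => ?_) h1
  let P' : PP ℂ ((Σ j, n j) ⊕ (Σ j, n j)) := ⟨P, hP.1.1⟩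
  exact h (Z P) (sub_cl (C := pw E n) (P := P') fun i => hP.1.2 (hI i))

end

/-! ### the main theorem -/

section

variable {F : Type} [Field F] [CharZero F] [IsAlgClosed F] [Algebra F ℂ] {J : Type} [Fintype J]
  (E : J → Cv F) (j₀ : J)

/-- the equations of the product of the surfaces -/
noncomputable def surfL {M : ℕ} (k : Fin M → J) : List (MvPolynomial (Σ j, ns j₀ k j) ℤ) :=
  (Finset.univ : Finset (Fin M)).toList.map fun i =>
    X (ix j₀ k (i, 0)) + X (ix j₀ k (i, 1)) + X (ix j₀ k (i, 2))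

theorem ix_surj {M : ℕ} (k : Fin M → J) (y : Σ j, ns j₀ k j) : ix j₀ k y.2.1 = y := by
  obtain ⟨j, x, rfl⟩ := y
  rfl

theorem mem_surf {M : ℕ} (k : Fin M → J) (p : Pts (pw E (ns j₀ k))) : p ∈ surf E j₀ k ↔
    Aff p ∧ ∀ H ∈ surfL j₀ k,
      aeval (fun i => (pw E (ns j₀ k) i).uu (p i) : (Σ j, ns j₀ k j) → ℂ) H = 0 := by
  have h1 : (∀ H ∈ surfL j₀ k,
      aeval (fun i => (pw E (ns j₀ k) i).uu (p i) : (Σ j, ns j₀ k j) → ℂ) H = 0) ↔
      ∀ i : Fin M, ∑ c : Fin 3, (pw E (ns j₀ k) (ix j₀ k (i, c))).uu (p (ix j₀ k (i, c))) = 0 := by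
    simp only [surfL, List.mem_map, Finset.mem_toList, Finset.mem_univ, true_and,
      forall_exists_index, forall_apply_eq_imp_iff, map_add, aeval_X, Fin.sum_univ_three]
  rw [h1]
  constructor
  · intro h
    refine ⟨fun y => ?_, fun i => (h i).2⟩
    rw [← ix_surj j₀ k y]
    exact (h y.2.1.1).1 y.2.1.2
  · rintro ⟨h2, h3⟩ i
    exact ⟨fun c => h2 _, h3 i⟩

theorem mem_closure_surf {M : ℕ} (k : Fin M → J) (p : Pts (pw E (ns j₀ k))) (hp : Aff p) :
    p ∈ closure (surf E j₀ k) ↔ ∀ H ∈ surfL j₀ k,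
      aeval (fun i => (pw E (ns j₀ k) i).uu (p i) : (Σ j, ns j₀ k j) → ℂ) H = 0 := by
  constructor
  · intro h H hH
    have h1 : closure (surf E j₀ k) ⊆ N (pw E (ns j₀ k))
        {f | ∃ H ∈ surfL j₀ k, f = rename Sum.inl (MvPolynomial.map (Int.castRingHom ℂ) H)} := by
      refine closure_sub (closed_N _) fun q hq hq' => ?_
      rintro _ ⟨H, hH, rfl⟩
      have h2 := ((mem_surf E j₀ k q).1 hq).2 H hH
      have h3 : eval (co q) (rename Sum.inl (MvPolynomial.map (Int.castRingHom ℂ) H)) =
          aeval (co q) (rename Sum.inl (MvPolynomial.map (Int.castRingHom ℂ) H)) := rfl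
      rw [h3, aeval_rename, ← h2]
      exact aeval_map_algebraMap ℂ _ H
    have h2 := h1 h hp _ ⟨H, hH, rfl⟩
    have h3 : eval (co p) (rename Sum.inl (MvPolynomial.map (Int.castRingHom ℂ) H)) =
        aeval (co p) (rename Sum.inl (MvPolynomial.map (Int.castRingHom ℂ) H)) := rfl
    rw [h3, aeval_rename] at h2
    rw [← h2]
    exact (aeval_map_algebraMap ℂ _ H).symm
  · intro h
    exact sub_closure _ ((mem_surf E j₀ k p).2 ⟨hp, h⟩)

/-- **The main theorem for products of powers of elliptic curves.** -/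
theorem optimal_iff (hal : (E j₀).al = 1) (halg : Algebra.IsAlgebraic
    (Algebra.adjoin ℤ (Set.range fun j => (E j).al) ⊔
      Algebra.adjoin ℤ (Set.range fun j => (E j).be) : Subalgebra ℤ F) F) :
    (∀ (n : J → Type) [∀ j, Fintype (n j)] (V : Set (Pts (pw E n))),
      Subvariety V → {A | Optimal A V}.Finite) ↔
      ∀ (M : ℕ) (k : Fin M → J), {A | Optimal A (closure (surf E j₀ k))}.Finite := by
  constructor
  · intro h M k
    refine finite_closure (fun V hV => h _ V hV) (Ideal.span
      ({f | ∃ H ∈ surfL j₀ k, f = rename Sum.inl (MvPolynomial.map (Int.castRingHom ℂ) H)} ∪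
        Set.range fun i => cv (pw E (ns j₀ k)) ℂ i)) (fun i => Ideal.subset_span (Or.inr ⟨i, rfl⟩))
      _ fun p => ?_
    rw [mem_surf]
    have h1 : ∀ H : MvPolynomial (Σ j, ns j₀ k j) ℤ,
        eval (co p) (rename Sum.inl (MvPolynomial.map (Int.castRingHom ℂ) H)) =
        aeval (fun i => (pw E (ns j₀ k) i).uu (p i) : (Σ j, ns j₀ k j) → ℂ) H := by
      intro H
      have h3 : eval (co p) (rename Sum.inl (MvPolynomial.map (Int.castRingHom ℂ) H)) =
        aeval (co p) (rename Sum.inl (MvPolynomial.map (Int.castRingHom ℂ) H)) := rfl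
      rw [h3, aeval_rename]
      exact aeval_map_algebraMap ℂ _ H
    refine and_congr_right fun hp => ?_
    constructor
    · intro h2 f hf
      refine Submodule.span_induction (p := fun f _ => eval (co p) f = 0) ?_ ?_ ?_ ?_ hf
      · rintro _ (⟨H, hH, rfl⟩ | ⟨i, rfl⟩)
        · rw [h1]
          exact h2 H hH
        · exact aeval_cv_cK (k₀ := ℂ) p i
      · exact map_zero _
      · intro a b _ _ ha hb
        rw [map_add, ha, hb, add_zero]
      · intro a b _ hb
        rw [smul_eq_mul, map_mul, hb, mul_zero]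
    · intro h2 H hH
      rw [← h1]
      exact h2 _ (Ideal.subset_span (Or.inl ⟨H, hH, rfl⟩))
  · intro h n _ V hV
    refine finite_optimal hV.closed fun I => main_c E j₀ hal halg (fun M k => ?_) (es E n) I
    have h1 := fin_of_optimal (closed_closure (surf E j₀ k)) (surfL j₀ k)
      (fun p hp => mem_closure_surf E j₀ k p hp) (h M k)
    have h2 := desc (T := RTh E) (ss E (ns j₀ k)) (surfL j₀ k) h1
    let e : (Σ j, ns j₀ k j) ≃ Fin M × Fin 3 :=
      { toFun := fun y => y.2.1
        invFun := fun x => ix j₀ k x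
        left_inv := fun y => ix_surj j₀ k y
        right_inv := fun x => rfl }
    have h3 := FinC.reindex h2 e (ssum j₀ k) (fun y => y.2.2)
    refine FinR.congr h3 ?_ (fun _ _ _ _ _ _ _ => trivial)
    intro K _ _ y _
    simp only [Cond.comap, Pool.Agent.N101.ZP.polsZ, sumL, surfL, List.mem_map,
      Finset.mem_toList, Finset.mem_univ, true_and,
      forall_exists_index, forall_apply_eq_imp_iff, map_add, aeval_X]
    rfl

end

end Pool.Agent.N113.FG
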