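import Pool.Agent.N113.FG.Def
import Pool.Agent.N113.EC.GenF

/-!
# The affine charts of a product of elliptic curves

(Adapted from the files of helper101 on `E^n × G_m^k`, `Pool.Agent.N101.ZE.Ech`.)
-/

set_option autoImplicit false
set_option linter.unusedSectionVars false
set_option linter.style.haveILetI false

namespace Pool.Agent.N113.FG

open MvPolynomial
open Pool.Agent.N101.ZP
open Pool.Agent.N113.EC
open Pool.Agent.R948 (td tdP td_le_of_alg)

variable {F : Type} [Field F] [CharZero F] {ι : Type} {C : ι → Cv F}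

section

variable {K : Type} [Field K] [Algebra F K]

/-- the coordinates of a point over a field -/
noncomputable def cK (p : ∀ i, (C i).Pt K) : ι ⊕ ι → K :=
  Sum.elim (fun i => (C i).uu (p i)) (fun i => (C i).yy (p i))

/-- translation by a point whose coordinates are `0` or `T` -/
noncomputable def sh (ε : ι → Bool) (p : ∀ i, (C i).Pt K) : ∀ i, (C i).Pt K :=
  fun i => p i + if ε i = true then (C i).T K else 0

theorem sh_sh (ε δ : ι → Bool) (p : ∀ i, (C i).Pt K) :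
    sh ε (sh δ p) = sh (fun i => xor (δ i) (ε i)) p := by
  funext i
  simp only [sh]
  rw [add_assoc]
  congr 1
  by_cases h1 : ε i = true <;> by_cases h2 : δ i = true <;> simp [h1, h2, (C i).T_add_T]

theorem sh_self (ε : ι → Bool) (p : ∀ i, (C i).Pt K) : sh ε (sh ε p) = p := by
  rw [sh_sh]
  funext i
  simp [sh]

theorem sh_zero (p : ∀ i, (C i).Pt K) : sh (fun _ => false) p = p := by
  funext i
  simp [sh]

theorem sh_true {Δ : ι → Bool} {i : ι} (hi : Δ i = true) (p : ∀ i, (C i).Pt K) :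
    sh Δ p i = p i + (C i).T K := by
  simp [sh, hi]

theorem sh_false {Δ : ι → Bool} {i : ι} (hi : ¬ Δ i = true) (p : ∀ i, (C i).Pt K) :
    sh Δ p i = p i := by
  simp [sh, hi]

theorem neg_T' (E : Cv F) : -E.T K = E.T K := neg_eq_of_add_eq_zero_left E.T_add_T

theorem uu_ne_of_sh {Δ : ι → Bool} {i : ι} (hi : Δ i = true) {p : ∀ i, (C i).Pt K} (hp : p i ≠ 0)
    (h : sh Δ p i ≠ 0) : (C i).uu (p i) ≠ 0 := by
  intro h0
  apply h
  rw [sh_true hi, (C i).eq_T_of_uu hp h0, (C i).T_add_T]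

theorem uu_eq_of_sh {Δ : ι → Bool} {i : ι} {p : ∀ i, (C i).Pt K} (hp : p i ≠ 0)
    (h : sh Δ p i = 0) : Δ i = true ∧ (C i).uu (p i) = 0 := by
  by_cases hi : Δ i = true
  · refine ⟨hi, ?_⟩
    rw [sh_true hi] at h
    rw [eq_neg_of_add_eq_zero_left h, neg_T', (C i).uu_T]
  · rw [sh_false hi] at h
    exact absurd h hp

end

section

variable [Fintype ι] {k₀ : Type} [Field k₀] [Algebra F k₀]

open Classical in
/-- the denominator of a translation -/
noncomputable def den (k₀ : Type) [Field k₀] (Δ : ι → Bool) : MvPolynomial (ι ⊕ ι) k₀ :=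
  ∏ i ∈ Finset.univ.filter (fun i => Δ i = true), X (Sum.inl i)

theorem exists_den (k₀ : Type) [Field k₀] (Δ : ι → Bool) (i : ι) (hi : Δ i = true) :
    ∃ D : MvPolynomial (ι ⊕ ι) k₀, den k₀ Δ = X (Sum.inl i) * D := by
  classical
  refine ⟨∏ j ∈ (Finset.univ.filter (fun i => Δ i = true)).erase i, X (Sum.inl j), ?_⟩
  rw [den]
  exact (Finset.mul_prod_erase _ _ (by simp [hi])).symm

theorem den_eq_zero {K : Type} [Field K] [Algebra k₀ K] (Δ : ι → Bool) (z : ι ⊕ ι → K) :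
    aeval z (den k₀ Δ) = 0 ↔ ∃ i, Δ i = true ∧ z (Sum.inl i) = 0 := by
  classical
  rw [den, map_prod, Finset.prod_eq_zero_iff]
  constructor
  · rintro ⟨i, hi, h⟩
    rw [aeval_X] at h
    exact ⟨i, (Finset.mem_filter.1 hi).2, h⟩
  · rintro ⟨i, hi, h⟩
    exact ⟨i, by simp [hi], by rw [aeval_X]; exact h⟩

theorem exists_pol (Δ : ι → Bool) (j : ι ⊕ ι) : ∃ t : MvPolynomial (ι ⊕ ι) k₀,
    ∀ (K : Type) [Field K] [Algebra k₀ K] [Algebra F K] [IsScalarTower F k₀ K]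
      (p : ∀ i, (C i).Pt K), (∀ i, p i ≠ 0) → (∀ i, sh Δ p i ≠ 0) →
      aeval (cK p) t = aeval (cK p) (den k₀ Δ) ^ 2 * cK (sh Δ p) j := by
  have hAB : ∀ (i : ι) (K : Type) [Field K] [Algebra k₀ K] [Algebra F K] [IsScalarTower F k₀ K],
      algebraMap k₀ K ((C i).A k₀ * (C i).B k₀) = (C i).A K * (C i).B K := by
    intro i K _ _ _ _
    rw [map_mul, Cv.A, Cv.B, Cv.A, Cv.B, IsScalarTower.algebraMap_apply F k₀ K (C i).al,
      IsScalarTower.algebraMap_apply F k₀ K (C i).be]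
  rcases j with i | i
  · by_cases hi : Δ i = true
    · obtain ⟨D, hD⟩ := exists_den k₀ Δ i hi
      refine ⟨MvPolynomial.C ((C i).A k₀ * (C i).B k₀) * X (Sum.inl i) * D ^ 2,
        fun K _ _ _ _ p hp hp' => ?_⟩
      have h0 := uu_ne_of_sh hi (hp i) (hp' i)
      have h1 : cK (sh Δ p) (Sum.inl i) = (C i).A K * (C i).B K / (C i).uu (p i) := by
        change (C i).uu (sh Δ p i) = _
        rw [sh_true hi]
        exact ((C i).add_T (hp i) h0).2.1
      have h2 : cK p (Sum.inl i) = (C i).uu (p i) := rfl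
      rw [h1, hD, map_mul (aeval _) (_ * _) (D ^ 2), map_mul (aeval _) (MvPolynomial.C _), map_pow,
        map_mul (aeval _) _ D, aeval_C, aeval_X, h2, hAB]
      field_simp
    · refine ⟨den k₀ Δ ^ 2 * X (Sum.inl i), fun K _ _ _ _ p hp hp' => ?_⟩
      have h1 : cK (sh Δ p) (Sum.inl i) = cK p (Sum.inl i) := by
        change (C i).uu (sh Δ p i) = _
        rw [sh_false hi]
        rfl
      rw [h1, map_mul, map_pow, aeval_X]
  · by_cases hi : Δ i = true
    · obtain ⟨D, hD⟩ := exists_den k₀ Δ i hi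
      refine ⟨-(MvPolynomial.C ((C i).A k₀ * (C i).B k₀) * X (Sum.inr i) * D ^ 2),
        fun K _ _ _ _ p hp hp' => ?_⟩
      have h0 := uu_ne_of_sh hi (hp i) (hp' i)
      have h1 : cK (sh Δ p) (Sum.inr i) =
          -((C i).A K * (C i).B K * (C i).yy (p i) / (C i).uu (p i) ^ 2) := by
        change (C i).yy (sh Δ p i) = _
        rw [sh_true hi]
        exact ((C i).add_T (hp i) h0).2.2
      have h2 : cK p (Sum.inl i) = (C i).uu (p i) := rfl
      have h3 : cK p (Sum.inr i) = (C i).yy (p i) := rfl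
      rw [h1, hD, map_neg, map_mul (aeval _) (_ * _) (D ^ 2), map_mul (aeval _) (MvPolynomial.C _),
        map_pow, map_mul (aeval _) _ D, aeval_C, aeval_X, aeval_X, h2, h3, hAB]
      field_simp
    · refine ⟨den k₀ Δ ^ 2 * X (Sum.inr i), fun K _ _ _ _ p hp hp' => ?_⟩
      have h1 : cK (sh Δ p) (Sum.inr i) = cK p (Sum.inr i) := by
        change (C i).yy (sh Δ p i) = _
        rw [sh_false hi]
        rfl
      rw [h1, map_mul, map_pow, aeval_X]

theorem exists_clear' (C : ι → Cv F) (Δ : ι → Bool) (f : MvPolynomial (ι ⊕ ι) k₀) :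
    ∃ (N : ℕ) (g : MvPolynomial (ι ⊕ ι) k₀),
    ∀ (K : Type) [Field K] [Algebra k₀ K] [Algebra F K] [IsScalarTower F k₀ K]
      (p : ∀ i, (C i).Pt K), (∀ i, p i ≠ 0) → (∀ i, sh Δ p i ≠ 0) →
      aeval (cK p) g = aeval (cK p) (den k₀ Δ) ^ N * aeval (cK (sh Δ p)) f := by
  induction f using MvPolynomial.induction_on with
  | C a =>
    refine ⟨0, MvPolynomial.C a, fun K _ _ _ _ p _ _ => ?_⟩
    rw [pow_zero, one_mul, aeval_C, aeval_C]
  | add f g hf hg =>
    obtain ⟨N, g₁, h1⟩ := hf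
    obtain ⟨M, g₂, h2⟩ := hg
    refine ⟨N + M, g₁ * den k₀ Δ ^ M + g₂ * den k₀ Δ ^ N, fun K _ _ _ _ p hp hp' => ?_⟩
    rw [map_add, map_add, map_mul, map_mul, h1 K p hp hp', h2 K p hp hp', map_pow, map_pow]
    ring
  | mul_X f j hf =>
    obtain ⟨N, g₁, h1⟩ := hf
    obtain ⟨t, ht⟩ := exists_pol (C := C) (k₀ := k₀) Δ j
    refine ⟨N + 2, g₁ * t, fun K _ _ _ _ p hp hp' => ?_⟩
    rw [map_mul, map_mul, h1 K p hp hp', ht K p hp hp', aeval_X]
    ring

/-- the translation of an equation -/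
theorem exists_clear (C : ι → Cv F) (Δ : ι → Bool) (f : MvPolynomial (ι ⊕ ι) k₀) :
    ∃ g : MvPolynomial (ι ⊕ ι) k₀,
    ∀ (K : Type) [Field K] [Algebra k₀ K] [Algebra F K] [IsScalarTower F k₀ K]
      (p : ∀ i, (C i).Pt K), (∀ i, p i ≠ 0) → (aeval (cK p) g = 0 ↔
        (∃ i, sh Δ p i = 0) ∨ aeval (cK (sh Δ p)) f = 0) := by
  obtain ⟨N, g, hg⟩ := exists_clear' C Δ f
  refine ⟨den k₀ Δ * g, fun K _ _ _ _ p hp => ?_⟩
  rw [map_mul, mul_eq_zero, den_eq_zero (k₀ := k₀) Δ]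
  by_cases h : ∃ i, sh Δ p i = 0
  · obtain ⟨i, hi⟩ := h
    obtain ⟨h1, h2⟩ := uu_eq_of_sh (hp i) hi
    exact iff_of_true (Or.inl ⟨i, h1, h2⟩) (Or.inl ⟨i, hi⟩)
  · have h' : ∀ i, sh Δ p i ≠ 0 := fun i hi => h ⟨i, hi⟩
    have h1 : ¬ ∃ i, Δ i = true ∧ cK p (Sum.inl i) = 0 := by
      rintro ⟨i, h2, h3⟩
      exact uu_ne_of_sh h2 (hp i) (h' i) h3
    have h2 : aeval (cK p) (den k₀ Δ) ≠ 0 := fun h3 => h1 ((den_eq_zero Δ _).1 h3)
    rw [or_iff_right h1, or_iff_right h, hg K p hp h', mul_eq_zero,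
      or_iff_right (pow_ne_zero N h2)]

end

/-! ### the equation of the curve -/

section

variable {k₀ : Type} [Field k₀] [Algebra F k₀]

/-- the equation of the curve -/
noncomputable def cv (C : ι → Cv F) (k₀ : Type) [Field k₀] [Algebra F k₀] (i : ι) :
    MvPolynomial (ι ⊕ ι) k₀ :=
  X (Sum.inr i) ^ 2 - X (Sum.inl i) * (X (Sum.inl i) - MvPolynomial.C ((C i).A k₀)) *
    (X (Sum.inl i) - MvPolynomial.C ((C i).B k₀))

theorem aeval_cv {K : Type} [Field K] [Algebra k₀ K] [Algebra F K] [IsScalarTower F k₀ K]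
    (z : ι ⊕ ι → K) (i : ι) : aeval z (cv C k₀ i) = 0 ↔
      z (Sum.inr i) ^ 2 = z (Sum.inl i) *
        (z (Sum.inl i) - (C i).A K) * (z (Sum.inl i) - (C i).B K) := by
  have h1 : algebraMap k₀ K ((C i).A k₀) = (C i).A K :=
    (IsScalarTower.algebraMap_apply F k₀ K (C i).al).symm
  have h2 : algebraMap k₀ K ((C i).B k₀) = (C i).B K :=
    (IsScalarTower.algebraMap_apply F k₀ K (C i).be).symm
  simp only [cv, map_sub, map_mul, map_pow, aeval_X, aeval_C, h1, h2, sub_eq_zero]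

theorem exists_pts {K : Type} [Field K] [Algebra k₀ K] [Algebra F K] [IsScalarTower F k₀ K]
    (z : ι ⊕ ι → K) (h : ∀ i, aeval z (cv C k₀ i) = 0) :
    ∃ p : ∀ i, (C i).Pt K, (∀ i, p i ≠ 0) ∧ cK p = z := by
  refine ⟨fun i => (C i).pu (z (Sum.inl i)) (z (Sum.inr i))
    ((aeval_cv z i).1 (h i)), fun i => (C i).pu_ne _, ?_⟩
  funext j
  rcases j with i | i
  · exact (C i).uu_pu ((aeval_cv z i).1 (h i))
  · exact (C i).yy_pu ((aeval_cv z i).1 (h i))

theorem aeval_cv_cK {K : Type} [Field K] [Algebra k₀ K] [Algebra F K] [IsScalarTower F k₀ K]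
    (p : ∀ i, (C i).Pt K) (i : ι) : aeval (cK p) (cv C k₀ i) = 0 := by
  rw [aeval_cv]
  exact (C i).eqn' _

end

end Pool.Agent.N113.FG
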