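import Pool.Agent.N113.FG.Ch

/-!
# Closed subsets of a product of elliptic curves and prime ideals

(Adapted from the files of helper101 on `E^n × G_m^k`, `Pool.Agent.N101.ZE.Ecl`.)
-/

set_option autoImplicit false
set_option linter.unusedSectionVars false
set_option linter.style.haveILetI false

namespace Pool.Agent.N113.FG

open MvPolynomial
open Pool.Agent.N101.ZP
open Pool.Agent.N113.EC
open Pool.Agent.R948 (td tdP td_le_of_alg)

variable {F : Type} [Field F] [CharZero F] [Algebra F ℂ] {ι : Type} [Fintype ι] {C : ι → Cv F}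

theorem co_eq (p : Pts C) : co p = cK p := rfl

theorem tr_tr (ε δ : ι → Bool) (p : Pts C) :
    tr ε (tr δ p) = tr (fun i => xor (δ i) (ε i)) p := sh_sh ε δ p

theorem tr_self (ε : ι → Bool) (p : Pts C) : tr ε (tr ε p) = p := sh_self ε p

theorem tr_zero (p : Pts C) : tr (fun _ => false) p = p := sh_zero p

theorem clearC (C : ι → Cv F) (Δ : ι → Bool) (f : MvPolynomial (ι ⊕ ι) ℂ) :
    ∃ g : MvPolynomial (ι ⊕ ι) ℂ,
    (∀ p : Pts C, Aff p → (eval (co p) g = 0 ↔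
      ¬ Aff (tr Δ p) ∨ eval (co (tr Δ p)) f = 0)) ∧
    ∀ (K : Type) [Field K] [Algebra ℂ K] [Algebra F K]
      [@IsScalarTower F ℂ K Algebra.toSMul Algebra.toSMul Algebra.toSMul] (p : ∀ i, (C i).Pt K),
      (∀ i, p i ≠ 0) → (aeval (cK p) g = 0 ↔
        (∃ i, sh Δ p i = 0) ∨ aeval (cK (sh Δ p)) f = 0) := by
  obtain ⟨g, hg⟩ := exists_clear (k₀ := ℂ) C Δ f
  refine ⟨g, fun p hp => ?_, fun K _ _ _ _ p hp => hg K p hp⟩
  have h1 := hg ℂ p hp
  have h2 : ¬ Aff (tr Δ p) ↔ ∃ i, sh Δ p i = 0 := by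
    rw [Aff, not_forall]
    exact exists_congr fun i => not_not
  rw [h2]
  exact h1

/-- the complement of `U` together with a closed subset of `U` -/
def N (C : ι → Cv F) (S : Set (MvPolynomial (ι ⊕ ι) ℂ)) : Set (Pts C) :=
  {p | Aff p → ∀ f ∈ S, eval (co p) f = 0}

theorem closed_N (S : Set (MvPolynomial (ι ⊕ ι) ℂ)) : ZClosed (N C S) := by
  intro ε
  choose g hg _ using fun f : MvPolynomial (ι ⊕ ι) ℂ => clearC C ε f
  refine ⟨g '' S, fun p hp => ?_⟩
  constructor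
  · rintro h _ ⟨f, hf, rfl⟩
    rw [hg f p hp]
    by_cases h1 : Aff (tr ε p)
    · exact Or.inr (h h1 f hf)
    · exact Or.inl h1
  · intro h h1 f hf
    have h2 := (hg f p hp).1 (h _ ⟨f, hf, rfl⟩)
    exact h2.resolve_left (not_not.2 h1)

theorem closed_tr {A : Set (Pts C)} (h : ZClosed A) (δ : ι → Bool) :
    ZClosed {p | tr δ p ∈ A} := by
  intro ε
  obtain ⟨S, hS⟩ := h (fun i => xor (ε i) (δ i))
  refine ⟨S, fun p hp => ?_⟩
  change tr δ (tr ε p) ∈ A ↔ _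
  rw [tr_tr]
  exact hS p hp

theorem closed_sInter (𝓑 : Set (Set (Pts C))) (h : ∀ B ∈ 𝓑, ZClosed B) :
    ZClosed (⋂₀ 𝓑) := by
  intro ε
  choose! S hS using fun B (hB : B ∈ 𝓑) => h B hB ε
  refine ⟨⋃ B ∈ 𝓑, S B, fun p hp => ?_⟩
  constructor
  · intro h1 f hf
    obtain ⟨B, hB, hf'⟩ := Set.mem_iUnion₂.1 hf
    exact (hS B hB p hp).1 (h1 B hB) f hf'
  · intro h1 B hB
    exact (hS B hB p hp).2 fun f hf => h1 f (Set.mem_iUnion₂.2 ⟨B, hB, hf⟩)

theorem closed_union {A B : Set (Pts C)} (hA : ZClosed A) (hB : ZClosed B) : ZClosed (A ∪ B) := by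
  intro ε
  obtain ⟨S, hS⟩ := hA ε
  obtain ⟨S', hS'⟩ := hB ε
  refine ⟨{h | ∃ f ∈ S, ∃ g ∈ S', h = f * g}, fun p hp => ?_⟩
  constructor
  · rintro (h | h) _ ⟨f, hf, g, hg, rfl⟩
    · rw [map_mul, (hS p hp).1 h f hf, zero_mul]
    · rw [map_mul, (hS' p hp).1 h g hg, mul_zero]
  · intro h
    by_contra hcon
    rw [Set.mem_union, not_or] at hcon
    obtain ⟨h1, h2⟩ := hcon
    rw [hS p hp] at h1
    rw [hS' p hp] at h2
    push Not at h1 h2
    obtain ⟨f, hf, hf'⟩ := h1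
    obtain ⟨g, hg, hg'⟩ := h2
    have h3 := h _ ⟨f, hf, g, hg, rfl⟩
    rw [map_mul] at h3
    exact mul_ne_zero hf' hg' h3

theorem sub_tr {A : Set (Pts C)} (h : Subvariety A) (δ : ι → Bool) :
    Subvariety {p | tr δ p ∈ A} := by
  refine ⟨closed_tr h.closed δ, ?_, ?_⟩
  · obtain ⟨x, hx⟩ := h.nonempty
    refine ⟨tr δ x, ?_⟩
    change tr δ (tr δ x) ∈ A
    rw [tr_self]
    exact hx
  · intro B D hB hD hsub
    have h1 : A ⊆ {p | tr δ p ∈ B} ∪ {p | tr δ p ∈ D} := by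
      intro x hx
      have h2 : tr δ x ∈ {p | tr δ p ∈ A} := by
        change tr δ (tr δ x) ∈ A
        rw [tr_self]
        exact hx
      exact hsub h2
    rcases h.irreducible _ _ (closed_tr hB δ) (closed_tr hD δ) h1 with h2 | h2
    · left
      intro x hx
      have h3 := h2 hx
      change tr δ (tr δ x) ∈ B at h3
      rwa [tr_self] at h3
    · right
      intro x hx
      have h3 := h2 hx
      change tr δ (tr δ x) ∈ D at h3
      rwa [tr_self] at h3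

theorem mem_van {ε : ι → Bool} {A : Set (Pts C)} {f : MvPolynomial (ι ⊕ ι) ℂ} :
    f ∈ van ε A ↔ ∀ p : Pts C, Aff p → tr ε p ∈ A → eval (co p) f = 0 := Iff.rfl

theorem van_tr (ε δ : ι → Bool) (A : Set (Pts C)) :
    van ε {p | tr δ p ∈ A} = van (fun i => xor (ε i) (δ i)) A := by
  ext f
  rw [mem_van, mem_van]
  refine forall_congr' fun p => forall_congr' fun _ => ?_
  rw [← tr_tr]
  rfl

/-- the ideal of the part in `U` -/
abbrev v0 (A : Set (Pts C)) : Ideal (MvPolynomial (ι ⊕ ι) ℂ) := van (fun _ => false) A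

theorem mem_v0 {A : Set (Pts C)} {f : MvPolynomial (ι ⊕ ι) ℂ} :
    f ∈ v0 A ↔ ∀ p ∈ A, Aff p → eval (co p) f = 0 := by
  rw [mem_van]
  constructor
  · intro h p hp hp'
    exact h p hp' (by rwa [tr_zero])
  · intro h p hp hp'
    rw [tr_zero] at hp'
    exact h p hp' hp

theorem v0_anti {A B : Set (Pts C)} (h : A ⊆ B) : v0 B ≤ v0 A := by
  intro f hf
  rw [mem_v0] at hf ⊢
  exact fun p hp => hf p (h hp)

/-- `A` meets `U` -/
def Meets (A : Set (Pts C)) : Prop := ∃ p ∈ A, Aff p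

theorem Meets.mono {A B : Set (Pts C)} (h : Meets A) (h' : A ⊆ B) : Meets B := by
  obtain ⟨p, hp, hp'⟩ := h
  exact ⟨p, h' hp, hp'⟩

theorem prime_v0 {A : Set (Pts C)} (h : Subvariety A) (hA : Meets A) :
    (v0 A).IsPrime := by
  obtain ⟨p, hp, hp'⟩ := hA
  refine ⟨fun h1 => ?_, fun {f g} hfg => ?_⟩
  · have h2 : (1 : MvPolynomial (ι ⊕ ι) ℂ) ∈ v0 A := by rw [h1]; trivial
    have h3 := mem_v0.1 h2 p hp hp'
    rw [map_one] at h3
    exact one_ne_zero h3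
  · have h1 : A ⊆ N C {f} ∪ N C {g} := by
      intro x hx
      by_cases hx' : Aff x
      · have h2 := mem_v0.1 hfg x hx hx'
        rw [map_mul] at h2
        rcases mul_eq_zero.1 h2 with h3 | h3
        · exact Or.inl fun _ f' hf' => by rw [Set.mem_singleton_iff.1 hf']; exact h3
        · exact Or.inr fun _ f' hf' => by rw [Set.mem_singleton_iff.1 hf']; exact h3
      · exact Or.inl fun h3 => absurd h3 hx'
    rcases h.irreducible _ _ (closed_N {f}) (closed_N {g}) h1 with h2 | h2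
    · left
      rw [mem_v0]
      exact fun x hx hx' => h2 hx hx' f rfl
    · right
      rw [mem_v0]
      exact fun x hx hx' => h2 hx hx' g rfl

/-- the prime of a subvariety which meets `U` -/
def toP {A : Set (Pts C)} (h : Subvariety A) (hA : Meets A) : PP ℂ (ι ⊕ ι) where
  I := v0 A
  prime := prime_v0 h hA

/-- admissible primes -/
def Adm (C : ι → Cv F) (P : PP ℂ (ι ⊕ ι)) : Prop := ∀ i, cv C ℂ i ∈ P.I

theorem adm_toP {A : Set (Pts C)} (h : Subvariety A) (hA : Meets A) :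
    Adm C (toP h hA) := by
  intro i
  change _ ∈ v0 A
  rw [mem_v0]
  intro x _ _
  exact aeval_cv_cK (k₀ := ℂ) x i

/-- the subset of `U` defined by a prime -/
def Z0 (C : ι → Cv F) (P : PP ℂ (ι ⊕ ι)) : Set (Pts C) :=
  {p | Aff p ∧ ∀ f ∈ P.I, eval (co p) f = 0}

theorem mem_of_Z0 {P : PP ℂ (ι ⊕ ι)} (hP : Adm C P) {f : MvPolynomial (ι ⊕ ι) ℂ}
    (hf : ∀ p ∈ Z0 C P, eval (co p) f = 0) : f ∈ P.I := by
  have h0 : vanishingIdeal ℂ (zeroLocus ℂ P.I) = P.I := IsPrime.vanishingIdeal_zeroLocus P.I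
  rw [← h0]
  intro z hz
  obtain ⟨q, hq, hq'⟩ := exists_pts (C := C) (k₀ := ℂ) z (fun i => hz _ (hP i))
  have h1 : co (q : Pts C) = z := hq'
  change eval z f = 0
  rw [← h1]
  refine hf _ ⟨hq, fun g hg => ?_⟩
  rw [h1]
  exact hz g hg

/-- the closure of the subset of `U` defined by a prime -/
def cl (C : ι → Cv F) (P : PP ℂ (ι ⊕ ι)) : Set (Pts C) := closure (Z0 C P)

theorem sub_closure (A : Set (Pts C)) : A ⊆ closure A := fun _ hp _ hB => hB.2 hp

theorem closure_sub {A B : Set (Pts C)} (hB : ZClosed B) (h : A ⊆ B) : closure A ⊆ B :=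
  Set.sInter_subset_of_mem ⟨hB, h⟩

theorem closed_closure (A : Set (Pts C)) : ZClosed (closure A) :=
  closed_sInter _ fun _ hB => hB.1

theorem Z0_sub_cl (P : PP ℂ (ι ⊕ ι)) : Z0 C P ⊆ cl C P := sub_closure _

theorem cl_sub {P : PP ℂ (ι ⊕ ι)} {B : Set (Pts C)} (hB : ZClosed B)
    (h : Z0 C P ⊆ B) : cl C P ⊆ B := closure_sub hB h

theorem closed_cl (P : PP ℂ (ι ⊕ ι)) : ZClosed (cl C P) := closed_closure _

theorem cl_aff {P : PP ℂ (ι ⊕ ι)} {p : Pts C} (h : p ∈ cl C P) (hp : Aff p) :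
    p ∈ Z0 C P := by
  have h1 : cl C P ⊆ N C (P.I : Set (MvPolynomial (ι ⊕ ι) ℂ)) :=
    cl_sub (closed_N _) fun q hq _ f hf => hq.2 f hf
  exact ⟨hp, fun f hf => h1 h hp f hf⟩

theorem v0_cl {P : PP ℂ (ι ⊕ ι)} (hP : Adm C P) : v0 (cl C P) = P.I := by
  apply le_antisymm
  · intro f hf
    rw [mem_v0] at hf
    exact mem_of_Z0 hP fun p hp => hf p (Z0_sub_cl P hp) hp.1
  · intro f hf
    rw [mem_v0]
    exact fun p hp hp' => (cl_aff hp hp').2 f hf

theorem meets_cl {P : PP ℂ (ι ⊕ ι)} (hP : Adm C P) : Meets (cl C P) := by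
  by_contra h
  apply P.prime.ne_top
  rw [Ideal.eq_top_iff_one]
  refine mem_of_Z0 hP fun p hp => ?_
  exact absurd ⟨p, Z0_sub_cl P hp, hp.1⟩ h

theorem sub_cl {P : PP ℂ (ι ⊕ ι)} (hP : Adm C P) : Subvariety (cl C P) := by
  refine ⟨closed_cl P, ?_, ?_⟩
  · obtain ⟨p, hp, -⟩ := meets_cl hP
    exact ⟨p, hp⟩
  · intro B D hB hD hsub
    by_contra hcon
    rw [not_or] at hcon
    obtain ⟨h1, h2⟩ := hcon
    have h1' : ¬ Z0 C P ⊆ B := fun h => h1 (cl_sub hB h)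
    have h2' : ¬ Z0 C P ⊆ D := fun h => h2 (cl_sub hD h)
    rw [Set.not_subset] at h1' h2'
    obtain ⟨x, hx, hx2⟩ := h1'
    obtain ⟨y, hy, hy2⟩ := h2'
    obtain ⟨S, hS⟩ := hB (fun _ => false)
    obtain ⟨S', hS'⟩ := hD (fun _ => false)
    have hSx := hS x hx.1
    have hSy := hS' y hy.1
    rw [tr_zero] at hSx hSy
    have h3 : ¬ ∀ f ∈ S, eval (co x) f = 0 := fun h => hx2 (hSx.2 h)
    have h4 : ¬ ∀ f ∈ S', eval (co y) f = 0 := fun h => hy2 (hSy.2 h)
    push Not at h3 h4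
    obtain ⟨f, hf, hf2⟩ := h3
    obtain ⟨g, hg, hg2⟩ := h4
    have h5 : f * g ∈ P.I := by
      refine mem_of_Z0 hP fun p hp => ?_
      rw [map_mul]
      have e1 := hS p hp.1
      have e2 := hS' p hp.1
      rw [tr_zero] at e1 e2
      rcases hsub (Z0_sub_cl P hp) with h6 | h6
      · rw [e1.1 h6 f hf, zero_mul]
      · rw [e2.1 h6 g hg, mul_zero]
    rcases P.prime.mem_or_mem h5 with h6 | h6
    · exact hf2 (hx.2 f h6)
    · exact hg2 (hy.2 g h6)

/-- inclusions of subvarieties which meet `U` can be tested on `U` -/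
theorem sub_of_aff {A B : Set (Pts C)} (hA : Subvariety A) (hA' : Meets A)
    (hB : ZClosed B) (h : ∀ p ∈ A, Aff p → p ∈ B) : A ⊆ B := by
  have h1 : A ⊆ B ∪ N C {1} := by
    intro p hp
    by_cases hp' : Aff p
    · exact Or.inl (h p hp hp')
    · exact Or.inr fun h => absurd h hp'
  rcases hA.irreducible _ _ hB (closed_N _) h1 with h2 | h2
  · exact h2
  · obtain ⟨p, hp, hp'⟩ := hA'
    have h3 := h2 hp hp' 1 rfl
    rw [map_one] at h3
    exact absurd h3 one_ne_zero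

theorem mem_of_v0 {B : Set (Pts C)} (hB : ZClosed B) {p : Pts C} (hp : Aff p)
    (h : ∀ f ∈ v0 B, eval (co p) f = 0) : p ∈ B := by
  obtain ⟨S, hS⟩ := hB (fun _ => false)
  have h1 := hS p hp
  rw [tr_zero] at h1
  refine h1.2 fun f hf => h f ?_
  rw [mem_v0]
  intro q hq hq'
  have h2 := hS q hq'
  rw [tr_zero] at h2
  exact h2.1 hq f hf

theorem cl_toP {A : Set (Pts C)} (h : Subvariety A) (hA : Meets A) :
    cl C (toP h hA) = A := by
  apply Set.Subset.antisymm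
  · exact cl_sub h.closed fun p hp => mem_of_v0 h.closed hp.1 hp.2
  · refine sub_of_aff h hA (closed_cl _) fun p hp hp' => Z0_sub_cl _ ⟨hp', fun f hf => ?_⟩
    exact mem_v0.1 hf p hp hp'

theorem cl_mono {P Q : PP ℂ (ι ⊕ ι)} (h : P.I ≤ Q.I) : cl C Q ⊆ cl C P :=
  cl_sub (closed_cl P) fun _ hp => Z0_sub_cl P ⟨hp.1, fun f hf => hp.2 f (h hf)⟩

theorem toP_cl {P : PP ℂ (ι ⊕ ι)} (hP : Adm C P) :
    toP (sub_cl hP) (meets_cl hP) = P := PP.ext' (v0_cl hP)

/-- two translates of `U` which meet a subvariety meet in it -/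
theorem meets_both {A : Set (Pts C)} (h : Subvariety A) (hA : Meets A) {Δ : ι → Bool}
    (hΔ : ∃ p ∈ A, Aff (tr Δ p)) : ∃ p ∈ A, Aff p ∧ Aff (tr Δ p) := by
  by_contra hcon
  push Not at hcon
  have h1 : A ⊆ N C {1} ∪ {p | tr Δ p ∈ N C ({1} : Set (MvPolynomial (ι ⊕ ι) ℂ))} := by
    intro p hp
    by_cases hp' : Aff p
    · exact Or.inr fun h2 => absurd h2 (hcon p hp hp')
    · exact Or.inl fun h2 => absurd h2 hp'
  rcases h.irreducible _ _ (closed_N _) (closed_tr (closed_N _) Δ) h1 with h2 | h2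
  · obtain ⟨p, hp, hp'⟩ := hA
    have h3 := h2 hp hp' 1 rfl
    rw [map_one] at h3
    exact one_ne_zero h3
  · obtain ⟨p, hp, hp'⟩ := hΔ
    have h3 := h2 hp hp' 1 rfl
    rw [map_one] at h3
    exact one_ne_zero h3

end Pool.Agent.N113.FG
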