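import Pool.Agent.N113.EC.Formulas

/-!
# Subvarieties and special subvarieties of products of elliptic curves

`C i`, `i ∈ ι`, are elliptic curves with the equations `y² = u (u - A) (u - B)`, and `T` is the point
`(0, 0)` of order two. The points `P` of the product of the curves over the complex numbers such
that no coordinate `P i` is the origin form the affine open subset `U`, which is embedded in the
affine space by the coordinates `u (P i)`, `y (P i)`. The translates of `U` by the points whose
coordinates are `0` or `T` cover the product.

(The case of the powers of one curve over the algebraic numbers, together with tori, is due to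
helper101, `Pool.Agent.N101.ZE.EDef`.)
-/

set_option autoImplicit false

namespace Pool.Agent.N113.FG

open MvPolynomial
open Pool.Agent.N113.EC

variable {F : Type} [Field F] [CharZero F] [Algebra F ℂ] {ι : Type} [Fintype ι] (C : ι → Cv F)

/-- The points of the product of the curves `C i`. -/
abbrev Pts : Type := ∀ i, (C i).Pt ℂ

variable {C}

/-- The points of the affine open subset `U`. -/
def Aff (p : Pts C) : Prop := ∀ i, p i ≠ 0

/-- The coordinates of a point of `U`. -/
noncomputable def co (p : Pts C) : ι ⊕ ι → ℂ :=
  Sum.elim (fun i => (C i).uu (p i)) (fun i => (C i).yy (p i))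

/-- The translation by the point whose coordinate `i` is `T` if `ε i` is true and `0` if `ε i` is
false. -/
noncomputable def tr (ε : ι → Bool) (p : Pts C) : Pts C :=
  fun i => p i + if ε i = true then (C i).T ℂ else 0

/-- Zariski closed subsets of the product: the subsets whose intersection with each of the
translates of `U` is defined by polynomials. -/
def ZClosed (A : Set (Pts C)) : Prop :=
  ∀ ε : ι → Bool, ∃ S : Set (MvPolynomial (ι ⊕ ι) ℂ), ∀ p : Pts C, Aff p →
    (tr ε p ∈ A ↔ ∀ f ∈ S, eval (co p) f = 0)

/-- Subvarieties: irreducible Zariski closed subsets of the product. -/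
structure Subvariety (A : Set (Pts C)) : Prop where
  closed : ZClosed A
  nonempty : A.Nonempty
  irreducible : ∀ B D : Set (Pts C), ZClosed B → ZClosed D → A ⊆ B ∪ D → A ⊆ B ∨ A ⊆ D

/-- The Zariski closure. -/
def closure (A : Set (Pts C)) : Set (Pts C) := ⋂₀ {B | ZClosed B ∧ A ⊆ B}

/-- The ideal of the polynomials vanishing on the part of `A` in a translate of `U`. -/
def van (ε : ι → Bool) (A : Set (Pts C)) : Ideal (MvPolynomial (ι ⊕ ι) ℂ) where
  carrier := {f | ∀ p : Pts C, Aff p → tr ε p ∈ A → eval (co p) f = 0}
  zero_mem' := fun _ _ _ => map_zero _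
  add_mem' := fun {f g} hf hg x hx hx' => by rw [map_add, hf x hx hx', hg x hx hx', add_zero]
  smul_mem' := fun f g hg x hx hx' => by rw [smul_eq_mul, map_mul, hg x hx hx', mul_zero]

/-- The dimension of a subvariety: the largest transcendence degree of the ring of the restrictions
of the polynomial functions to its part in a translate of `U`. -/
noncomputable def vdim (A : Set (Pts C)) : ℕ :=
  ⨆ ε : ι → Bool, Cardinal.toNat (Algebra.trdeg ℂ (MvPolynomial (ι ⊕ ι) ℂ ⧸ van ε A))

section

variable {J : Type} (E : J → Cv F) (n : J → Type) [∀ j, Fintype (n j)]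

/-- The curves of the product of the powers `(E j) ^ (n j)`. -/
abbrev pw : (Σ j, n j) → Cv F := fun x => E x.1

variable {E n} [Fintype J]

/-- Special subvarieties of the product of the powers `(E j) ^ (n j)`: the translates by a torsion
point `t` of the connected subgroups of the points `P` with `∑ i, a i • P (j, i) = 0` for all `j` and
all integral vectors `a` in `W j`, where the `W j` are subspaces of the spaces `ℚ ^ (n j)`. -/
def Special (Z : Set (Pts (pw E n))) : Prop :=
  ∃ (W : ∀ j, Submodule ℚ (n j → ℚ)) (t : Pts (pw E n)), (∃ m : ℕ, m ≠ 0 ∧ ∀ x, m • t x = 0) ∧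
    Z = {P | ∀ j, ∀ a : n j → ℤ, (fun i => (a i : ℚ)) ∈ W j →
      (∑ i, a i • (P ⟨j, i⟩ - t ⟨j, i⟩) : (E j).Pt ℂ) = 0}

/-- The defect of a subvariety: the least dimension of a special subvariety containing it minus its
dimension. -/
noncomputable def defect (A : Set (Pts (pw E n))) : ℤ :=
  (sInf {d : ℕ | ∃ Z, Special Z ∧ A ⊆ Z ∧ vdim Z = d} : ℕ) - (vdim A : ℤ)

/-- `A` is an optimal subvariety for `V`: no larger subvariety of `V` has a defect which is at most
the defect of `A`. -/
def Optimal (A V : Set (Pts (pw E n))) : Prop :=
  Subvariety A ∧ A ⊆ V ∧ ∀ B, Subvariety B → A ⊂ B → B ⊆ V → ¬ defect B ≤ defect A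

end

end Pool.Agent.N113.FG
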