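import Pool.Agent.N113.FG.Sq

/-!
# The defect of a subvariety of a product of elliptic curves

(Adapted from the files of helper101 on `E^n × G_m^k`, `Pool.Agent.N101.ZE.Edf`.)
-/

set_option autoImplicit false
set_option linter.unusedSectionVars false
set_option linter.style.haveILetI false

namespace Pool.Agent.N113.FG

open MvPolynomial
open Pool.Agent.N101.ZP
open Pool.Agent.N113.EC
open Pool.Agent.R948 (mon rel dr td tdP td_le_of_alg td_le_of_ker exists_param tdP_eq)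
open Pool.Agent.N101.ZE.Cv (lin_par lin_res lin_par')

variable {F : Type} [Field F] [CharZero F] [IsAlgClosed F] [Algebra F ℂ] {J : Type} [Fintype J]
  {E : J → Cv F} {n : J → Type} [∀ j, Fintype (n j)]

theorem rkz_spec {P Q : PP ℂ ((Σ j, n j) ⊕ (Σ j, n j))} (h : P.I ≤ Q.I) :
    rkz E Q.pt ≤ rkz E P.pt := by
  have h1 := sp_restrict (F := F) (PP.sp_of_le h)
  exact (RTh E).rk_spec (fun y : Σ j, n j => y.1) (fun y => P.pt (Sum.inl y))
    (fun y => Q.pt (Sum.inl y)) (h1.comp Sum.inl) (okr E _ _)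

/-- the rank of a subvariety -/
noncomputable def rank {A : Set (Pts (pw E n))} (h : Subvariety A) (hA : Meets A) : ℕ :=
  rkz E (toP h hA).pt

theorem rank_le_special {A Z : Set (Pts (pw E n))} (h : Subvariety A) (hA : Meets A)
    (hZ : Special Z) (hAZ : A ⊆ Z) : rank h hA ≤ vdim Z := by
  obtain ⟨W, t, ⟨m, hm, ht⟩, rfl⟩ := hZ
  obtain ⟨-, -, h1⟩ := special_main W t m hm ht
  obtain ⟨R, h2, h3, h4⟩ := h1 (hA.mono hAZ)
  refine le_trans ?_ h4.le
  refine rkz_spec ?_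
  rw [h3]
  exact v0_anti hAZ

theorem exists_special {A : Set (Pts (pw E n))} (h : Subvariety A) (hA : Meets A) :
    ∃ Z, Special Z ∧ A ⊆ Z ∧ vdim Z ≤ rank h hA := by
  classical
  obtain ⟨P, hP⟩ : ∃ P, P = toP h hA := ⟨_, rfl⟩
  have hAdm : Adm (pw E n) P := by
    rw [hP]
    exact adm_toP h hA
  obtain ⟨p, hp, hp2⟩ := exists_gen hAdm
  choose d π b hd hπ hb using fun j => exists_param (rel (mx p j))
  have htau : ∀ y : Σ j, n j, ∃ (N : ℕ) (τ : (E y.1).Pt ℂ), 0 < N ∧ N • τ = 0 ∧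
      (E y.1).bc ℂ P.fld τ = (p y : (E y.1).Pt P.fld) - ∑ l, π y.1 (Pi.single y.2 1) l •
        ∑ k, b y.1 l k • (p ⟨y.1, k⟩ : (E y.1).Pt P.fld) := by
    rintro ⟨j, i⟩
    obtain ⟨r, hr, hr2⟩ := lin_res (G := (E j).Pt P.fld) (π j) (b j) (hb j) (fun k => p ⟨j, k⟩) i
    have h1 := (hπ j r).1 hr
    rw [R948.mem_rel_int] at h1
    obtain ⟨N, hN, h2⟩ := h1
    rw [mon_mx] at h2
    have h3 : N • (∑ k, r k • (p ⟨j, k⟩ : (E j).Pt P.fld) : (E j).Pt P.fld) = 0 := h2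
    obtain ⟨τ, hτ⟩ := (E j).mem_of_tors (A := ℂ) _ N hN h3
    refine ⟨N, τ, hN, ?_, ?_⟩
    · apply (E j).mp_inj (IsScalarTower.toAlgHom F ℂ P.fld)
      rw [map_nsmul, map_zero]
      have h4 : (E j).mp (IsScalarTower.toAlgHom F ℂ P.fld) τ =
        ∑ k, r k • (p ⟨j, k⟩ : (E j).Pt P.fld) := hτ
      rw [h4]
      exact h3
    · change (E j).bc ℂ P.fld τ = _
      rw [hτ]
      exact hr2
  choose N τ hN hτ hτ2 using htau
  let τ' : Pts (pw E n) := τ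
  have htors : ∀ y, (∏ y, N y) • τ' y = 0 := by
    intro y
    rw [← Finset.prod_erase_mul _ _ (Finset.mem_univ y), mul_smul]
    have h1 : N y • τ' y = 0 := hτ y
    rw [h1, smul_zero]
  have hn : (∏ y, N y) ≠ 0 := Finset.prod_ne_zero_iff.2 fun y _ => (hN y).ne'
  have hrel : ∀ j, ∀ a : n j → ℤ, (fun i => (a i : ℚ)) ∈ rel (mx p j) →
      (∑ i, a i • (p ⟨j, i⟩ : (E j).Pt P.fld) +
        (E j).bc ℂ P.fld (-∑ i, a i • (τ ⟨j, i⟩ : (E j).Pt ℂ)) : (E j).Pt P.fld) = 0 := by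
    intro j a ha
    have h1 : (∑ i, a i • (E j).bc ℂ P.fld (τ ⟨j, i⟩) : (E j).Pt P.fld) =
        ∑ i, a i • (p ⟨j, i⟩ : (E j).Pt P.fld) := by
      have h2 : ∀ i, a i • (E j).bc ℂ P.fld (τ ⟨j, i⟩) =
          a i • (p ⟨j, i⟩ : (E j).Pt P.fld) -
          a i • ∑ l, π j (Pi.single i 1) l •
            ∑ k, b j l k • (p ⟨j, k⟩ : (E j).Pt P.fld) := by
        intro i
        have h3 := hτ2 ⟨j, i⟩
        change (E j).bc ℂ P.fld (τ ⟨j, i⟩) = _ at h3
        rw [h3, smul_sub]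
      rw [Finset.sum_congr rfl fun i _ => h2 i, Finset.sum_sub_distrib, lin_par, (hπ j a).2 ha]
      simp
    rw [map_neg, map_sum]
    simp only [map_zsmul]
    rw [h1, add_neg_cancel]
  obtain ⟨h1, h2, -⟩ := special_main (fun j => rel (mx p j)) τ' (∏ y, N y) hn htors
  have hev : ∀ q ∈ A, Aff q → ∀ f ∈ P.I, eval (co q) f = 0 := by
    intro q hq hq' f hf
    rw [hP] at hf
    exact mem_v0.1 hf q hq hq'
  have hAZ : A ⊆ Rel (fun j => rel (mx p j)) τ' := by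
    refine sub_of_aff h hA h1 fun q hq hq' => fun j a ha => ?_
    have h3 : Sp ℂ (cc (E j) (fun i => p ⟨j, i⟩)) (cc (E j) (fun i => q ⟨j, i⟩)) := by
      have h4 : Sp ℂ P.pt (co q) := fun f hf => hev q hq hq' f ((P.aeval_pt_eq_zero f).1 hf)
      rw [← hp2] at h4
      have h5 := h4.comp
        (Sum.map (fun i => (⟨j, i⟩ : Σ j, n j)) (fun i => (⟨j, i⟩ : Σ j, n j)))
      have e1 : ∀ {L : Type} [Field L] [Algebra F L] (z : ∀ y, (pw E n y).Pt L),
          (fun a => cK z (Sum.map (fun i => (⟨j, i⟩ : Σ j, n j)) (fun i => (⟨j, i⟩ : Σ j, n j)) a)) =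
            cc (E j) (fun i => z ⟨j, i⟩) := by
        intro L _ _ z
        funext a
        rcases a with a | a <;> rfl
      rw [e1, co_eq, e1] at h5
      exact h5
    have h4 := rel_sp (E j) (A := ℂ) (fun i => p ⟨j, i⟩) (fun i => q ⟨j, i⟩) (fun i => hp _)
      (fun i => hq' _) h3 a _ (hrel j a ha)
    rw [bc_self, ← sub_eq_add_neg] at h4
    rw [← h4, ← Finset.sum_sub_distrib]
    exact Finset.sum_congr rfl fun i _ => smul_sub _ _ _
  have hspec : Special (Rel (fun j => rel (mx p j)) τ' : Set (Pts (pw E n))) :=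
    ⟨fun j => rel (mx p j), τ', ⟨_, hn, htors⟩, rfl⟩
  refine ⟨_, hspec, hAZ, ?_⟩
  have h3 := h2 (h.nonempty.mono hAZ)
  have h4 : rank h hA = rkz E (cK p) := by
    rw [hp2]
    subst hP
    rfl
  have h5 := rkz_card p hp
  omega

/-- **The defect of a subvariety.** -/
theorem defect_eq {A : Set (Pts (pw E n))} (h : Subvariety A) (hA : Meets A) :
    defect A = (rkz E (toP h hA).pt : ℤ) - td ℂ (toP h hA).pt := by
  have h1 : sInf {d : ℕ | ∃ Z, Special Z ∧ A ⊆ Z ∧ vdim Z = d} = rank h hA := by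
    apply le_antisymm
    · obtain ⟨Z, h1, h2, h3⟩ := exists_special h hA
      refine le_trans (Nat.sInf_le ?_) h3
      exact ⟨Z, h1, h2, rfl⟩
    · obtain ⟨Z, h1, h2, -⟩ := exists_special h hA
      obtain ⟨Z', h3, h4, h5⟩ := Nat.sInf_mem
        (s := {d : ℕ | ∃ Z, Special Z ∧ A ⊆ Z ∧ vdim Z = d}) ⟨_, Z, h1, h2, rfl⟩
      rw [← h5]
      exact rank_le_special h hA h3 h4
  rw [defect, h1, vdim_eq h hA, rank]

theorem defect_cl {P : PP ℂ ((Σ j, n j) ⊕ (Σ j, n j))} (hP : Adm (pw E n) P) :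
    defect (cl (pw E n) P) = (rkz E P.pt : ℤ) - td ℂ P.pt := by
  rw [defect_eq (sub_cl hP) (meets_cl hP), toP_cl hP]

/-! ### translations -/

theorem special_tr {Z : Set (Pts (pw E n))} (h : Special Z) (δ : (Σ j, n j) → Bool) :
    Special {p | tr δ p ∈ Z} := by
  obtain ⟨W, t, ⟨m, hm, ht⟩, rfl⟩ := h
  refine ⟨W, sh δ t, ⟨2 * m, by omega, tors_sh ht δ⟩, ?_⟩
  ext p
  exact rel_tr W t δ p

theorem tr_tr_set {ι : Type} {C : ι → Cv F} (δ : ι → Bool) (A : Set (Pts C)) :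
    {p | tr δ p ∈ {p | tr δ p ∈ A}} = A := by
  ext p
  change tr δ (tr δ p) ∈ A ↔ p ∈ A
  have h1 : tr δ (tr δ p) = p := sh_self δ p
  rw [h1]

theorem defect_tr (δ : (Σ j, n j) → Bool) (A : Set (Pts (pw E n))) :
    defect {p | tr δ p ∈ A} = defect A := by
  have h1 : ∀ A : Set (Pts (pw E n)), {d : ℕ | ∃ Z, Special Z ∧ A ⊆ Z ∧ vdim Z = d} ⊆
      {d : ℕ | ∃ Z, Special Z ∧ {p | tr δ p ∈ A} ⊆ Z ∧ vdim Z = d} := by
    rintro A d ⟨Z, h1, h2, h3⟩
    exact ⟨{p | tr δ p ∈ Z}, special_tr h1 δ, fun p hp => h2 hp, by rw [vdim_tr]; exact h3⟩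
  have h2 : {d : ℕ | ∃ Z, Special Z ∧ {p | tr δ p ∈ A} ⊆ Z ∧ vdim Z = d} =
      {d : ℕ | ∃ Z, Special Z ∧ A ⊆ Z ∧ vdim Z = d} := by
    apply Set.Subset.antisymm
    · have h3 := h1 {p | tr δ p ∈ A}
      rw [tr_tr_set] at h3
      exact h3
    · exact h1 A
  rw [defect, defect, h2, vdim_tr]

theorem tr_ssubset {A B : Set (Pts (pw E n))} (h : A ⊂ B) (δ : (Σ j, n j) → Bool) :
    {p | tr δ p ∈ A} ⊂ {p | tr δ p ∈ B} := by
  refine ⟨fun p hp => h.1 hp, fun h1 => h.2 fun p hp => ?_⟩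
  have h2 : tr δ (tr δ p) ∈ B := by
    rw [tr_self]
    exact hp
  have h3 : tr δ (tr δ p) ∈ A := h1 h2
  rwa [tr_self] at h3

theorem optimal_tr {A V : Set (Pts (pw E n))} (h : Optimal A V) (δ : (Σ j, n j) → Bool) :
    Optimal {p | tr δ p ∈ A} {p | tr δ p ∈ V} := by
  obtain ⟨h1, h2, h3⟩ := h
  refine ⟨sub_tr h1 δ, fun p hp => h2 hp, fun B hB hAB hBV hd => ?_⟩
  refine h3 {p | tr δ p ∈ B} (sub_tr hB δ) ?_ ?_ ?_
  · have h4 := tr_ssubset hAB δ
    rwa [tr_tr_set] at h4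
  · intro p hp
    have h4 := hBV hp
    change tr δ (tr δ p) ∈ V at h4
    rwa [tr_self] at h4
  · rw [defect_tr]
    rw [defect_tr] at hd
    exact hd

end Pool.Agent.N113.FG
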