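import Pool.Agent.N113.FG.Cl

/-!
# The dimension of a subvariety of a product of elliptic curves

(Adapted from the files of helper101 on `E^n × G_m^k`, `Pool.Agent.N101.ZE.Edm`.)
-/

set_option autoImplicit false
set_option linter.unusedSectionVars false
set_option linter.style.haveILetI false

namespace Pool.Agent.N113.FG

open MvPolynomial
open Pool.Agent.N101.ZP
open Pool.Agent.N113.EC
open Pool.Agent.R948 (td tdP td_le_of_alg td_le_of_ker tdP_eq)

section

variable {F : Type} [Field F] [CharZero F] {ι : Type} [Fintype ι] {C : ι → Cv F}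

/-- the transcendence degree of a translate -/
theorem td_sh {k₀ : Type} [Field k₀] [Algebra F k₀] {K : Type} [Field K] [Algebra k₀ K]
    [Algebra F K] [IsScalarTower F k₀ K] (Δ : ι → Bool) (p : ∀ i, (C i).Pt K)
    (hp : ∀ i, p i ≠ 0) (hp' : ∀ i, sh Δ p i ≠ 0) :
    td k₀ (cK (sh Δ p)) ≤ td k₀ (cK p) := by
  apply td_le_of_alg k₀
  have hb : ∀ j, IsAlgebraic (Algebra.adjoin k₀ (Set.range (cK p))) (cK p j) := fun j =>
    isAlgebraic_algebraMap (⟨_, Algebra.subset_adjoin ⟨j, rfl⟩⟩ :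
      Algebra.adjoin k₀ (Set.range (cK p)))
  have hc : ∀ c : F, IsAlgebraic (Algebra.adjoin k₀ (Set.range (cK p))) (algebraMap F K c) := by
    intro c
    rw [IsScalarTower.algebraMap_apply F k₀ K c]
    exact isAlgebraic_algebraMap (⟨_, Subalgebra.algebraMap_mem _ (algebraMap F k₀ c)⟩ :
      Algebra.adjoin k₀ (Set.range (cK p)))
  rintro (i | i)
  · by_cases hi : Δ i = true
    · have h1 : cK (sh Δ p) (Sum.inl i) = (C i).A K * (C i).B K * ((C i).uu (p i))⁻¹ := by
        change (C i).uu (sh Δ p i) = _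
        rw [sh_true hi, ((C i).add_T (hp i) (uu_ne_of_sh hi (hp i) (hp' i))).2.1, div_eq_mul_inv]
      rw [h1]
      exact ((hc _).mul (hc _)).mul (hb (Sum.inl i)).inv
    · have h1 : cK (sh Δ p) (Sum.inl i) = cK p (Sum.inl i) := by
        change (C i).uu (sh Δ p i) = _
        rw [sh_false hi]
        rfl
      rw [h1]
      exact hb _
  · by_cases hi : Δ i = true
    · have h1 : cK (sh Δ p) (Sum.inr i) =
          -((C i).A K * (C i).B K * (C i).yy (p i) * (((C i).uu (p i))⁻¹ * ((C i).uu (p i))⁻¹)) := by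
        change (C i).yy (sh Δ p i) = _
        rw [sh_true hi, ((C i).add_T (hp i) (uu_ne_of_sh hi (hp i) (hp' i))).2.2, div_eq_mul_inv,
          sq, mul_inv]
      rw [h1]
      have h2 := (hb (Sum.inl i)).inv
      exact ((((hc _).mul (hc _)).mul (hb (Sum.inr i))).mul (h2.mul h2)).neg
    · have h1 : cK (sh Δ p) (Sum.inr i) = cK p (Sum.inr i) := by
        change (C i).yy (sh Δ p i) = _
        rw [sh_false hi]
        rfl
      rw [h1]
      exact hb _

end

variable {F : Type} [Field F] [CharZero F] [Algebra F ℂ] {ι : Type} [Fintype ι] {C : ι → Cv F}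

/-- the generic point of an admissible prime -/
theorem exists_gen {P : PP ℂ (ι ⊕ ι)} (hP : Adm C P) :
    ∃ p : ∀ i, (C i).Pt P.fld, (∀ i, p i ≠ 0) ∧ cK p = P.pt :=
  exists_pts (k₀ := ℂ) P.pt fun i => (P.aeval_pt_eq_zero _).2 (hP i)

theorem exists_gen_tr {A : Set (Pts C)} (h : Subvariety A) (hA : Meets A) {Δ : ι → Bool}
    (hΔ : ∃ p ∈ A, Aff (tr Δ p)) (p : ∀ i, (C i).Pt (toP h hA).fld) (hp : ∀ i, p i ≠ 0)
    (hp2 : cK p = (toP h hA).pt) :
    (∀ i, sh Δ p i ≠ 0) ∧ ∀ f, aeval (cK (sh Δ p)) f = 0 ↔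
      f ∈ v0 {p | tr Δ p ∈ A} := by
  obtain ⟨p₀, hp₀, h1, h2⟩ := meets_both h hA hΔ
  have hne : ∀ i, sh Δ p i ≠ 0 := by
    intro i hi
    obtain ⟨h3, h4⟩ := uu_eq_of_sh (hp i) hi
    have h5 : X (Sum.inl i) ∈ (toP h hA).I := by
      rw [← PP.aeval_pt_eq_zero, aeval_X, ← hp2]
      exact h4
    have h6 := mem_v0.1 h5 p₀ hp₀ h1
    rw [eval_X] at h6
    exact uu_ne_of_sh h3 (h1 i) (h2 i) h6
  refine ⟨hne, fun f => ?_⟩
  obtain ⟨g, hg, hg'⟩ := clearC C Δ f
  have h3 := hg' (toP h hA).fld p hp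
  rw [or_iff_right (fun ⟨i, hi⟩ => hne i hi), hp2] at h3
  rw [← h3, PP.aeval_pt_eq_zero]
  constructor
  · intro hgA
    have hgA' := mem_v0.1 hgA
    have h4 : {p | tr Δ p ∈ A} ⊆ {p | tr Δ p ∈ N C ({1} : Set (MvPolynomial (ι ⊕ ι) ℂ))} ∪
        N C {f} := by
      intro q hq
      by_cases hq1 : Aff q
      · by_cases hq2 : Aff (tr Δ q)
        · right
          intro _ f' hf'
          rw [Set.mem_singleton_iff.1 hf']
          have h5 := (hg _ hq2).1 (hgA' _ hq hq2)
          rw [tr_self] at h5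
          exact h5.resolve_left (not_not.2 hq1)
        · exact Or.inl fun h5 => absurd h5 hq2
      · exact Or.inr fun h5 => absurd h5 hq1
    rcases (sub_tr h Δ).irreducible _ _ (closed_tr (closed_N _) Δ) (closed_N _) h4 with h5 | h5
    · have h6 : tr Δ p₀ ∈ {p | tr Δ p ∈ A} := by
        change tr Δ (tr Δ p₀) ∈ A
        rw [tr_self]
        exact hp₀
      have h7 : tr Δ (tr Δ p₀) ∈ N C ({1} : Set (MvPolynomial (ι ⊕ ι) ℂ)) := h5 h6
      rw [tr_self] at h7
      have h8 := h7 h1 1 rfl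
      rw [map_one] at h8
      exact absurd h8 one_ne_zero
    · rw [mem_v0]
      exact fun q hq hq' => h5 hq hq' f rfl
  · intro hf
    rw [mem_v0] at hf
    change g ∈ v0 A
    rw [mem_v0]
    intro q hq hq'
    rw [hg q hq']
    by_cases hq2 : Aff (tr Δ q)
    · right
      refine hf _ ?_ hq2
      change tr Δ (tr Δ q) ∈ A
      rw [tr_self]
      exact hq
    · exact Or.inl hq2

theorem van_eq_v0 (ε : ι → Bool) (A : Set (Pts C)) : van ε A = v0 {p | tr ε p ∈ A} := by
  rw [v0, van_tr]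
  congr 1
  funext i
  simp

theorem meets_tr {ε : ι → Bool} {A : Set (Pts C)} :
    Meets {p | tr ε p ∈ A} ↔ ∃ p ∈ A, Aff (tr ε p) := by
  constructor
  · rintro ⟨p, hp, hp'⟩
    refine ⟨tr ε p, hp, ?_⟩
    rw [tr_self]
    exact hp'
  · rintro ⟨p, hp, hp'⟩
    refine ⟨tr ε p, ?_, hp'⟩
    change tr ε (tr ε p) ∈ A
    rw [tr_self]
    exact hp

theorem trdeg_top {R : Type} [CommRing R] [Algebra ℂ R] (h : Subsingleton R) :
    Cardinal.toNat (Algebra.trdeg ℂ R) = 0 := by
  rw [Algebra.trdeg, Cardinal.toNat_eq_zero]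
  left
  refine le_antisymm (ciSup_le' fun S => ?_) zero_le
  exfalso
  have h1 := S.2
  exact one_ne_zero (α := MvPolynomial S.1 ℂ) (h1 (Subsingleton.elim _ _))

theorem vdim_eq {A : Set (Pts C)} (h : Subvariety A) (hA : Meets A) :
    vdim A = td ℂ (toP h hA).pt := by
  have hle : ∀ ε : ι → Bool, Cardinal.toNat
      (Algebra.trdeg ℂ (MvPolynomial (ι ⊕ ι) ℂ ⧸ van ε A)) ≤ td ℂ (toP h hA).pt := by
    intro ε
    by_cases hε : ∃ p ∈ A, Aff (tr ε p)
    · have h1 := sub_tr h ε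
      have h2 := meets_tr.2 hε
      have h3 := tdP_eq (toP h1 h2).I
      have h4 : (toP h1 h2).I = van ε A := (van_eq_v0 ε A).symm
      obtain ⟨p, hp, hp2⟩ := exists_gen (adm_toP h hA)
      obtain ⟨h5, h6⟩ := exists_gen_tr h hA hε p hp hp2
      have h7 : td ℂ (toP h1 h2).pt ≤ td ℂ (toP h hA).pt := by
        conv_rhs => rw [← hp2]
        refine le_trans ?_ (td_sh (k₀ := ℂ) ε p hp h5)
        refine td_le_of_ker ℂ fun f hf => ?_
        rw [PP.aeval_pt_eq_zero]
        exact (h6 f).1 hf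
      rw [PP.td_pt] at h7
      rw [← h4, ← h3, Cardinal.toNat_natCast]
      exact h7
    · have h1 : van ε A = ⊤ := by
        rw [Ideal.eq_top_iff_one, mem_van]
        intro p hp hp'
        exfalso
        refine hε ⟨tr ε p, hp', ?_⟩
        rw [tr_self]
        exact hp
      rw [trdeg_top (by rw [h1]; exact Ideal.Quotient.subsingleton_iff.2 rfl)]
      exact Nat.zero_le _
  apply le_antisymm
  · exact ciSup_le hle
  · refine le_trans ?_ (le_ciSup (f := fun ε : ι → Bool => Cardinal.toNat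
      (Algebra.trdeg ℂ (MvPolynomial (ι ⊕ ι) ℂ ⧸ van ε A))) ⟨_, by
        rintro _ ⟨ε, rfl⟩; exact hle ε⟩ (fun _ => false))
    have h3 := tdP_eq (toP h hA).I
    rw [PP.td_pt]
    change _ ≤ Cardinal.toNat (Algebra.trdeg ℂ (MvPolynomial (ι ⊕ ι) ℂ ⧸ (toP h hA).I))
    rw [← h3, Cardinal.toNat_natCast]

theorem vdim_tr (δ : ι → Bool) (A : Set (Pts C)) : vdim {p | tr δ p ∈ A} = vdim A := by
  let e : (ι → Bool) ≃ (ι → Bool) :=
    { toFun := fun ε i => xor (ε i) (δ i)
      invFun := fun ε i => xor (ε i) (δ i)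
      left_inv := fun ε => by funext i; simp
      right_inv := fun ε => by funext i; simp }
  rw [vdim, vdim, ← e.iSup_comp]
  congr 1
  funext ε
  have h1 : van (e ε) {p | tr δ p ∈ A} = van ε A := by
    rw [van_tr (e ε) δ A]
    exact congrArg (fun ε => van ε A) (e.left_inv ε)
  rw [h1]

end Pool.Agent.N113.FG
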