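import Pool.Agent.N113.FG.Df

/-!
# Optimal subvarieties and finiteness for ideals

(Adapted from the files of helper101 on `E^n × G_m^k`, `Pool.Agent.N101.ZE.Efin`.)
-/

set_option autoImplicit false
set_option linter.unusedSectionVars false
set_option linter.style.haveILetI false

namespace Pool.Agent.N113.FG

open MvPolynomial
open Pool.Agent.N101.ZP
open Pool.Agent.N113.EC
open Pool.Agent.R948 (td tdP td_le_of_alg td_le_of_ker tdP_eq)

variable {F : Type} [Field F] [CharZero F] [IsAlgClosed F] [Algebra F ℂ] {J : Type} [Fintype J]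
  {E : J → Cv F} {n : J → Type} [∀ j, Fintype (n j)]

theorem df_inst (T : RT F) {K : Type} [Field K] [Algebra ℂ K] (i₁ i₂ : Algebra F K)
    (h₁ : @IsScalarTower F ℂ K Algebra.toSMul Algebra.toSMul i₁.toSMul)
    (h₂ : @IsScalarTower F ℂ K Algebra.toSMul Algebra.toSMul i₂.toSMul) {ι : Type} [Fintype ι]
    (s : ι → T.S) (p : ι → K) : @RT.df F _ T ι _ K _ i₁ ℂ _ _ s p =
      @RT.df F _ T ι _ K _ i₂ ℂ _ _ s p := by
  have h : i₁ = i₂ := by
    apply Algebra.algebra_ext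
    intro c
    rw [@IsScalarTower.algebraMap_apply F ℂ K _ _ _ _ _ i₁ h₁ c,
      @IsScalarTower.algebraMap_apply F ℂ K _ _ _ _ _ i₂ h₂ c]
  subst h
  rfl

/-- the sorts of the coordinates `u (P x)` and `y (P x)` -/
def es (E : J → Cv F) (n : J → Type) : (Σ j, n j) ⊕ (Σ j, n j) → (RTh E).S :=
  Sum.elim (fun y => y.1) (fun y => y.1)

/-- the sorts of the coordinates `u (P x)` -/
def ss (E : J → Cv F) (n : J → Type) : (Σ j, n j) → (RTh E).S := fun y => y.1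

/-- comparison of the two defects -/
theorem df_xu {P Q : PP ℂ ((Σ j, n j) ⊕ (Σ j, n j))} (h : P.I ≤ Q.I)
    (hdf : (RTh E).df ℂ (es E n) P.pt ≤ (RTh E).df ℂ (es E n) Q.pt) :
    (rkz E P.pt : ℤ) - td ℂ P.pt ≤ (rkz E Q.pt : ℤ) - td ℂ Q.pt := by
  let g : (Σ j, n j) ⊕ ((Σ j, n j) ⊕ (Σ j, n j)) → (Σ j, n j) ⊕ (Σ j, n j) := Sum.elim Sum.inl id
  have hsp := sp_restrict (F := F) (PP.sp_of_le h)
  have h1 := (RTh E).rk_rel (fun i => es E n (g i)) (fun i => P.pt (g i)) (fun i => Q.pt (g i))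
    (hsp.comp g) (okr E _ _)
  have h2 : ∀ R : PP ℂ ((Σ j, n j) ⊕ (Σ j, n j)),
      (RTh E).rk (fun i => es E n (g i)) (fun i => R.pt (g i)) = (RTh E).rk (es E n) R.pt := by
    intro R
    refine le_antisymm ((RTh E).rk_comp (es E n) R.pt g) ?_
    exact (RTh E).rk_comp (fun i => es E n (g i)) (fun i => R.pt (g i)) Sum.inr
  have h3 : ∀ R : PP ℂ ((Σ j, n j) ⊕ (Σ j, n j)), (RTh E).rk (fun i => es E n (g (Sum.inl i)))
      (fun i => R.pt (g (Sum.inl i))) = rkz E R.pt := fun R => rfl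
  rw [h2, h2, h3, h3] at h1
  rw [RT.df, RT.df] at hdf
  omega

theorem finite_aux {V : Set (Pts (pw E n))} (hV : ZClosed V)
    (h : FinI (RTh E) ℂ (es E n) (v0 V)) : {A | Optimal A V ∧ Meets A}.Finite := by
  obtain ⟨B, hB, h⟩ := h
  refine (hB.image (fun P => cl (pw E n) P)).subset ?_
  rintro A ⟨⟨hA, hAV, hopt⟩, hM⟩
  have hcv : ∀ i, cv (pw E n) ℂ i ∈ v0 V := by
    intro i
    rw [mem_v0]
    exact fun x _ _ => aeval_cv_cK (k₀ := ℂ) x i
  obtain ⟨P, hP1, hP2, hP3, hP4⟩ := h (toP hA hM) (okr E _ _) (v0_anti hAV)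
  have hP : Adm (pw E n) P := fun i => hP2 (hcv i)
  have h1 : A ⊆ cl (pw E n) P := by
    have h2 := cl_mono (C := pw E n) hP3
    rwa [cl_toP] at h2
  have h2 : cl (pw E n) P ⊆ V :=
    cl_sub hV fun p hp => mem_of_v0 hV hp.1 fun f hf => hp.2 f (hP2 hf)
  by_cases heq : A = cl (pw E n) P
  · exact ⟨P, hP1, heq.symm⟩
  · exfalso
    refine hopt _ (sub_cl hP) (lt_of_le_of_ne h1 heq) h2 ?_
    rw [defect_cl hP, defect_eq hA hM]
    refine df_xu hP3 ?_
    rw [df_inst _ _ OreLocalization.instAlgebra inferInstance inferInstance (es E n) P.pt,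
      df_inst _ _ OreLocalization.instAlgebra inferInstance inferInstance (es E n)
        (toP hA hM).pt]
    exact hP4

/-- **From ideals to optimal subvarieties.** -/
theorem finite_optimal {V : Set (Pts (pw E n))} (hV : ZClosed V)
    (h : ∀ I, FinI (RTh E) ℂ (es E n) I) : {A | Optimal A V}.Finite := by
  have h1 : {A | Optimal A V} ⊆ ⋃ ε : (Σ j, n j) → Bool,
      (fun A : Set (Pts (pw E n)) => {p | tr ε p ∈ A}) ''
      {A | Optimal A {p | tr ε p ∈ V} ∧ Meets A} := by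
    intro A hA
    obtain ⟨x, hx⟩ := hA.1.nonempty
    obtain ⟨ε, hε⟩ := exists_aff x
    refine Set.mem_iUnion.2 ⟨ε, {p | tr ε p ∈ A}, ⟨optimal_tr hA ε, ?_⟩, tr_tr_set ε A⟩
    exact meets_tr.2 ⟨x, hx, hε⟩
  refine Set.Finite.subset (Set.finite_iUnion fun ε => ?_) h1
  exact (finite_aux (closed_tr hV ε) (h _)).image _

/-- **From optimal subvarieties to ideals.** -/
theorem fin_of_optimal {V : Set (Pts (pw E n))} (hV : ZClosed V)
    (LL : List (MvPolynomial (Σ j, n j) ℤ))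
    (hLL : ∀ p : Pts (pw E n), Aff p → (p ∈ V ↔ ∀ H ∈ LL,
      aeval (fun i => (pw E n i).uu (p i) : (Σ j, n j) → ℂ) H = 0))
    (h : {A | Optimal A V}.Finite) : FinI (RTh E) ℂ (ss E n) (spanZ ℂ LL) := by
  let θ : MvPolynomial (Σ j, n j) ℂ →ₐ[ℂ] MvPolynomial ((Σ j, n j) ⊕ (Σ j, n j)) ℂ :=
    rename Sum.inl
  have hθ : ∀ {K : Type} [Field K] [Algebra ℂ K] (z : (Σ j, n j) ⊕ (Σ j, n j) → K)
      (f : MvPolynomial (Σ j, n j) ℂ), aeval z (θ f) = aeval (fun a => z (Sum.inl a)) f :=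
    fun z f => aeval_rename _ _ _
  have hco : ∀ p : Pts (pw E n), (fun a => co p (Sum.inl a)) =
      fun i => (pw E n i).uu (p i) := fun p => rfl
  refine ⟨{P | ∃ A : Set (Pts (pw E n)), Optimal A V ∧ P.I = (v0 A).comap θ}, ?_,
    fun Q₀ hok hQ₀ => ?_⟩
  · have h1 : (PP.I '' {P : PP ℂ (Σ j, n j) | ∃ A : Set (Pts (pw E n)), Optimal A V ∧
        P.I = (v0 A).comap θ}).Finite := by
      refine (h.image (fun A => (v0 A).comap θ)).subset ?_
      rintro _ ⟨P, ⟨A, hA, h2⟩, rfl⟩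
      exact ⟨A, hA, h2.symm⟩
    exact Set.Finite.of_finite_image h1 (fun P _ Q _ h => PP.ext' h)
  -- the lift of the prime
  let p : ∀ i, (pw E n i).Pt (AlgebraicClosure Q₀.fld) := fun i => (pw E n i).lift (Q₀.pt i)
  have hz : ∀ a, cK p (Sum.inl a) = algebraMap Q₀.fld (AlgebraicClosure Q₀.fld) (Q₀.pt a) :=
    fun i => (pw E n i).uu_lift _
  have hz2 : ∀ f : MvPolynomial (Σ j, n j) ℂ, aeval (cK p) (θ f) = 0 ↔ f ∈ Q₀.I := by
    intro f
    rw [hθ, funext hz, ← PP.aeval_pt_eq_zero]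
    have h1 : aeval (fun a => algebraMap Q₀.fld (AlgebraicClosure Q₀.fld) (Q₀.pt a)) f =
        algebraMap Q₀.fld (AlgebraicClosure Q₀.fld) (aeval Q₀.pt f) := aeval_algebraMap_apply _ _ _
    rw [h1]
    exact map_eq_zero_iff _ (algebraMap Q₀.fld (AlgebraicClosure Q₀.fld)).injective
  obtain ⟨Q, hQ⟩ : ∃ Q : PP ℂ ((Σ j, n j) ⊕ (Σ j, n j)), Q = PP.ofPt ℂ (cK p) := ⟨_, rfl⟩
  have hQI : ∀ f, f ∈ Q.I ↔ aeval (cK p) f = 0 := by
    intro f
    rw [hQ]
    exact Iff.rfl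
  have hQadm : Adm (pw E n) Q := by
    intro i
    rw [hQI]
    exact aeval_cv_cK (k₀ := ℂ) p i
  -- ranks and transcendence degrees of restrictions
  have hres : ∀ (R : PP ℂ ((Σ j, n j) ⊕ (Σ j, n j))) (P : PP ℂ (Σ j, n j)), Adm (pw E n) R →
      P.I = R.I.comap θ →
      (RTh E).df ℂ (ss E n) P.pt = (rkz E R.pt : ℤ) - td ℂ R.pt := by
    intro R P hR hP
    have h1 : ∀ f : MvPolynomial (Σ j, n j) ℂ, aeval P.pt f = 0 ↔
        aeval (fun a => R.pt (Sum.inl a)) f = 0 := by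
      intro f
      rw [PP.aeval_pt_eq_zero, hP, ← hθ, PP.aeval_pt_eq_zero]
      exact Iff.rfl
    have s1 : Sp ℂ P.pt (fun a => R.pt (Sum.inl a)) := fun f hf => (h1 f).1 hf
    have s2 : Sp ℂ (fun a => R.pt (Sum.inl a)) P.pt := fun f hf => (h1 f).2 hf
    have h2 : td ℂ P.pt = td ℂ R.pt := by
      refine le_antisymm ((td_le_of_ker ℂ s2).trans (td_comp (F := ℂ) _ _)) ?_
      obtain ⟨x, hx, hx2⟩ := exists_gen hR
      have h3 := td_uu (A := ℂ) x
      have h4 : (fun i => (pw E n i).uu (x i)) = fun a => R.pt (Sum.inl a) := by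
        rw [← hx2]
        rfl
      rw [h4, hx2] at h3
      exact h3.trans (td_le_of_ker ℂ s1)
    have h3 : (RTh E).rk (ss E n) P.pt = rkz E R.pt :=
      (RTh E).rk_eq (ss E n) _ _ (sp_restrict (F := F) s1) (sp_restrict (F := F) s2) (okr E _ _)
    rw [RT.df, h2, h3]
  have hQ₀' : Q₀.I = Q.I.comap θ := by
    ext f
    rw [Ideal.mem_comap, hQI, hz2]
  -- the closure of the lift
  have hsub₀ := sub_cl hQadm
  have hV₀ : cl (pw E n) Q ⊆ V := by
    refine cl_sub hV fun q hq => (hLL q hq.1).2 fun H hH => ?_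
    have h1 : MvPolynomial.map (Int.castRingHom ℂ) H ∈ Q₀.I := hQ₀ (Ideal.subset_span ⟨H, hH, rfl⟩)
    have h2 := hq.2 (θ (MvPolynomial.map (Int.castRingHom ℂ) H)) (by rw [hQI, hz2]; exact h1)
    have h3 : eval (co q) (θ (MvPolynomial.map (Int.castRingHom ℂ) H)) =
        aeval (co q) (θ (MvPolynomial.map (Int.castRingHom ℂ) H)) := rfl
    rw [h3, hθ, hco] at h2
    rw [← h2]
    exact (aeval_map_algebraMap ℂ _ H).symm
  let s : Set ℕ := {N | ∃ A : Set (Pts (pw E n)), Subvariety A ∧ cl (pw E n) Q ⊆ A ∧ A ⊆ V ∧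
    defect A ≤ defect (cl (pw E n) Q) ∧ vdim A = N}
  have hs1 : s.Nonempty := ⟨_, cl (pw E n) Q, hsub₀, subset_rfl, hV₀, le_rfl, rfl⟩
  have hs2 : BddAbove s := ⟨Fintype.card ((Σ j, n j) ⊕ (Σ j, n j)), by
    rintro _ ⟨A, hA, h1, -, -, rfl⟩
    rw [vdim_eq hA ((meets_cl hQadm).mono h1)]
    exact R948.td_le_card ℂ _⟩
  obtain ⟨A, hA, h1, h2, h3, h4⟩ := Nat.sSup_mem hs1 hs2
  have hM : Meets A := (meets_cl hQadm).mono h1
  have hopt : Optimal A V := by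
    refine ⟨hA, h2, fun B hB hAB hBV hd => ?_⟩
    have hMB : Meets B := hM.mono hAB.1
    have h5 : vdim B ∈ s := ⟨B, hB, h1.trans hAB.1, hBV, hd.trans h3, rfl⟩
    have h6 := le_csSup hs2 h5
    rw [← h4, vdim_eq hA hM, vdim_eq hB hMB, PP.td_pt, PP.td_pt] at h6
    have h7 : (toP hB hMB).I < (toP hA hM).I := by
      refine lt_of_le_of_ne (v0_anti hAB.1) fun h8 => hAB.ne ?_
      rw [← cl_toP hA hM, ← cl_toP hB hMB, PP.ext' h8]
    have h8 := R948.tdP_strict h7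
    omega
  obtain ⟨P, hP⟩ : ∃ P : PP ℂ (Σ j, n j), P.I = (v0 A).comap θ := ⟨⟨(v0 A).comap θ, by
    have := prime_v0 hA hM
    exact Ideal.comap_isPrime θ (v0 A)⟩, rfl⟩
  refine ⟨P, ⟨A, hopt, hP⟩, ?_, ?_, ?_⟩
  · rw [hP, spanZ, Ideal.span_le]
    rintro _ ⟨H, hH, rfl⟩
    change θ _ ∈ v0 A
    rw [mem_v0]
    intro q hq hq'
    have h5 := (hLL q hq').1 (h2 hq) H hH
    change aeval (co q) (θ _) = 0
    rw [hθ, hco, ← h5]
    exact aeval_map_algebraMap ℂ _ H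
  · rw [hP, hQ₀']
    refine Ideal.comap_mono ?_
    rw [← v0_cl hQadm]
    exact v0_anti h1
  · have h5 := hres (toP hA hM) P (adm_toP hA hM) hP
    have h6 := hres Q Q₀ hQadm hQ₀'
    rw [df_inst _ _ OreLocalization.instAlgebra inferInstance inferInstance] at h5 h6
    rw [h5, h6, ← defect_eq hA hM, ← defect_cl hQadm]
    exact h3

end Pool.Agent.N113.FG
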