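import Pool.Agent.N113.FG.Rl

/-!
# Generic points of products of elliptic curves
-/

set_option autoImplicit false
set_option linter.unusedSectionVars false
set_option linter.style.haveILetI false

namespace Pool.Agent.N113.FG

open MvPolynomial
open Pool.Agent.N101.ZP
open Pool.Agent.N113.EC
open Pool.Agent.R948 (mon rel dr td td_le_of_ker td_le_of_alg)

section

variable {F : Type} [Field F] [CharZero F]

/-- the coordinates `y` are algebraic over the others -/
theorem td_uu {A K : Type} [Field A] [Algebra F A] [Field K] [Algebra A K] [Algebra F K]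
    [IsScalarTower F A K] {ι : Type} [Fintype ι] {C : ι → Cv F} (p : ∀ i, (C i).Pt K) :
    td A (cK p) ≤ td A (fun i => (C i).uu (p i)) := by
  apply td_le_of_alg A
  have hb : ∀ j, (C j).uu (p j) ∈ Algebra.adjoin A (Set.range (fun i => (C i).uu (p i))) :=
    fun j => Algebra.subset_adjoin ⟨j, rfl⟩
  rintro (i | i)
  · exact isAlgebraic_algebraMap (⟨_, hb i⟩ : Algebra.adjoin A _)
  · refine IsAlgebraic.of_pow two_pos ?_
    change IsAlgebraic _ ((C i).yy (p i) ^ 2)
    rw [(C i).eqn']
    have hA : (C i).A K ∈ Algebra.adjoin A (Set.range (fun i => (C i).uu (p i))) := by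
      have h1 : (C i).A K = algebraMap A K ((C i).A A) :=
        IsScalarTower.algebraMap_apply F A K (C i).al
      rw [h1]
      exact Subalgebra.algebraMap_mem _ _
    have hB : (C i).B K ∈ Algebra.adjoin A (Set.range (fun i => (C i).uu (p i))) := by
      have h1 : (C i).B K = algebraMap A K ((C i).B A) :=
        IsScalarTower.algebraMap_apply F A K (C i).be
      rw [h1]
      exact Subalgebra.algebraMap_mem _ _
    exact isAlgebraic_algebraMap (⟨_, mul_mem (mul_mem (hb i) (sub_mem (hb i) hA))
      (sub_mem (hb i) hB)⟩ : Algebra.adjoin A _)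

variable {A : Type} [Field A] [Algebra F A]

/-- the cubic polynomial -/
noncomputable def cub (E : Cv F) (A : Type) [Field A] [Algebra F A] : Polynomial A :=
  Polynomial.X * (Polynomial.X - Polynomial.C (E.A A)) * (Polynomial.X - Polynomial.C (E.B A))

theorem aeval_cub (E : Cv F) {L : Type} [Field L] [Algebra A L] [Algebra F L]
    [IsScalarTower F A L] (u : L) : Polynomial.aeval u (cub E A) = u * (u - E.A L) * (u - E.B L) := by
  have h1 : algebraMap A L (E.A A) = E.A L := (IsScalarTower.algebraMap_apply F A L E.al).symm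
  have h2 : algebraMap A L (E.B A) = E.B L := (IsScalarTower.algebraMap_apply F A L E.be).symm
  simp only [cub, map_mul, map_sub, Polynomial.aeval_X, Polynomial.aeval_C, h1, h2]

theorem natDegree_cub (E : Cv F) : (cub E A).natDegree = 3 := by
  have h1 : (Polynomial.X : Polynomial A) ≠ 0 := Polynomial.X_ne_zero
  have h2 := Polynomial.X_sub_C_ne_zero (E.A A)
  have h3 := Polynomial.X_sub_C_ne_zero (E.B A)
  rw [cub, Polynomial.natDegree_mul (mul_ne_zero h1 h2) h3, Polynomial.natDegree_mul h1 h2,
    Polynomial.natDegree_X, Polynomial.natDegree_X_sub_C, Polynomial.natDegree_X_sub_C]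

/-- polynomial functions on the curve are linear in `y` -/
theorem exists_ab (D : Unit → Cv F) (f : MvPolynomial (Unit ⊕ Unit) A) : ∃ a b : Polynomial A,
    ∀ (L : Type) [Field L] [Algebra A L] [Algebra F L] [IsScalarTower F A L]
      (z : Unit ⊕ Unit → L), aeval z (cv D A ()) = 0 →
      aeval z f = Polynomial.aeval (z (Sum.inl ())) a +
        Polynomial.aeval (z (Sum.inl ())) b * z (Sum.inr ()) := by
  induction f using MvPolynomial.induction_on with
  | C c =>
    refine ⟨Polynomial.C c, 0, fun L _ _ _ _ z _ => ?_⟩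
    rw [aeval_C, Polynomial.aeval_C, map_zero, zero_mul, add_zero]
  | add f g hf hg =>
    obtain ⟨a, b, h1⟩ := hf
    obtain ⟨a', b', h2⟩ := hg
    refine ⟨a + a', b + b', fun L _ _ _ _ z hz => ?_⟩
    rw [map_add, h1 L z hz, h2 L z hz, map_add, map_add]
    ring
  | mul_X f i hf =>
    obtain ⟨a, b, h1⟩ := hf
    rcases i with ⟨⟩ | ⟨⟩
    · refine ⟨a * Polynomial.X, b * Polynomial.X, fun L _ _ _ _ z hz => ?_⟩
      rw [map_mul, h1 L z hz, map_mul, map_mul, Polynomial.aeval_X, aeval_X]
      ring
    · refine ⟨b * cub (D ()) A, a, fun L _ _ _ _ z hz => ?_⟩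
      rw [map_mul, h1 L z hz, map_mul, aeval_cub, aeval_X, ← (aeval_cv z ()).1 hz]
      ring

theorem exists_generic1 (D : Unit → Cv F) : ∃ R : PP A (Unit ⊕ Unit), (∀ i, cv D A i ∈ R.I) ∧
    (∀ (L : Type) [Field L] [Algebra A L] [Algebra F L] [IsScalarTower F A L]
      (z : Unit ⊕ Unit → L), (∀ i, aeval z (cv D A i) = 0) → Sp A R.pt z) ∧
    Fintype.card Unit ≤ td A R.pt := by
  let K₀ : Type := FractionRing (Polynomial A)
  let K : Type := AlgebraicClosure K₀
  let u : K := algebraMap K₀ K (algebraMap (Polynomial A) K₀ Polynomial.X)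
  have htr : ∀ p : Polynomial A, Polynomial.aeval u p = 0 → p = 0 := by
    intro p hp
    have h1 : Polynomial.aeval u p = algebraMap K₀ K (algebraMap (Polynomial A) K₀ p) := by
      have h2 : Polynomial.aeval u p =
          algebraMap K₀ K (Polynomial.aeval (algebraMap (Polynomial A) K₀ Polynomial.X) p) :=
        Polynomial.aeval_algebraMap_apply K _ p
      have h3 : Polynomial.aeval (algebraMap (Polynomial A) K₀ Polynomial.X) p =
          algebraMap (Polynomial A) K₀ (Polynomial.aeval Polynomial.X p) :=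
        Polynomial.aeval_algebraMap_apply K₀ _ p
      rw [h2, h3, Polynomial.aeval_X_left, AlgHom.id_apply]
    rw [h1, map_eq_zero_iff _ (algebraMap K₀ K).injective,
      map_eq_zero_iff _ (IsFractionRing.injective _ _)] at hp
    exact hp
  obtain ⟨P, hP, hPu⟩ := (D ()).exists_pt u
  let p : ∀ i, (D i).Pt K := fun _ => P
  have hcv : ∀ i, aeval (cK p) (cv D A i) = 0 := fun i => aeval_cv_cK p i
  refine ⟨PP.ofPt A (cK p), hcv, fun L _ _ _ _ z hz => ?_, ?_⟩
  · refine Sp.trans (PP.sp_ofPt _) fun f hf => ?_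
    obtain ⟨a, b, h1⟩ := exists_ab D f
    have h2 := h1 K (cK p) (hcv ())
    rw [hf] at h2
    have h3 : cK p (Sum.inl ()) = u := hPu
    have h4 : cK p (Sum.inr ()) ^ 2 = Polynomial.aeval u (cub (D ()) A) := by
      rw [aeval_cub, ← h3]
      exact (aeval_cv (C := D) (cK p) ()).1 (hcv ())
    rw [h3] at h2
    have h5 : a ^ 2 = b ^ 2 * cub (D ()) A := by
      rw [← sub_eq_zero]
      apply htr
      rw [map_sub, map_mul, map_pow, map_pow, ← h4]
      linear_combination (Polynomial.aeval u b * cK p (Sum.inr ()) - Polynomial.aeval u a) * h2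
    have hb : b = 0 := by
      by_contra hb
      have h6 := congrArg Polynomial.natDegree h5
      have hc : cub (D ()) A ≠ 0 := by
        intro h0
        have := natDegree_cub (A := A) (D ())
        rw [h0, Polynomial.natDegree_zero] at this
        omega
      rw [Polynomial.natDegree_pow, Polynomial.natDegree_mul (pow_ne_zero 2 hb) hc,
        Polynomial.natDegree_pow, natDegree_cub] at h6
      omega
    have ha : a = 0 := by
      rw [hb, zero_pow two_ne_zero, zero_mul] at h5
      exact pow_eq_zero_iff two_ne_zero |>.1 h5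
    rw [h1 L z (hz ()), ha, hb, map_zero, zero_mul, add_zero]
  · have h1 : AlgebraicIndependent A (fun _ : Unit => u) :=
      algebraicIndependent_unique_type_iff.2 fun ⟨q, hq, hq'⟩ => hq (htr q hq')
    have h2 := card_le_td h1
    have h3 : td A (fun _ : Unit => u) ≤ td A (cK p) := by
      have := td_comp (F := A) (cK p) (Sum.inl : Unit → Unit ⊕ Unit)
      have e : (fun j : Unit => cK p (Sum.inl j)) = fun _ => u := by
        funext j
        exact hPu
      rw [e] at this
      exact this
    have h4 : td A (cK p) ≤ td A (PP.ofPt A (cK p)).pt := td_le_of_ker A (PP.sp_ofPt _)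
    omega

/-- the property of the generic points of products -/
def HasGen (F : Type) [Field F] [CharZero F] (A : Type) [Field A] [Algebra F A] (κ : Type) : Prop :=
  ∀ (D : κ → Cv F) [Fintype κ], ∃ R : PP A (κ ⊕ κ), (∀ i, cv D A i ∈ R.I) ∧
    (∀ (L : Type) [Field L] [Algebra A L] [Algebra F L] [IsScalarTower F A L]
      (z : κ ⊕ κ → L), (∀ i, aeval z (cv D A i) = 0) → Sp A R.pt z) ∧
    Fintype.card κ ≤ td A R.pt

theorem hasGen_equiv {α β : Type} [Fintype α] (e : α ≃ β) (h : HasGen F A α) : HasGen F A β := by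
  intro D _
  obtain ⟨R, h1, h2, h3⟩ := h (fun a => D (e a))
  let g : β ⊕ β → α ⊕ α := Sum.map e.symm e.symm
  refine ⟨PP.ofPt A (fun j => R.pt (g j)), fun i => ?_, fun L _ _ _ _ z hz => ?_, ?_⟩
  · change aeval (fun j => R.pt (g j)) (cv D A i) = 0
    rw [aeval_cv]
    have h4 := (aeval_cv (C := fun a => D (e a)) R.pt (e.symm i)).1
      ((R.aeval_pt_eq_zero _).2 (h1 _))
    simp only [e.apply_symm_apply] at h4
    exact h4
  · refine (PP.sp_ofPt _).trans ?_
    have h4 : Sp A R.pt (fun j : α ⊕ α => z (Sum.map e e j)) := by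
      refine h2 L _ fun i => ?_
      rw [aeval_cv]
      exact (aeval_cv z (e i)).1 (hz (e i))
    have h5 := h4.comp g
    have h6 : (fun j => z (Sum.map e e (g j))) = z := by
      funext j
      rcases j with j | j <;> simp [g]
    rw [h6] at h5
    exact h5
  · have h4 : td A R.pt ≤ td A (fun j => R.pt (g j)) := by
      have h5 := td_comp (F := A) (fun j => R.pt (g j)) (Sum.map e e)
      have h6 : (fun j => R.pt (g (Sum.map e e j))) = R.pt := by
        funext j
        rcases j with j | j <;> simp [g]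
      rw [h6] at h5
      exact h5
    have h5 : td A (fun j => R.pt (g j)) ≤ td A (PP.ofPt A (fun j => R.pt (g j))).pt :=
      td_le_of_ker A (PP.sp_ofPt _)
    have h6 : Fintype.card β = Fintype.card α := (Fintype.card_congr e).symm
    omega

theorem hasGen_empty : HasGen F A PEmpty := by
  intro D _
  let z₀ : PEmpty ⊕ PEmpty → A := fun j => by
    rcases j with j | j <;> exact j.elim
  refine ⟨PP.ofPt A z₀, fun i => i.elim, fun L _ _ _ _ z hz => ?_, ?_⟩
  · refine (PP.sp_ofPt _).trans fun f hf => ?_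
    have h1 : z = fun j => algebraMap A L (z₀ j) := by
      funext j
      rcases j with j | j <;> exact j.elim
    have h2 : aeval (fun j => algebraMap A L (z₀ j)) f = algebraMap A L (aeval z₀ f) :=
      aeval_algebraMap_apply _ _ _
    rw [h1, h2, hf, map_zero]
  · simp

theorem hasGen_option [IsAlgClosed A] {α : Type} [Fintype α] (h : HasGen F A α) :
    HasGen F A (Option α) := by
  intro D inst
  obtain rfl : inst = instFintypeOption := Subsingleton.elim _ _
  obtain ⟨R₁, a1, a2, a3⟩ := exists_generic1 (A := A) (fun _ : Unit => D none)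
  obtain ⟨R₂, b1, b2, b3⟩ := h (fun a => D (some a))
  obtain ⟨R, c1, c2, c3, c4⟩ := exists_prod R₂ R₁
  let g : Option α ⊕ Option α → (α ⊕ α) ⊕ (Unit ⊕ Unit) :=
    Sum.elim (fun o => o.elim (Sum.inr (Sum.inl ())) fun a => Sum.inl (Sum.inl a))
      (fun o => o.elim (Sum.inr (Sum.inr ())) fun a => Sum.inl (Sum.inr a))
  let g' : (α ⊕ α) ⊕ (Unit ⊕ Unit) → Option α ⊕ Option α :=
    Sum.elim (Sum.map some some) (Sum.map (fun _ => none) (fun _ => none))
  refine ⟨PP.ofPt A (fun j => R.pt (g j)), fun i => ?_, fun L _ _ _ _ z hz => ?_, ?_⟩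
  · change aeval (fun j => R.pt (g j)) (cv D A i) = 0
    rw [aeval_cv]
    rcases i with _ | i
    · have h4 := (c2 (cv (fun _ : Unit => D none) A ())).2 (a1 ())
      rw [aeval_cv] at h4
      exact h4
    · have h4 := (c1 (cv (fun a => D (some a)) A i)).2 (b1 i)
      rw [aeval_cv] at h4
      exact h4
  · refine (PP.sp_ofPt _).trans ?_
    have h4 : Sp A R.pt (fun j => z (g' j)) := by
      refine c3 L _ (b2 L _ fun i => ?_) (a2 L _ fun i => ?_)
      · rw [aeval_cv]
        exact (aeval_cv z (some i)).1 (hz (some i))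
      · rw [aeval_cv]
        exact (aeval_cv z none).1 (hz none)
    have h5 := h4.comp g
    have h6 : (fun j => z (g' (g j))) = z := by
      funext j
      rcases j with (_ | j) | (_ | j) <;> rfl
    rw [h6] at h5
    exact h5
  · have h4 : td A R.pt ≤ td A (fun j => R.pt (g j)) := by
      have h5 := td_comp (F := A) (fun j => R.pt (g j)) g'
      have h6 : (fun j => R.pt (g (g' j))) = R.pt := by
        funext j
        rcases j with (j | j) | (⟨⟩ | ⟨⟩) <;> rfl
      rw [h6] at h5
      exact h5
    have h5 : td A (fun j => R.pt (g j)) ≤ td A (PP.ofPt A (fun j => R.pt (g j))).pt :=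
      td_le_of_ker A (PP.sp_ofPt _)
    have h6 : Fintype.card (Option α) = Fintype.card α + 1 := by
      rw [← Fintype.card_option]
    rw [Fintype.card_unit] at a3
    omega

theorem hasGen [IsAlgClosed A] (κ : Type) [Fintype κ] : HasGen F A κ :=
  Fintype.induction_empty_option (P := fun κ _ => HasGen F A κ)
    (fun α β _ e h => by
      haveI := Fintype.ofEquiv β e.symm
      exact hasGen_equiv e h)
    hasGen_empty (fun α _ h => hasGen_option h) κ

variable {J : Type} [Fintype J] {E : J → Cv F} {d : J → Type} [∀ j, Fintype (d j)]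

/-- **Generic points of products.** -/
theorem exists_generic [IsAlgClosed A] (E : J → Cv F) (d : J → Type) [∀ j, Fintype (d j)] :
    ∃ (K : Type) (_ : Field K) (_ : Algebra A K) (_ : Algebra F K) (_ : IsScalarTower F A K)
      (Q : ∀ k : Σ j, d j, (pw E d k).Pt K), (∀ k, Q k ≠ 0) ∧
      Fintype.card (Σ j, d j) ≤ td A (fun k => (pw E d k).uu (Q k)) ∧
      ∀ (Q' : ∀ k : Σ j, d j, (pw E d k).Pt A) (n : J → Type) [∀ j, Fintype (n j)]
        (m : ∀ j, n j → d j → ℤ) (t : ∀ x : Σ j, n j, (pw E n x).Pt A),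
        (∀ x, lin A m t Q' x ≠ 0) →
        (∀ x, lin K m t Q x ≠ 0) ∧ Sp A (cK (lin K m t Q)) (cK (lin A m t Q')) := by
  classical
  obtain ⟨R, h1, h2, h3⟩ := hasGen (F := F) (A := A) (Σ j, d j) (pw E d)
  obtain ⟨Q, hQ, hQR⟩ := exists_pts (C := pw E d) (k₀ := A) R.pt
    (fun i => (R.aeval_pt_eq_zero _).2 (h1 i))
  refine ⟨R.fld, inferInstance, inferInstance, inferInstance, inferInstance, Q, hQ, ?_, ?_⟩
  · have h4 := td_uu (A := A) Q
    rw [hQR] at h4
    exact h3.trans h4
  · intro Q' n _ m t hx
    -- the translation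
    let r : ∀ k : Σ j, d j, (pw E d k).Pt A := fun k => if Q' k = 0 then (pw E d k).T A else 0
    let Q'' : ∀ k : Σ j, d j, (pw E d k).Pt A := fun k => Q' k + r k
    have hQ'' : ∀ k, Q'' k ≠ 0 := by
      intro k
      by_cases hk : Q' k = 0
      · have e1 : Q'' k = (pw E d k).T A := by
          change Q' k + (if Q' k = 0 then (pw E d k).T A else 0) = _
          rw [if_pos hk, hk, zero_add]
        rw [e1]
        exact (pw E d k).T_ne A
      · have e1 : Q'' k = Q' k := by
          change Q' k + (if Q' k = 0 then (pw E d k).T A else 0) = _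
          rw [if_neg hk, add_zero]
        rw [e1]
        exact hk
    let S : ∀ k : Σ j, d j, (pw E d k).Pt R.fld := fun k => Q k - (pw E d k).bc A R.fld (r k)
    have hS : ∀ k, S k ≠ 0 := by
      intro k h0
      have h4 : Q k = (pw E d k).bc A R.fld (r k) := sub_eq_zero.1 h0
      by_cases hk : Q' k = 0
      · have e1 : r k = (pw E d k).T A := if_pos hk
        rw [e1] at h4
        have h5 : (pw E d k).uu (Q k) = 0 := by
          rw [h4, Cv.bc, (pw E d k).uu_mp, (pw E d k).uu_T, map_zero]
        have h6 : Sp A R.pt (cK (fun k => (pw E d k).T₁ A)) := h2 A _ fun i => aeval_cv_cK _ i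
        have h7 : R.pt (Sum.inl k) = 0 := by
          rw [← hQR]
          exact h5
        have h8 : (pw E d k).uu ((pw E d k).T₁ A) = 0 := h6.zero h7
        rw [(pw E d k).uu_T₁] at h8
        exact (pw E d k).A_ne A h8
      · have e1 : r k = 0 := if_neg hk
        rw [e1, map_zero] at h4
        exact hQ k h4
    let t' : ∀ x : Σ j, n j, (pw E n x).Pt A := fun x => t x - ∑ l : d x.1, m x.1 x.2 l •
      (r ⟨x.1, l⟩ : (E x.1).Pt A)
    have e1 : ∀ x, lin R.fld m t S x = lin R.fld m t' Q x := by
      intro x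
      have e2 : (E x.1).bc A R.fld (t' x) = (E x.1).bc A R.fld (t x) -
          ∑ l : d x.1, m x.1 x.2 l • (E x.1).bc A R.fld (r ⟨x.1, l⟩) := by
        rw [map_sub, map_sum]
        simp only [map_zsmul]
      rw [lin, lin, e2]
      have e3 : ∀ l : d x.1, m x.1 x.2 l • (S ⟨x.1, l⟩ : (E x.1).Pt R.fld) =
          m x.1 x.2 l • (Q ⟨x.1, l⟩ : (E x.1).Pt R.fld) -
            m x.1 x.2 l • (E x.1).bc A R.fld (r ⟨x.1, l⟩) := fun l => smul_sub _ _ _
      rw [Finset.sum_congr rfl fun l _ => e3 l, Finset.sum_sub_distrib]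
      abel
    have e4 : ∀ x, lin A m t' Q'' x = lin A m t Q' x := by
      intro x
      rw [lin, lin, bc_self, bc_self]
      have e3 : ∀ l : d x.1, m x.1 x.2 l • (Q'' ⟨x.1, l⟩ : (E x.1).Pt A) =
          m x.1 x.2 l • (Q' ⟨x.1, l⟩ : (E x.1).Pt A) +
            m x.1 x.2 l • (r ⟨x.1, l⟩ : (E x.1).Pt A) := fun l => smul_add _ _ _
      rw [Finset.sum_congr rfl fun l _ => e3 l, Finset.sum_add_distrib]
      change _ + (t x - _) = _
      abel
    have s1 : Sp A (cK Q) (cK Q'') := by
      rw [hQR]
      exact h2 A _ fun i => aeval_cv_cK _ i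
    obtain ⟨g1, g2⟩ := lin_sp m t' Q Q'' hQ hQ'' s1 (fun x => by rw [e4]; exact hx x)
    have s2 : Sp A (cK Q) (cK S) := by
      rw [hQR]
      exact h2 R.fld _ fun i => aeval_cv_cK _ i
    obtain ⟨g3, g4⟩ := lin_sp m t Q S hQ hS s2 (fun x => by rw [e1]; exact g1 x)
    refine ⟨g3, ?_⟩
    have e5 : lin R.fld m t S = lin R.fld m t' Q := funext e1
    have e6 : lin A m t' Q'' = lin A m t Q' := funext e4
    rw [e5] at g4
    rw [e6] at g2
    exact g4.trans g2

end

end Pool.Agent.N113.FG
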