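import Pool.Agent.N113.FG.Pink

/-!
# Linear algebra for the relations of the projections of a point
-/

set_option autoImplicit false
set_option linter.unusedSectionVars false
set_option linter.style.haveILetI false

namespace Pool.Agent.N113.FG

open Pool.Agent.R948 (mon rel mem_rel_int exists_mul_int)

section

variable {ι : Type} [Fintype ι]

/-- coordinates which form a basis modulo a subspace -/
theorem basis_coords (V : Submodule ℚ (ι → ℚ)) : ∃ (κ : Type) (_ : Fintype κ) (a : κ → ι),
    Function.Injective a ∧ (∀ w : κ → ℚ, Function.extend a w 0 ∈ V → w = 0) ∧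
    Fintype.card κ + Module.finrank ℚ V = Fintype.card ι := by
  classical
  obtain ⟨κ, a, ha, hsp, hli⟩ := exists_linearIndependent' ℚ
    (fun i : ι => V.mkQ (Pi.single i (1 : ℚ)))
  letI : Fintype κ := Fintype.ofInjective a ha
  refine ⟨κ, inferInstance, a, ha, fun w hw => ?_, ?_⟩
  · have h1 : Function.extend a w 0 = ∑ k, w k • (Pi.single (a k) (1 : ℚ) : ι → ℚ) := by
      funext i
      rw [Finset.sum_apply]
      by_cases hi : ∃ k, a k = i
      · obtain ⟨k, rfl⟩ := hi
        rw [ha.extend_apply, Finset.sum_eq_single k]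
        · simp
        · intro l _ hl
          rw [Pi.smul_apply, Pi.single_eq_of_ne (fun h => hl (ha h).symm), smul_zero]
        · intro h
          exact absurd (Finset.mem_univ k) h
      · rw [Function.extend_apply' _ _ _ hi, Finset.sum_eq_zero]
        · rfl
        · intro l _
          rw [Pi.smul_apply, Pi.single_eq_of_ne (fun h => hi ⟨l, h.symm⟩), smul_zero]
    have h2 : ∑ k, w k • ((fun i : ι => V.mkQ (Pi.single i (1 : ℚ))) ∘ a) k = 0 := by
      have h3 : V.mkQ (Function.extend a w 0) = 0 := by
        rw [Submodule.mkQ_apply, Submodule.Quotient.mk_eq_zero]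
        exact hw
      rw [h1, map_sum] at h3
      simp only [map_smul] at h3
      exact h3
    funext k
    exact Fintype.linearIndependent_iff.1 hli w h2 k
  · have h1 : Submodule.span ℚ (Set.range (fun i : ι => V.mkQ (Pi.single i (1 : ℚ)))) = ⊤ := by
      have h2 : Set.range (fun i : ι => V.mkQ (Pi.single i (1 : ℚ))) =
          V.mkQ '' Set.range (fun i : ι => (Pi.single i (1 : ℚ) : ι → ℚ)) := by
        rw [← Set.range_comp]
        rfl
      have h3 : Submodule.span ℚ (Set.range (fun i : ι => (Pi.single i (1 : ℚ) : ι → ℚ))) = ⊤ := by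
        have h4 := (Pi.basisFun ℚ ι).span_eq
        have h5 : (⇑(Pi.basisFun ℚ ι)) = fun i : ι => (Pi.single i (1 : ℚ) : ι → ℚ) := by
          funext i
          rw [Pi.basisFun_apply]
        rw [h5] at h4
        exact h4
      rw [h2, ← Submodule.map_span, h3, Submodule.map_top, Submodule.range_mkQ]
    have h2 := finrank_span_eq_card hli
    rw [hsp, h1, finrank_top] at h2
    rw [← h2, Submodule.finrank_quotient_add_finrank, Module.finrank_fintype_fun_eq_card]

variable {κ : Type} [Fintype κ]

/-- the dimension of the vectors supported on some of the coordinates -/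
theorem finrank_comap (V : Submodule ℚ (ι → ℚ)) (a : κ → ι)
    (V' : Submodule ℚ (κ → ℚ)) (h : ∀ w : κ → ℚ, Function.extend a w 0 ∈ V → w ∈ V') :
    Fintype.card κ + Module.finrank ℚ V ≤ Module.finrank ℚ V' + Fintype.card ι := by
  let f : (κ → ℚ) →ₗ[ℚ] (ι → ℚ) := Function.ExtendByZero.linearMap ℚ a
  have hf : ∀ w, f w = Function.extend a w 0 := fun w => rfl
  let φ := V.mkQ ∘ₗ f
  have h1 := LinearMap.finrank_range_add_finrank_ker φ
  have h2 : Module.finrank ℚ (LinearMap.range φ) ≤ Module.finrank ℚ ((ι → ℚ) ⧸ V) :=
    Submodule.finrank_le _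
  have h3 := Submodule.finrank_quotient_add_finrank V
  have h4 : Module.finrank ℚ (LinearMap.ker φ) ≤ Module.finrank ℚ V' := by
    refine Submodule.finrank_mono fun w hw => h w ?_
    rw [LinearMap.mem_ker] at hw
    rw [← hf]
    have h5 : V.mkQ (f w) = 0 := hw
    rw [Submodule.mkQ_apply, Submodule.Quotient.mk_eq_zero] at h5
    exact h5
  rw [Module.finrank_fintype_fun_eq_card] at h1 h3
  omega

variable {G : Type} [CommGroup G]

theorem mon_extend (z : ι → G) (a : κ → ι) (ha : Function.Injective a) (b : κ → ℤ) :
    mon z (Function.extend a b 0) = mon (fun k => z (a k)) b := by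
  classical
  rw [mon, mon, ← Finset.prod_subset (Finset.subset_univ (Finset.univ.image a)),
    Finset.prod_image fun x _ y _ h => ha h]
  · refine Finset.prod_congr rfl fun k _ => ?_
    rw [ha.extend_apply]
  · intro i _ hi
    have h1 : ¬ ∃ k, a k = i := fun ⟨k, hk⟩ =>
      hi (Finset.mem_image.2 ⟨k, Finset.mem_univ _, hk⟩)
    rw [Function.extend_apply' _ _ _ h1]
    exact zpow_zero _

theorem extend_rel (z : ι → G) (a : κ → ι) (ha : Function.Injective a) (w : κ → ℚ)
    (h : Function.extend a w 0 ∈ rel z) : w ∈ rel (fun k => z (a k)) := by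
  obtain ⟨N, hN, b, hb, h1⟩ := h
  refine ⟨N, hN, fun k => b (a k), fun k => ?_, ?_⟩
  · rw [hb, ha.extend_apply]
  · have h2 : b = Function.extend a (fun k => b (a k)) 0 := by
      funext i
      by_cases hi : ∃ k, a k = i
      · obtain ⟨k, rfl⟩ := hi
        rw [ha.extend_apply]
      · rw [Function.extend_apply' _ _ _ hi]
        have h3 := hb i
        rw [Function.extend_apply' _ _ _ hi, Pi.zero_apply, mul_zero] at h3
        exact_mod_cast h3
    rw [← mon_extend z a ha, ← h2]
    exact h1

theorem rel_extend (z : ι → G) (a : κ → ι) (ha : Function.Injective a) (b : κ → ℤ)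
    (h : mon (fun k => z (a k)) b = 1) :
    Function.extend a (fun k => (b k : ℚ)) 0 ∈ rel z := by
  refine ⟨1, one_pos, Function.extend a b 0, fun i => ?_, ?_⟩
  · rw [Nat.cast_one, one_mul]
    by_cases hi : ∃ k, a k = i
    · obtain ⟨k, rfl⟩ := hi
      rw [ha.extend_apply, ha.extend_apply]
    · rw [Function.extend_apply' _ _ _ hi, Function.extend_apply' _ _ _ hi]
      simp
  · rw [mon_extend z a ha]
    exact h

/-- the lattice of relations -/
theorem exists_lattice (z : ι → G) : ∃ L : Submodule ℤ (ι → ℤ), (∀ m ∈ L, mon z m = 1) ∧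
    Module.finrank ℚ (rel z) ≤ Module.finrank ℤ L := by
  classical
  let L : Submodule ℤ (ι → ℤ) :=
    { carrier := {m | mon z m = 1}
      zero_mem' := R948.mon_zero z
      add_mem' := fun {a b} ha hb => by
        change mon z (a + b) = 1
        rw [R948.mon_add]
        have h1 : mon z a = 1 := ha
        have h2 : mon z b = 1 := hb
        rw [h1, h2, one_mul]
      smul_mem' := fun c m hm => by
        change mon z (c • m) = 1
        have h1 : mon z m = 1 := hm
        rw [R948.mon_smul, h1, one_zpow] }
  refine ⟨L, fun m hm => hm, ?_⟩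
  let b := Module.finBasis ℚ (rel z)
  choose N hN c hc hm using fun j => (b j).2
  let cast : (ι → ℤ) →ₗ[ℤ] (ι → ℚ) :=
    { toFun := fun v i => (v i : ℚ)
      map_add' := fun v w => by funext i; simp
      map_smul' := fun c v => by funext i; simp }
  have h1 : LinearIndependent ℚ (fun j => ((b j : rel z) : ι → ℚ)) :=
    b.linearIndependent.map' (rel z).subtype (Submodule.ker_subtype _)
  have h2 : LinearIndependent ℚ (fun j => cast (c j)) := by
    have h3 := h1.units_smul (fun j => Units.mk0 (N j : ℚ) (by exact_mod_cast (hN j).ne'))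
    have h4 : (fun j => cast (c j)) =
        ((fun j => Units.mk0 (N j : ℚ) (by exact_mod_cast (hN j).ne')) •
          fun j => ((b j : rel z) : ι → ℚ)) := by
      funext j i
      exact hc j i
    rw [h4]
    exact h3
  have h3 : LinearIndependent ℤ (fun j => cast (c j)) :=
    (LinearIndependent.iff_fractionRing ℤ ℚ).2 h2
  have h4 : LinearIndependent ℤ c := LinearIndependent.of_comp cast h3
  let v : Fin (Module.finrank ℚ (rel z)) → L := fun j => ⟨c j, hm j⟩
  have h5 : LinearIndependent ℤ v := LinearIndependent.of_comp L.subtype h4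
  have h6 := h5.fintype_card_le_finrank
  rw [Fintype.card_fin] at h6
  exact h6

end

end Pool.Agent.N113.FG
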