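import Pool.Agent.N113.FG.Slice

/-!
# Points on algebraic subgroups of small dimension
-/

set_option autoImplicit false
set_option linter.unusedSectionVars false
set_option linter.style.haveILetI false

namespace Pool.Agent.N113.FG

open MvPolynomial
open Pool.Agent.N101.ZP
open Pool.Agent.N113.EC
open Pool.Agent.R948 (td tdP mon rel mem_rel_int exists_mul_int)

/-- ranks of lattices of relations -/
theorem finrank_int_le {ι : Type} [Fintype ι] (Λ : Submodule ℤ (ι → ℤ)) (W : Submodule ℚ (ι → ℚ))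
    (h : ∀ a ∈ Λ, (fun i => (a i : ℚ)) ∈ W) : Module.finrank ℤ Λ ≤ Module.finrank ℚ W := by
  classical
  let b := Module.finBasis ℤ Λ
  let cast : (ι → ℤ) →ₗ[ℤ] (ι → ℚ) :=
    { toFun := fun v i => (v i : ℚ)
      map_add' := fun v w => by funext i; simp
      map_smul' := fun c v => by funext i; simp }
  have hinj : Function.Injective cast := fun v w hvw => by
    funext i
    have h0 : (v i : ℚ) = (w i : ℚ) := congrFun hvw i
    exact_mod_cast h0
  have h1 : LinearIndependent ℤ (fun j => cast (b j : ι → ℤ)) := by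
    have h2 : LinearIndependent ℤ (fun j => (b j : ι → ℤ)) :=
      b.linearIndependent.map' Λ.subtype (Submodule.ker_subtype Λ)
    exact h2.map' cast (LinearMap.ker_eq_bot.2 hinj)
  have h2 : LinearIndependent ℚ (fun j => cast (b j : ι → ℤ)) :=
    (LinearIndependent.iff_fractionRing ℤ ℚ).1 h1
  let v : Fin (Module.finrank ℤ Λ) → W := fun j => ⟨_, h _ (b j).2⟩
  have h4 : LinearIndependent ℚ v := by
    refine LinearIndependent.of_comp W.subtype ?_
    exact h2
  have h5 := h4.fintype_card_le_finrank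
  rw [Fintype.card_fin] at h5
  exact h5

section

variable {F : Type} [Field F] [CharZero F] [IsAlgClosed F] [Algebra F ℂ] {J : Type} [Fintype J]
  {E : J → Cv F} {n : J → Type} [∀ j, Fintype (n j)]

/-- The points on the algebraic subgroups of codimension larger than `d`. -/
def Deep (E : J → Cv F) (n : J → Type) [∀ j, Fintype (n j)] (d : ℕ) : Set (Pts (pw E n)) :=
  {P | ∃ L : ∀ j, Submodule ℤ (n j → ℤ), d < ∑ j, Module.finrank ℤ (L j) ∧
    ∀ j, ∀ m ∈ L j, (∑ i, m i • P ⟨j, i⟩ : (E j).Pt ℂ) = 0}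

/-- `X` is contained in a proper algebraic subgroup. -/
def InSub (X : Set (Pts (pw E n))) : Prop :=
  ∃ j, ∃ m : n j → ℤ, m ≠ 0 ∧ ∀ P ∈ X, (∑ i, m i • P ⟨j, i⟩ : (E j).Pt ℂ) = 0

/-- the rank of a point -/
theorem rkz_le_of_int (x : Pts (pw E n)) (hx : Aff x) (L : ∀ j, Submodule ℤ (n j → ℤ))
    (h : ∀ j, ∀ m ∈ L j, (∑ i, (2 * m i) • x ⟨j, i⟩ : (E j).Pt ℂ) = 0) :
    rkz E (co x) + ∑ j, Module.finrank ℤ (L j) ≤ Fintype.card (Σ j, n j) := by
  have h1 := rkz_card (K := ℂ) x hx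
  have h2 : ∑ j, Module.finrank ℤ (L j) ≤ ∑ j, Module.finrank ℚ (rel (mx x j)) := by
    refine Finset.sum_le_sum fun j _ => finrank_int_le _ _ fun a ha => ?_
    refine (mem_rel_int _ _).2 ⟨2, two_pos, ?_⟩
    have h3 := h j a ha
    have h4 : mon (mx x j) ((2 : ℤ) • a) = 1 := by
      rw [mon_mx]
      have h5 : (∑ i, ((2 : ℤ) • a) i • (x ⟨j, i⟩ : (E j).Pt ℂ) : (E j).Pt ℂ) = 0 := h3
      rw [h5]
      rfl
    rw [R948.mon_smul] at h4
    exact_mod_cast h4
  rw [co_eq]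
  omega

theorem defect_point (x : Pts (pw E n)) (hx : Aff x) :
    defect ({x} : Set (Pts (pw E n))) ≤ (rkz E (co x) : ℤ) := by
  have hM : Meets ({x} : Set (Pts (pw E n))) := ⟨x, rfl, hx⟩
  rw [defect_eq (sub_one x) hM]
  have q1 : Sp ℂ (toP (sub_one x) hM).pt (co x) := fun f hf => by
    rw [PP.aeval_pt_eq_zero] at hf
    exact mem_v0.1 hf x rfl hx
  have q2 : Sp ℂ (co x) (toP (sub_one x) hM).pt := fun f hf => by
    rw [PP.aeval_pt_eq_zero]
    refine mem_v0.2 fun q hq _ => ?_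
    rw [Set.mem_singleton_iff.1 hq]
    exact hf
  have s1 := sp_restrict (F := F) q1
  have s2 := sp_restrict (F := F) q2
  have h1 : rkz E (toP (sub_one x) hM).pt = rkz E (co x) :=
    (RTh E).rk_eq _ _ _ (s1.comp Sum.inl) (s2.comp Sum.inl) (okr E _ _)
  rw [h1]
  omega

theorem defect_deep {d : ℕ} (P : Pts (pw E n)) (hP : P ∈ Deep E n d) :
    defect ({P} : Set (Pts (pw E n))) + d < Fintype.card (Σ j, n j) := by
  obtain ⟨L, hL, h⟩ := hP
  obtain ⟨δ, hδ⟩ := exists_aff P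
  have h1 : {q | tr δ q ∈ ({P} : Set (Pts (pw E n)))} = {tr δ P} := by
    ext q
    constructor
    · intro hq
      have h2 : tr δ q = P := hq
      rw [Set.mem_singleton_iff, ← h2, tr_self]
    · intro hq
      rw [Set.mem_singleton_iff.1 hq]
      change tr δ (tr δ P) = P
      exact tr_self δ P
  have h2 := defect_tr δ ({P} : Set (Pts (pw E n)))
  rw [h1] at h2
  have h3 := defect_point (tr δ P) hδ
  have h4 := rkz_le_of_int (tr δ P) hδ L ?_
  · rw [h2] at h3
    omega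
  · intro j m hm
    have h5 : ∀ i, ((2 * m i) • (tr δ P ⟨j, i⟩ : (E j).Pt ℂ) : (E j).Pt ℂ) =
        (2 : ℤ) • (m i • (P ⟨j, i⟩ : (E j).Pt ℂ)) := by
      intro i
      have h6 : ((2 : ℤ) • (if δ ⟨j, i⟩ = true then (E j).T ℂ else 0) : (E j).Pt ℂ) = 0 := by
        split_ifs
        · rw [two_smul, (E j).T_add_T]
        · exact smul_zero _
      have h7 : (tr δ P ⟨j, i⟩ : (E j).Pt ℂ) =
        P ⟨j, i⟩ + (if δ ⟨j, i⟩ = true then (E j).T ℂ else 0) := rfl
      rw [h7, mul_comm, mul_smul, smul_add, h6, add_zero, smul_comm]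
    rw [Finset.sum_congr rfl fun i _ => h5 i, ← Finset.smul_sum]
    have h8 := h j m hm
    rw [h8, smul_zero]

theorem vdim_special {X Z : Set (Pts (pw E n))} (hX : Subvariety X) (hns : ¬ InSub X)
    (hZ : Special Z) (hXZ : X ⊆ Z) : vdim Z = Fintype.card (Σ j, n j) := by
  obtain ⟨W, t, ⟨m, hm, ht⟩, rfl⟩ := hZ
  have hW : ∀ j, W j = ⊥ := by
    intro j
    by_contra hne
    obtain ⟨w, hw, hw0⟩ := (Submodule.ne_bot_iff _).1 hne
    obtain ⟨N, hN, a, ha⟩ := exists_mul_int w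
    apply hns
    refine ⟨j, (m : ℤ) • a, ?_, fun P hP => ?_⟩
    · intro h1
      apply hw0
      funext i
      have h2 : (m : ℤ) * a i = 0 := congrFun h1 i
      have h3 : a i = 0 := by
        rcases mul_eq_zero.1 h2 with h4 | h4
        · exact absurd (by exact_mod_cast h4) hm
        · exact h4
      have h5 := ha i
      rw [h3, Int.cast_zero] at h5
      have h6 : (N : ℚ) ≠ 0 := by exact_mod_cast hN.ne'
      exact (mul_eq_zero.1 h5.symm).resolve_left h6
    · have h1 : (fun i => (a i : ℚ)) ∈ W j := by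
        have h2 : (fun i => (a i : ℚ)) = (N : ℚ) • w := by
          funext i
          rw [ha, Pi.smul_apply, smul_eq_mul]
        rw [h2]
        exact (W j).smul_mem _ hw
      have h2 := congrArg (fun Q => (m : ℤ) • Q) (hXZ hP j a h1)
      rw [smul_zero, Finset.smul_sum] at h2
      rw [← h2]
      refine Finset.sum_congr rfl fun i _ => ?_
      have h3 : ((m : ℤ) • (t ⟨j, i⟩ : (E j).Pt ℂ) : (E j).Pt ℂ) = 0 := by
        rw [natCast_zsmul]
        exact ht ⟨j, i⟩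
      rw [Pi.smul_apply, smul_eq_mul, smul_sub, smul_sub, smul_comm (m : ℤ) (a i) (t ⟨j, i⟩), h3,
        smul_zero, sub_zero, mul_smul]
  obtain ⟨x, hx⟩ := hX.nonempty
  have h1 := (special_main W t m hm ht).2.1 ⟨x, hXZ hx⟩
  have h2 : ∑ j, Module.finrank ℚ (W j) = 0 := by
    refine Finset.sum_eq_zero fun j _ => ?_
    rw [hW j]
    exact finrank_bot ℚ _
  rw [h2, add_zero] at h1
  exact h1

theorem special_univ : Special (Set.univ : Set (Pts (pw E n))) := by
  refine ⟨fun _ => ⊥, fun _ => 0, ⟨1, one_ne_zero, fun x => nsmul_zero 1⟩, ?_⟩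
  symm
  rw [Set.eq_univ_iff_forall]
  intro P j m hm
  rw [Submodule.mem_bot] at hm
  refine Finset.sum_eq_zero fun i _ => ?_
  have h1 : (m i : ℚ) = 0 := congrFun hm i
  rw [Int.cast_eq_zero.1 h1]
  exact zero_zsmul _

theorem defect_big {X : Set (Pts (pw E n))} (hX : Subvariety X) (hns : ¬ InSub X) :
    defect X + vdim X = Fintype.card (Σ j, n j) := by
  obtain ⟨Z, h1, h2, h3⟩ := Nat.sInf_mem
    (s := {d : ℕ | ∃ Z, Special Z ∧ X ⊆ Z ∧ vdim Z = d})
    ⟨_, Set.univ, special_univ, Set.subset_univ _, rfl⟩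
  rw [defect, ← h3, vdim_special hX hns h1 h2]
  omega

theorem exists_optimal {B X : Set (Pts (pw E n))} (hB : Subvariety B) (h : B ⊆ X) :
    ∃ A, Optimal A X ∧ B ⊆ A ∧ defect A ≤ defect B := by
  let s : Set ℕ := {N | ∃ A : Set (Pts (pw E n)), Subvariety A ∧ B ⊆ A ∧ A ⊆ X ∧
    defect A ≤ defect B ∧ vdim A = N}
  have hs1 : s.Nonempty := ⟨_, B, hB, subset_rfl, h, le_rfl, rfl⟩
  have hle : ∀ A : Set (Pts (pw E n)), Subvariety A →
      vdim A ≤ Fintype.card ((Σ j, n j) ⊕ (Σ j, n j)) := by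
    intro A hA
    obtain ⟨p, hp⟩ := hA.nonempty
    obtain ⟨δ, hδ⟩ := exists_aff p
    rw [← vdim_tr δ A, vdim_eq (sub_tr hA δ) (meets_tr.2 ⟨p, hp, hδ⟩), PP.td_pt]
    exact R948.tdP_le_card _
  have hs2 : BddAbove s := ⟨Fintype.card ((Σ j, n j) ⊕ (Σ j, n j)), by
    rintro _ ⟨A, hA, -, -, -, rfl⟩
    exact hle A hA⟩
  obtain ⟨A, hA, h1, h2, h3, h4⟩ := Nat.sSup_mem hs1 hs2
  refine ⟨A, ⟨hA, h2, fun D hD hAD hDX hd => ?_⟩, h1, h3⟩
  have h5 : vdim D ≤ sSup s := le_csSup hs2 ⟨D, hD, h1.trans hAD.1, hDX, hd.trans h3, rfl⟩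
  have h6 : vdim A < vdim D := by
    obtain ⟨p, hp⟩ := hA.nonempty
    obtain ⟨δ, hδ⟩ := exists_aff p
    rw [← vdim_tr δ A, ← vdim_tr δ D]
    refine vdim_lt0 (sub_tr hA δ) (sub_tr hD δ) ?_ (meets_tr.2 ⟨p, hp, hδ⟩)
    exact tr_ssubset hAD δ
  omega

/-- **Pink's form.** -/
theorem pink {X : Set (Pts (pw E n))} (hX : Subvariety X) (h : {A | Optimal A X}.Finite)
    (hns : ¬ InSub X) : ¬ X ⊆ closure (X ∩ Deep E n (vdim X)) := by
  classical
  intro hcl
  let s : Finset (Set (Pts (pw E n))) := h.toFinset.erase X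
  have h1 : X ∩ Deep E n (vdim X) ⊆ ⋃ A ∈ s, A := by
    rintro P ⟨hP, hP2⟩
    obtain ⟨A, hA, hPA, hd⟩ := exists_optimal (sub_one P) (Set.singleton_subset_iff.2 hP)
    refine Set.mem_iUnion₂.2 ⟨A, Finset.mem_erase.2 ⟨fun h2 => ?_, h.mem_toFinset.2 hA⟩, hPA rfl⟩
    have h3 := defect_deep P hP2
    have h4 := defect_big hX hns
    rw [h2] at hd
    omega
  have hcl2 : ∀ s : Finset (Set (Pts (pw E n))), (∀ A ∈ s, ZClosed A) → ZClosed (⋃ A ∈ s, A) := by
    intro s
    induction s using Finset.induction_on with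
    | empty =>
      intro _ ε
      refine ⟨{1}, fun p hp => ⟨fun h => by simp at h, fun h => ?_⟩⟩
      have h1 := h 1 rfl
      rw [map_one] at h1
      exact absurd h1 one_ne_zero
    | insert a s ha ih =>
      intro h1
      rw [Finset.set_biUnion_insert]
      exact closed_union (h1 a (Finset.mem_insert_self _ _))
        (ih fun b hb => h1 b (Finset.mem_insert_of_mem hb))
  have h2 : ∀ A ∈ s, ZClosed A := fun A hA =>
    (h.mem_toFinset.1 (Finset.mem_of_mem_erase hA)).1.closed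
  obtain ⟨A, hA, h3⟩ := sub_of_finite hX s (fun A => A) h2
    (hcl.trans (closure_sub (hcl2 s h2) h1))
  obtain ⟨h4, h5⟩ := Finset.mem_erase.1 hA
  exact h4 (Set.Subset.antisymm (h.mem_toFinset.1 h5).2.1 h3)

end

end Pool.Agent.N113.FG
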