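import Pool.Agent.N113.FG.Dm

/-!
# Specialisations of linear combinations of points

(The statements on relations are adapted from the file `Pool.Agent.N101.ZE.Erl` of helper101.)
-/

set_option autoImplicit false
set_option linter.unusedSectionVars false
set_option linter.style.haveILetI false

namespace Pool.Agent.N113.FG

open MvPolynomial
open Pool.Agent.N101.ZP
open Pool.Agent.N113.EC
open Pool.Agent.R948 (mon rel dr td)

section

variable {F : Type} [Field F] [CharZero F]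
variable {A K L : Type} [Field A] [Field K] [Field L] [Algebra F A] [Algebra A K] [Algebra F K]
  [IsScalarTower F A K] [Algebra A L] [Algebra F L] [IsScalarTower F A L]

theorem bc_self (E : Cv F) (c : E.Pt A) : E.bc A A c = c := by
  by_cases hc : c = 0
  · rw [hc, map_zero]
  · have h1 := E.mp_spec (IsScalarTower.toAlgHom F A A) hc
    exact E.ext h1.1 hc h1.2.1 h1.2.2

theorem mp_bc (E : Cv F) (φ : K →ₐ[A] L) (c : E.Pt A) :
    E.mp (φ.restrictScalars F) (E.bc A K c) = E.bc A L c := by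
  by_cases hc : c = 0
  · rw [hc, map_zero, map_zero, map_zero]
  · have h1 := E.mp_spec (IsScalarTower.toAlgHom F A K) hc
    have h2 := E.mp_spec (IsScalarTower.toAlgHom F A L) hc
    have h3 := E.mp_spec (φ.restrictScalars F) h1.1
    refine E.ext h3.1 h2.1 ?_ ?_
    · refine h3.2.1.trans (Eq.trans ?_ h2.2.1.symm)
      rw [h1.2.1]
      exact φ.commutes _
    · refine h3.2.2.trans (Eq.trans ?_ h2.2.2.symm)
      rw [h1.2.2]
      exact φ.commutes _

variable {J : Type} [Fintype J] {E : J → Cv F} {n d : J → Type} [∀ j, Fintype (n j)]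
  [∀ j, Fintype (d j)]

/-- linear combinations of points -/
noncomputable def lin (K : Type) [Field K] [Algebra F K] [Algebra A K] [IsScalarTower F A K]
    (m : ∀ j, n j → d j → ℤ) (t : ∀ x : Σ j, n j, (pw E n x).Pt A)
    (Q : ∀ k : Σ j, d j, (pw E d k).Pt K) : ∀ x : Σ j, n j, (pw E n x).Pt K :=
  fun x => ∑ l : d x.1, m x.1 x.2 l • (Q ⟨x.1, l⟩ : (E x.1).Pt K) + (E x.1).bc A K (t x)

/-- linear combinations depend only on the ideal of the coordinates -/
theorem lin_iso (m : ∀ j, n j → d j → ℤ) (t : ∀ x : Σ j, n j, (pw E n x).Pt A)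
    (Q : ∀ k : Σ j, d j, (pw E d k).Pt K) (Q' : ∀ k : Σ j, d j, (pw E d k).Pt L)
    (hQ : ∀ k, Q k ≠ 0) (hQ' : ∀ k, Q' k ≠ 0)
    (h : Sp A (cK Q) (cK Q')) (h' : Sp A (cK Q') (cK Q)) (hx : ∀ x, lin L m t Q' x ≠ 0) :
    (∀ x, lin K m t Q x ≠ 0) ∧ Sp A (cK (lin K m t Q)) (cK (lin L m t Q')) := by
  obtain ⟨P, hP⟩ : ∃ P : PP A ((Σ j, d j) ⊕ (Σ j, d j)), P = PP.ofPt A (cK Q) := ⟨_, rfl⟩
  have h1 : ∀ f, aeval (cK Q) f = 0 ↔ f ∈ P.I := by
    intro f
    rw [hP]
    exact Iff.rfl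
  have h2 : ∀ f, aeval (cK Q') f = 0 ↔ f ∈ P.I := by
    intro f
    rw [← h1]
    exact ⟨fun hf => h' f hf, fun hf => h f hf⟩
  obtain ⟨φ₁, hφ₁⟩ := exists_fldHom' P (cK Q) h1
  obtain ⟨φ₂, hφ₂⟩ := exists_fldHom' P (cK Q') h2
  have h3 : ∀ k, ∃ s : (pw E d k).Pt P.fld, (pw E d k).mp (φ₁.restrictScalars F) s = Q k := fun k =>
    (pw E d k).mem_range_mp (φ₁.restrictScalars F) (Q k) (P.pt (Sum.inl k)) (P.pt (Sum.inr k))
      (hφ₁ (Sum.inl k)).symm (hφ₁ (Sum.inr k)).symm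
  choose s hs using h3
  have hs0 : ∀ k, s k ≠ 0 := by
    intro k h0
    apply hQ k
    rw [← hs, h0, map_zero]
  have hu : ∀ k, (pw E d k).uu (s k) = P.pt (Sum.inl k) := by
    intro k
    apply φ₁.injective
    change φ₁ ((pw E d k).uu (s k)) = φ₁ (P.pt (Sum.inl k))
    rw [hφ₁]
    have h4 := ((pw E d k).mp_spec (φ₁.restrictScalars F) (hs0 k)).2.1
    rw [hs] at h4
    exact h4.symm
  have hy : ∀ k, (pw E d k).yy (s k) = P.pt (Sum.inr k) := by
    intro k
    apply φ₁.injective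
    change φ₁ ((pw E d k).yy (s k)) = φ₁ (P.pt (Sum.inr k))
    rw [hφ₁]
    have h4 := ((pw E d k).mp_spec (φ₁.restrictScalars F) (hs0 k)).2.2
    rw [hs] at h4
    exact h4.symm
  have hq' : ∀ k, (pw E d k).mp (φ₂.restrictScalars F) (s k) = Q' k := by
    intro k
    obtain ⟨h4, h5, h6⟩ := (pw E d k).mp_spec (φ₂.restrictScalars F) (hs0 k)
    refine (pw E d k).ext h4 (hQ' k) ?_ ?_
    · rw [h5, hu]
      exact hφ₂ (Sum.inl k)
    · rw [h6, hy]
      exact hφ₂ (Sum.inr k)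
  have e1 : ∀ x, (pw E n x).mp (φ₁.restrictScalars F) (lin P.fld m t s x) = lin K m t Q x := by
    intro x
    rw [lin, map_add, map_sum, mp_bc, lin]
    simp only [map_zsmul]
    congr 1
    refine Finset.sum_congr rfl fun l _ => ?_
    rw [← hs]
  have e2 : ∀ x, (pw E n x).mp (φ₂.restrictScalars F) (lin P.fld m t s x) = lin L m t Q' x := by
    intro x
    rw [lin, map_add, map_sum, mp_bc, lin]
    simp only [map_zsmul]
    congr 1
    refine Finset.sum_congr rfl fun l _ => ?_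
    rw [← hq']
  have hne : ∀ x, lin P.fld m t s x ≠ 0 := by
    intro x h0
    apply hx x
    rw [← e2, h0, map_zero]
  have c1 : cK (lin K m t Q) = fun a => φ₁ (cK (lin P.fld m t s) a) := by
    funext a
    rcases a with x | x
    · have := ((pw E n x).mp_spec (φ₁.restrictScalars F) (hne x)).2.1
      rw [e1] at this
      exact this
    · have := ((pw E n x).mp_spec (φ₁.restrictScalars F) (hne x)).2.2
      rw [e1] at this
      exact this
  have c2 : cK (lin L m t Q') = fun a => φ₂ (cK (lin P.fld m t s) a) := by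
    funext a
    rcases a with x | x
    · have := ((pw E n x).mp_spec (φ₂.restrictScalars F) (hne x)).2.1
      rw [e2] at this
      exact this
    · have := ((pw E n x).mp_spec (φ₂.restrictScalars F) (hne x)).2.2
      rw [e2] at this
      exact this
  refine ⟨fun x => ?_, fun f hf => ?_⟩
  · rw [← e1]
    exact ((pw E n x).mp_spec (φ₁.restrictScalars F) (hne x)).1
  · rw [c1] at hf
    rw [c2]
    have g1 := aeval_hom φ₁ (cK (lin P.fld m t s)) f
    have g2 := aeval_hom φ₂ (cK (lin P.fld m t s)) f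
    rw [g1] at hf
    rw [g2, (map_eq_zero_iff φ₁ φ₁.injective).1 hf, map_zero]

/-- reductions are specialisations -/
theorem sp_of_place {ι k : Type} [Field k] [Algebra F k] [Algebra A k] (π : Pl F K k)
    (hA : ∀ c : A, ∃ h : algebraMap A K c ∈ π.O, π.φ ⟨_, h⟩ = algebraMap A k c)
    (p : ι → K) (q : ι → k) (h : ∀ i, ∃ h : p i ∈ π.O, π.φ ⟨_, h⟩ = q i) : Sp A p q := by
  have key : ∀ f : MvPolynomial ι A, ∃ h : aeval p f ∈ π.O, π.φ ⟨_, h⟩ = aeval q f := by
    intro f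
    induction f using MvPolynomial.induction_on with
    | C c =>
      obtain ⟨h1, h2⟩ := hA c
      refine ⟨by rw [aeval_C]; exact h1, ?_⟩
      refine Eq.trans ?_ (h2.trans (aeval_C q c).symm)
      congr 1
      exact Subtype.ext (aeval_C _ _)
    | add f g hf hg =>
      obtain ⟨h1, h2⟩ := hf
      obtain ⟨h3, h4⟩ := hg
      refine ⟨by rw [map_add]; exact add_mem h1 h3, ?_⟩
      have e1 : aeval q (f + g) = π.φ (⟨_, h1⟩ + ⟨_, h3⟩) := by rw [map_add, map_add, h2, h4]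
      refine Eq.trans ?_ e1.symm
      congr 1
      exact Subtype.ext (map_add _ _ _)
    | mul_X f i hf =>
      obtain ⟨h1, h2⟩ := hf
      obtain ⟨h3, h4⟩ := h i
      refine ⟨by rw [map_mul, aeval_X]; exact mul_mem h1 h3, ?_⟩
      have e1 : aeval q (f * X i) = π.φ (⟨_, h1⟩ * ⟨_, h3⟩) := by
        rw [map_mul, map_mul, h2, h4, aeval_X]
      refine Eq.trans ?_ e1.symm
      congr 1
      apply Subtype.ext
      change aeval p (f * X i) = aeval p f * p i
      rw [map_mul, aeval_X]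
  intro f hf
  obtain ⟨h1, h2⟩ := key f
  rw [← h2, show (⟨aeval p f, h1⟩ : π.O) = 0 from Subtype.ext hf, map_zero]

/-- **Linear combinations specialise.** -/
theorem lin_sp (m : ∀ j, n j → d j → ℤ) (t : ∀ x : Σ j, n j, (pw E n x).Pt A)
    (Q : ∀ k : Σ j, d j, (pw E d k).Pt K) (Q' : ∀ k : Σ j, d j, (pw E d k).Pt L)
    (hQ : ∀ k, Q k ≠ 0) (hQ' : ∀ k, Q' k ≠ 0)
    (h : Sp A (cK Q) (cK Q')) (hx : ∀ x, lin L m t Q' x ≠ 0) :
    (∀ x, lin K m t Q x ≠ 0) ∧ Sp A (cK (lin K m t Q)) (cK (lin L m t Q')) := by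
  obtain ⟨k, i1, i2, i3, i4, π, h1, r, h2, h3, h4⟩ := exists_place (F := F) _ _ h
  have h5 : ∀ i, (pw E d i).red π (Q i) ≠ 0 ∧ (pw E d i).uu ((pw E d i).red π (Q i)) = r (Sum.inl i) ∧
      (pw E d i).yy ((pw E d i).red π (Q i)) = r (Sum.inr i) := by
    intro i
    obtain ⟨g1, g2⟩ := h2 (Sum.inl i)
    obtain ⟨g3, g4⟩ := h2 (Sum.inr i)
    obtain ⟨g5, g6, g7, g8⟩ := (pw E d i).red_mem π (hQ i) g1
    exact ⟨g5, g6.trans g2, g8.trans g4⟩
  have h6 : cK (fun i => (pw E d i).red π (Q i)) = r := by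
    funext j
    rcases j with i | i
    · exact (h5 i).2.1
    · exact (h5 i).2.2
  obtain ⟨g1, g2⟩ := lin_iso m t (fun i => (pw E d i).red π (Q i)) Q' (fun i => (h5 i).1) hQ'
    (by rw [h6]; exact h3) (by rw [h6]; exact h4) hx
  have e1 : ∀ x, (pw E n x).red π (lin K m t Q x) = lin k m t (fun i => (pw E d i).red π (Q i)) x := by
    intro x
    rw [lin, map_add, map_sum, (E x.1).red_bc π h1, lin]
    simp only [map_zsmul]
  have hne : ∀ x, lin K m t Q x ≠ 0 := by
    intro x h0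
    apply g1 x
    rw [← e1, h0, map_zero]
  refine ⟨hne, Sp.trans ?_ g2⟩
  refine sp_of_place π h1 _ _ ?_
  have h7 : ∀ x, (lin K m t Q x) ≠ 0 ∧ (pw E n x).uu (lin K m t Q x) ∈ π.O := fun x =>
    (pw E n x).uu_mem_of_red π (by rw [e1]; exact g1 x)
  rintro (x | x)
  · obtain ⟨g5, g6, g7, g8⟩ := (pw E n x).red_mem π (h7 x).1 (h7 x).2
    rw [e1] at g6
    exact ⟨(h7 x).2, g6.symm⟩
  · obtain ⟨g5, g6, g7, g8⟩ := (pw E n x).red_mem π (h7 x).1 (h7 x).2
    rw [e1] at g8
    exact ⟨g7, g8.symm⟩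

end

end Pool.Agent.N113.FG
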