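import Pool.Agent.N113.FG.Gpt
import Pool.Agent.N101.ZE.Erl
import Pool.Agent.R948.Lat

/-!
# The generic points of the special subvarieties of products of elliptic curves

(Adapted from the files of helper101 on `E^n × G_m^k`, `Pool.Agent.N101.ZE.Erl` and `Esp`.)
-/

set_option autoImplicit false
set_option linter.unusedSectionVars false
set_option linter.style.haveILetI false

namespace Pool.Agent.N113.FG

open MvPolynomial
open Pool.Agent.N101.ZP
open Pool.Agent.N113.EC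
open Pool.Agent.R948 (mon rel dr td tdP td_le_of_alg td_le_of_ker exists_param)
open Pool.Agent.N101.ZE.Cv (lin_par lin_res lin_par')

/-! ### relations on one curve -/

section

variable {F : Type} [Field F] [CharZero F] (E : Cv F)
variable {A K L : Type} [Field A] [Field K] [Field L] [Algebra F A] [Algebra A K] [Algebra F K]
  [IsScalarTower F A K] [Algebra A L] [Algebra F L] [IsScalarTower F A L] {ι κ : Type} [Fintype ι]

/-- the coordinates of a family of points of one curve -/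
noncomputable def cc (p : ι → E.Pt K) : ι ⊕ ι → K :=
  Sum.elim (fun i => E.uu (p i)) (fun i => E.yy (p i))

/-- relations depend only on the ideal of the coordinates -/
theorem rel_iso (p : ι → E.Pt K) (q : ι → E.Pt L) (hp : ∀ i, p i ≠ 0) (hq : ∀ i, q i ≠ 0)
    (h : Sp A (cc E p) (cc E q)) (h' : Sp A (cc E q) (cc E p)) (a : ι → ℤ) (c : E.Pt A)
    (hr : ∑ i, a i • p i + E.bc A K c = 0) : ∑ i, a i • q i + E.bc A L c = 0 := by
  obtain ⟨P, hP⟩ : ∃ P : PP A (ι ⊕ ι), P = PP.ofPt A (cc E p) := ⟨_, rfl⟩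
  have h1 : ∀ f, aeval (cc E p) f = 0 ↔ f ∈ P.I := by
    intro f
    rw [hP]
    exact Iff.rfl
  have h2 : ∀ f, aeval (cc E q) f = 0 ↔ f ∈ P.I := by
    intro f
    rw [← h1]
    exact ⟨fun hf => h' f hf, fun hf => h f hf⟩
  obtain ⟨φ₁, hφ₁⟩ := exists_fldHom' P (cc E p) h1
  obtain ⟨φ₂, hφ₂⟩ := exists_fldHom' P (cc E q) h2
  have h3 : ∀ i, ∃ s : E.Pt P.fld, E.mp (φ₁.restrictScalars F) s = p i := fun i =>
    E.mem_range_mp (φ₁.restrictScalars F) (p i) (P.pt (Sum.inl i)) (P.pt (Sum.inr i))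
      (hφ₁ (Sum.inl i)).symm (hφ₁ (Sum.inr i)).symm
  choose s hs using h3
  have hs0 : ∀ i, s i ≠ 0 := by
    intro i h0
    apply hp i
    rw [← hs, h0, map_zero]
  have hu : ∀ i, E.uu (s i) = P.pt (Sum.inl i) := by
    intro i
    apply φ₁.injective
    change φ₁ (E.uu (s i)) = φ₁ (P.pt (Sum.inl i))
    rw [hφ₁]
    have h4 := (E.mp_spec (φ₁.restrictScalars F) (hs0 i)).2.1
    rw [hs] at h4
    exact h4.symm
  have hy : ∀ i, E.yy (s i) = P.pt (Sum.inr i) := by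
    intro i
    apply φ₁.injective
    change φ₁ (E.yy (s i)) = φ₁ (P.pt (Sum.inr i))
    rw [hφ₁]
    have h4 := (E.mp_spec (φ₁.restrictScalars F) (hs0 i)).2.2
    rw [hs] at h4
    exact h4.symm
  have hq' : ∀ i, E.mp (φ₂.restrictScalars F) (s i) = q i := by
    intro i
    obtain ⟨h4, h5, h6⟩ := E.mp_spec (φ₂.restrictScalars F) (hs0 i)
    refine E.ext h4 (hq i) ?_ ?_
    · rw [h5, hu]
      exact hφ₂ (Sum.inl i)
    · rw [h6, hy]
      exact hφ₂ (Sum.inr i)
  have h4 : ∑ i, a i • s i + E.bc A P.fld c = 0 := by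
    apply E.mp_inj (φ₁.restrictScalars F)
    rw [map_add, map_sum, map_zero, mp_bc]
    simp only [map_zsmul, hs]
    exact hr
  have h5 := congrArg (E.mp (φ₂.restrictScalars F)) h4
  rw [map_add, map_sum, map_zero, mp_bc] at h5
  simp only [map_zsmul, hq'] at h5
  exact h5

/-- relations specialise -/
theorem rel_sp (p : ι → E.Pt K) (q : ι → E.Pt L) (hp : ∀ i, p i ≠ 0) (hq : ∀ i, q i ≠ 0)
    (h : Sp A (cc E p) (cc E q)) (a : ι → ℤ) (c : E.Pt A)
    (hr : ∑ i, a i • p i + E.bc A K c = 0) : ∑ i, a i • q i + E.bc A L c = 0 := by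
  obtain ⟨k, i1, i2, i3, i4, π, h1, r, h2, h3, h4⟩ := exists_place (F := F) _ _ h
  have h5 : ∀ i, E.red π (p i) ≠ 0 ∧ E.uu (E.red π (p i)) = r (Sum.inl i) ∧
      E.yy (E.red π (p i)) = r (Sum.inr i) := by
    intro i
    obtain ⟨g1, g2⟩ := h2 (Sum.inl i)
    obtain ⟨g3, g4⟩ := h2 (Sum.inr i)
    obtain ⟨g5, g6, g7, g8⟩ := E.red_mem π (hp i) g1
    exact ⟨g5, g6.trans g2, g8.trans g4⟩
  have h6 : cc E (fun i => E.red π (p i)) = r := by
    funext j
    rcases j with i | i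
    · exact (h5 i).2.1
    · exact (h5 i).2.2
  refine rel_iso E (fun i => E.red π (p i)) q (fun i => (h5 i).1) hq (by rw [h6]; exact h3)
    (by rw [h6]; exact h4) a c ?_
  have h7 := congrArg (E.red π) hr
  rw [map_add, map_sum, map_zero, E.red_bc π h1] at h7
  simp only [map_zsmul] at h7
  exact h7

open scoped IntermediateField.algebraAdjoinAdjoin in
/-- combinations of points with coordinates in a field -/
theorem alg_of_lin (S : Set K) (x : ι → E.Pt K) (hS : ∀ i, E.uu (x i) ∈ S)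
    (hS' : ∀ i, E.yy (x i) ∈ S) (b : ι → ℤ) (c : E.Pt A) :
    IsAlgebraic (Algebra.adjoin A S) (E.uu (∑ i, b i • x i + E.bc A K c)) := by
  let F₁ : IntermediateField A K := IntermediateField.adjoin A S
  have htow : IsScalarTower F F₁ K := IsScalarTower.of_algebraMap_eq fun _ => rfl
  have htow' : IsScalarTower F A F₁ := IsScalarTower.of_algebraMap_eq fun z => by
    apply Subtype.ext
    exact IsScalarTower.algebraMap_apply F A K z
  have h1 : ∀ i, x i ∈ (E.bc F₁ K).range := fun i =>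
    E.mem_range_mp (IsScalarTower.toAlgHom F F₁ K) (x i)
      ⟨_, IntermediateField.subset_adjoin _ _ (hS i)⟩
      ⟨_, IntermediateField.subset_adjoin _ _ (hS' i)⟩ rfl rfl
  have h2 : E.bc A K c ∈ (E.bc F₁ K).range := by
    refine ⟨E.bc A F₁ c, ?_⟩
    exact mp_bc (A := A) E (IsScalarTower.toAlgHom A F₁ K) c
  have h3 : ∑ i, b i • x i + E.bc A K c ∈ (E.bc F₁ K).range :=
    add_mem (sum_mem fun i _ => zsmul_mem (h1 i) _) h2
  obtain ⟨R, hR⟩ := h3
  rw [← hR, Cv.bc, E.uu_mp]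
  have h4 : IsAlgebraic F₁ ((IsScalarTower.toAlgHom F F₁ K) (E.uu R)) :=
    isAlgebraic_algebraMap (A := K) (E.uu R)
  exact (IsFractionRing.isAlgebraic_iff (Algebra.adjoin A S) F₁ K).2 h4

end

/-! ### special subvarieties -/

section

variable {F : Type} [Field F] [CharZero F] {J : Type} [Fintype J] {E : J → Cv F} {n : J → Type}
  [∀ j, Fintype (n j)] {A : Type} [Field A] [Algebra F A]

/-- the solutions of a system of linear equations -/
def Rel (W : ∀ j, Submodule ℚ (n j → ℚ)) (t : ∀ x, (pw E n x).Pt A) :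
    Set (∀ x, (pw E n x).Pt A) :=
  {P | ∀ j, ∀ a : n j → ℤ, (fun i => (a i : ℚ)) ∈ W j →
    (∑ i, a i • (P ⟨j, i⟩ - t ⟨j, i⟩) : (E j).Pt A) = 0}

theorem exists_special_gen [IsAlgClosed A] (W : ∀ j, Submodule ℚ (n j → ℚ))
    (t P₀ : ∀ x, (pw E n x).Pt A) (hP₀ : ∀ x, P₀ x ≠ 0) (hP₀' : P₀ ∈ Rel W t) :
    ∃ (K : Type) (_ : Field K) (_ : Algebra A K) (_ : Algebra F K) (_ : IsScalarTower F A K)
      (x : ∀ y, (pw E n y).Pt K), (∀ y, x y ≠ 0) ∧
      Fintype.card (Σ j, n j) ≤ td A (cK x) + ∑ j, Module.finrank ℚ (W j) ∧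
      (∀ j, ∀ a : n j → ℤ, (fun i => (a i : ℚ)) ∈ W j →
        (∑ i, a i • (x ⟨j, i⟩ : (E j).Pt K) +
          (E j).bc A K (-∑ i, a i • (t ⟨j, i⟩ : (E j).Pt A)) : (E j).Pt K) = 0) ∧
      ∀ P : ∀ x, (pw E n x).Pt A, (∀ y, P y ≠ 0) → (P ∈ Rel W t ↔ Sp A (cK x) (cK P)) := by
  classical
  choose d π b hd hπ hb using fun j => exists_param (W j)
  obtain ⟨K, i1, i2, i3, i4, Q, hQ, htd, hgen⟩ :=
    exists_generic (A := A) E (fun j => Fin (d j))
  let m : ∀ j, n j → Fin (d j) → ℤ := fun j i l => π j (Pi.single i 1) l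
  let x : ∀ y, (pw E n y).Pt K := lin K m t Q
  have key : ∀ P : ∀ x, (pw E n x).Pt A, (∀ y, P y ≠ 0) → P ∈ Rel W t →
      (∀ y, x y ≠ 0) ∧ Sp A (cK x) (cK P) := by
    intro P hP hP'
    let Q' : ∀ k : Σ j, Fin (d j), (pw E (fun j => Fin (d j)) k).Pt A := fun k =>
      (∑ i, b k.1 k.2 i • (P ⟨k.1, i⟩ - t ⟨k.1, i⟩) : (E k.1).Pt A)
    have h1 : lin A m t Q' = P := by
      funext y
      have h2 := lin_par' (G := (E y.1).Pt A) (π y.1) (b y.1) (hb y.1)
        (fun i => (P ⟨y.1, i⟩ - t ⟨y.1, i⟩ : (E y.1).Pt A))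
        (fun a ha => hP' y.1 a ((hπ y.1 a).1 ha)) y.2
      change (∑ l : Fin (d y.1), π y.1 (Pi.single y.2 1) l •
        (∑ i, b y.1 l i • (P ⟨y.1, i⟩ - t ⟨y.1, i⟩) : (E y.1).Pt A)) +
          (E y.1).bc A A (t y) = P y
      rw [h2, bc_self, sub_add_cancel]
    obtain ⟨h2, h3⟩ := hgen Q' n m t (fun y => by rw [h1]; exact hP y)
    refine ⟨h2, ?_⟩
    rw [h1] at h3
    exact h3
  have hx := (key P₀ hP₀ hP₀').1
  have hlin : ∀ j, ∀ a : n j → ℤ, (∑ i, a i • (x ⟨j, i⟩ : (E j).Pt K) +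
      (E j).bc A K (-∑ i, a i • (t ⟨j, i⟩ : (E j).Pt A)) : (E j).Pt K) =
        ∑ l, π j a l • (Q ⟨j, l⟩ : (E j).Pt K) := by
    intro j a
    have h1 : ∀ i, a i • (x ⟨j, i⟩ : (E j).Pt K) =
        a i • ∑ l, π j (Pi.single i 1) l • (Q ⟨j, l⟩ : (E j).Pt K) +
          a i • (E j).bc A K (t ⟨j, i⟩) :=
      fun i => smul_add _ _ _
    rw [Finset.sum_congr rfl fun i _ => h1 i, Finset.sum_add_distrib, lin_par, map_neg, map_sum]
    simp only [map_zsmul]
    rw [add_assoc, add_neg_cancel, add_zero]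
  have hrel : ∀ j, ∀ a : n j → ℤ, (fun i => (a i : ℚ)) ∈ W j →
      (∑ i, a i • (x ⟨j, i⟩ : (E j).Pt K) +
          (E j).bc A K (-∑ i, a i • (t ⟨j, i⟩ : (E j).Pt A)) : (E j).Pt K) = 0 := by
    intro j a ha
    rw [hlin, (hπ j a).2 ha]
    simp
  refine ⟨K, i1, i2, i3, i4, x, hx, ?_, hrel, fun P hP => ⟨fun h => (key P hP h).2,
    fun h j a ha => ?_⟩⟩
  · have h1 : td A (fun k => (pw E (fun j => Fin (d j)) k).uu (Q k)) ≤ td A (cK x) := by
      apply td_le_of_alg A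
      rintro ⟨j, l⟩
      have h2 : (∑ i, b j l i • (x ⟨j, i⟩ : (E j).Pt K) +
          (E j).bc A K (-∑ i, b j l i • (t ⟨j, i⟩ : (E j).Pt A)) : (E j).Pt K) = Q ⟨j, l⟩ := by
        rw [hlin, hb, Finset.sum_eq_single l]
        · rw [Pi.single_eq_same, one_smul]
        · intro k _ hk
          rw [Pi.single_eq_of_ne hk, zero_smul]
        · intro h
          exact absurd (Finset.mem_univ l) h
      have h3 := alg_of_lin (E j) (A := A) (Set.range (cK x)) (fun i => x ⟨j, i⟩)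
        (fun i => ⟨Sum.inl ⟨j, i⟩, rfl⟩) (fun i => ⟨Sum.inr ⟨j, i⟩, rfl⟩) (b j l)
        (-∑ i, b j l i • (t ⟨j, i⟩ : (E j).Pt A))
      rw [h2] at h3
      exact h3
    have h2 : Fintype.card (Σ j, Fin (d j)) + ∑ j, Module.finrank ℚ (W j) =
        Fintype.card (Σ j, n j) := by
      rw [Fintype.card_sigma, Fintype.card_sigma, ← Finset.sum_add_distrib]
      refine Finset.sum_congr rfl fun j _ => ?_
      rw [Fintype.card_fin]
      exact hd j
    omega
  · have h0 : Sp A (cc (E j) (fun i => x ⟨j, i⟩)) (cc (E j) (fun i => P ⟨j, i⟩)) := by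
      have h1 := h.comp (Sum.map (fun i => (⟨j, i⟩ : Σ j, n j)) (fun i => (⟨j, i⟩ : Σ j, n j)))
      have e1 : ∀ {L : Type} [Field L] [Algebra F L] (z : ∀ y, (pw E n y).Pt L),
          (fun a => cK z (Sum.map (fun i => (⟨j, i⟩ : Σ j, n j)) (fun i => (⟨j, i⟩ : Σ j, n j)) a)) =
            cc (E j) (fun i => z ⟨j, i⟩) := by
        intro L _ _ z
        funext a
        rcases a with a | a <;> rfl
      rw [e1, e1] at h1
      exact h1
    have h1 := rel_sp (E j) (A := A) (fun i => x ⟨j, i⟩) (fun i => P ⟨j, i⟩) (fun i => hx _)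
      (fun i => hP _) h0 a _ (hrel j a ha)
    rw [bc_self, ← sub_eq_add_neg] at h1
    rw [← h1, ← Finset.sum_sub_distrib]
    exact Finset.sum_congr rfl fun i _ => smul_sub _ _ _

end

end Pool.Agent.N113.FG
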