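import Pool.Agent.N113.FG.Sp

/-!
# The dimension of the special subvarieties of products of elliptic curves

(Adapted from the files of helper101 on `E^n × G_m^k`, `Pool.Agent.N101.ZE.Esp` and `Esq`.)
-/

set_option autoImplicit false
set_option linter.unusedSectionVars false
set_option linter.style.haveILetI false

namespace Pool.Agent.N113.FG

open MvPolynomial
open Pool.Agent.N101.ZP
open Pool.Agent.N113.EC
open Pool.Agent.R948 (mon rel dr td tdP td_le_of_alg td_le_of_ker exists_param tdP_eq)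

/-! ### the relations of a tuple of points -/

section

variable {J : Type} [Fintype J] {n : J → Type} [∀ j, Fintype (n j)]

/-- families of relations -/
def tot (V : ∀ j, Submodule ℚ (n j → ℚ)) : Submodule ℚ ((Σ j, n j) → ℚ) where
  carrier := {v | ∀ j, (fun i => v ⟨j, i⟩) ∈ V j}
  zero_mem' := fun j => (V j).zero_mem
  add_mem' := fun hv hw j => (V j).add_mem (hv j) (hw j)
  smul_mem' := fun c _ hv j => (V j).smul_mem c (hv j)

theorem mem_tot {V : ∀ j, Submodule ℚ (n j → ℚ)} {v : (Σ j, n j) → ℚ} :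
    v ∈ tot V ↔ ∀ j, (fun i => v ⟨j, i⟩) ∈ V j := Iff.rfl

theorem finrank_tot (V : ∀ j, Submodule ℚ (n j → ℚ)) :
    Module.finrank ℚ (tot V) = ∑ j, Module.finrank ℚ (V j) := by
  let e : tot V ≃ₗ[ℚ] ∀ j, V j :=
    { toFun := fun v j => ⟨fun i => v.1 ⟨j, i⟩, v.2 j⟩
      map_add' := fun v w => rfl
      map_smul' := fun c v => rfl
      invFun := fun w => ⟨fun y => (w y.1).1 y.2, fun j => (w j).2⟩
      left_inv := fun v => rfl
      right_inv := fun w => rfl }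
  rw [e.finrank_eq, Module.finrank_pi_fintype]

variable {F : Type} [Field F] [CharZero F] {E : J → Cv F} {K : Type} [Field K] [Algebra F K]

/-- the points of one of the curves, in multiplicative notation -/
def mx (x : ∀ y : Σ j, n j, (pw E n y).Pt K) (j : J) : n j → Multiplicative ((E j).Pt K) :=
  fun i => Multiplicative.ofAdd (α := (E j).Pt K) (x ⟨j, i⟩)

theorem mon_mx (x : ∀ y : Σ j, n j, (pw E n y).Pt K) (j : J) (a : n j → ℤ) :
    mon (mx x j) a = Multiplicative.ofAdd (α := (E j).Pt K)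
      (∑ i, a i • (x ⟨j, i⟩ : (E j).Pt K)) := by
  rw [mon, ofAdd_sum]
  rfl

theorem mon_one_iff (x : ∀ y : Σ j, n j, (pw E n y).Pt K) (a : (Σ j, n j) → ℤ) :
    mon (fam E (s := fun y : Σ j, n j => y.1) x) a = 1 ↔
      ∀ j, mon (mx x j) (fun i => a ⟨j, i⟩) = 1 := by
  have h1 : ∀ j, mon (mx x j)
      (fun i => a ⟨j, i⟩) = Multiplicative.ofAdd (α := (E j).Pt K)
        (∑ i, a ⟨j, i⟩ • (x ⟨j, i⟩ : (E j).Pt K)) := fun j => mon_mx x j _
  have h2 : mon (fam E (s := fun y : Σ j, n j => y.1) x) a =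
      Multiplicative.ofAdd (∑ y : Σ j, n j, a y • sg E y.1 (x y)) := by
    rw [mon, ofAdd_sum]
    rfl
  have h3 : ∀ j, (∑ y : Σ j, n j, a y • sg E y.1 (x y) : GG E K) j =
      ∑ i, a ⟨j, i⟩ • (x ⟨j, i⟩ : (E j).Pt K) := by
    intro j
    let ev : GG E K →+ (E j).Pt K :=
      { toFun := fun P => P j
        map_zero' := rfl
        map_add' := fun _ _ => rfl }
    have h4 := map_sum ev (fun y : Σ j, n j => a y • sg E y.1 (x y)) Finset.univ
    simp only [map_zsmul] at h4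
    have h5 : (∑ y : Σ j, n j, a y • sg E y.1 (x y) : GG E K) j =
        ∑ y : Σ j, n j, a y • ev (sg E y.1 (x y)) := h4
    rw [h5, Fintype.sum_sigma, Finset.sum_eq_single j]
    · refine Finset.sum_congr rfl fun i _ => ?_
      have h6 : ev (sg E j (x ⟨j, i⟩)) = x ⟨j, i⟩ := sg_same E j _
      rw [h6]
    · intro j' _ hj'
      refine Finset.sum_eq_zero fun i _ => ?_
      have h6 : ev (sg E j' (x ⟨j', i⟩)) = 0 := sg_ne E (Ne.symm hj') _
      rw [h6, smul_zero]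
    · intro h
      exact absurd (Finset.mem_univ j) h
  rw [h2]
  constructor
  · intro h j
    have h4 : (∑ y : Σ j, n j, a y • sg E y.1 (x y) : GG E K) = 0 := h
    rw [h1, ← h3, h4]
    rfl
  · intro h
    have h4 : (∑ y : Σ j, n j, a y • sg E y.1 (x y) : GG E K) = 0 := by
      funext j
      rw [h3]
      have := h j
      rw [h1] at this
      exact this
    rw [h4]
    rfl

/-- the relations of a tuple of points of several curves -/
theorem rel_fam (x : ∀ y : Σ j, n j, (pw E n y).Pt K) :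
    rel (fam E (s := fun y : Σ j, n j => y.1) x) =
      tot fun j => rel (mx x j) := by
  classical
  ext v
  rw [mem_tot]
  constructor
  · rintro ⟨N, hN, b, hb, hm⟩ j
    exact ⟨N, hN, fun i => b ⟨j, i⟩, fun i => hb _, (mon_one_iff x b).1 hm j⟩
  · intro h
    choose N hN b hb hm using h
    refine ⟨∏ j, N j, Finset.prod_pos fun j _ => hN j,
      fun y => (∏ j ∈ Finset.univ.erase y.1, (N j : ℤ)) * b y.1 y.2, fun y => ?_,
      (mon_one_iff x _).2 fun j => ?_⟩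
    · rw [← Finset.mul_prod_erase Finset.univ (fun j => N j) (Finset.mem_univ y.1)]
      push_cast
      rw [hb]
      ring
    · have h1 : (fun i => (∏ j' ∈ Finset.univ.erase j, (N j' : ℤ)) * b j i) =
          (∏ j' ∈ Finset.univ.erase j, (N j' : ℤ)) • b j := rfl
      change mon _ (fun i => (∏ j' ∈ Finset.univ.erase j, (N j' : ℤ)) * b j i) = 1
      rw [h1, R948.mon_smul, hm, one_zpow]

/-- the rank of a point -/
noncomputable def rkz [IsAlgClosed F] (E : J → Cv F) (z : (Σ j, n j) ⊕ (Σ j, n j) → K) : ℕ :=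
  (RTh E).rk (fun y : Σ j, n j => y.1) (fun y => z (Sum.inl y))

theorem rkt_pts [IsAlgClosed F] (x : ∀ y : Σ j, n j, (pw E n y).Pt K) (hx : ∀ y, x y ≠ 0) :
    rkt (fam E (s := fun y : Σ j, n j => y.1) x) = rkz E (cK x) :=
  rkt_lift E (AlgHom.id F K) (fun y : Σ j, n j => y.1) (fun y => (pw E n y).uu (x y)) x
    (fun y => ⟨hx y, rfl⟩)

theorem rkz_card [IsAlgClosed F] (x : ∀ y : Σ j, n j, (pw E n y).Pt K) (hx : ∀ y, x y ≠ 0) :
    rkz E (cK x) + ∑ j, Module.finrank ℚ (rel (mx x j)) = Fintype.card (Σ j, n j) := by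
  have h1 := rkt_add_dr (fam E (s := fun y : Σ j, n j => y.1) x)
  rw [rkt_pts x hx] at h1
  rw [← finrank_tot, ← rel_fam]
  exact h1

/-- relations bound the rank -/
theorem rkt_le_of_rel [IsAlgClosed F] {A : Type} [Field A] [Algebra F A] [Algebra A K]
    [IsScalarTower F A K] (W : ∀ j, Submodule ℚ (n j → ℚ)) (t : ∀ y : Σ j, n j, (pw E n y).Pt A)
    (m : ℕ) (hm : m ≠ 0) (ht : ∀ y, m • t y = 0) (x : ∀ y : Σ j, n j, (pw E n y).Pt K)
    (hx : ∀ y, x y ≠ 0) (h : ∀ j, ∀ a : n j → ℤ, (fun i => (a i : ℚ)) ∈ W j →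
      (∑ i, a i • (x ⟨j, i⟩ : (E j).Pt K) +
        (E j).bc A K (-∑ i, a i • (t ⟨j, i⟩ : (E j).Pt A)) : (E j).Pt K) = 0) :
    rkz E (cK x) + ∑ j, Module.finrank ℚ (W j) ≤ Fintype.card (Σ j, n j) := by
  have h1 : ∀ j, W j ≤ rel (mx x j) := by
    intro j w hw
    obtain ⟨N, hN, b, hb⟩ := R948.exists_mul_int w
    refine ⟨m * N, Nat.mul_pos (Nat.pos_of_ne_zero hm) hN, fun i => m * b i, ?_, ?_⟩
    · intro i
      push_cast
      rw [hb]
      ring
    · have h2 : (fun i => (b i : ℚ)) ∈ W j := by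
        have h3 : (fun i => (b i : ℚ)) = (N : ℚ) • w := by
          funext i
          rw [hb, Pi.smul_apply, smul_eq_mul]
        rw [h3]
        exact (W j).smul_mem _ hw
      have h3 := congrArg (fun P => (m : ℤ) • P) (h j b h2)
      rw [smul_zero, smul_add, ← map_zsmul, smul_neg, Finset.smul_sum, Finset.smul_sum] at h3
      have h4 : (∑ i, (m : ℤ) • b i • (t ⟨j, i⟩ : (E j).Pt A) : (E j).Pt A) = 0 := by
        refine Finset.sum_eq_zero fun i _ => ?_
        have h5 : ((m : ℤ) • (t ⟨j, i⟩ : (E j).Pt A) : (E j).Pt A) = 0 := by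
          rw [natCast_zsmul]
          exact ht ⟨j, i⟩
        rw [smul_comm, h5, smul_zero]
      rw [h4, neg_zero, map_zero, add_zero] at h3
      rw [mon_mx]
      have h5 : (∑ i, ((m : ℤ) * b i) • (x ⟨j, i⟩ : (E j).Pt K) : (E j).Pt K) = 0 := by
        rw [← h3]
        exact Finset.sum_congr rfl fun i _ => mul_smul _ _ _
      rw [h5]
      rfl
  have h2 := rkz_card x hx
  have h3 : ∑ j, Module.finrank ℚ (W j) ≤ ∑ j, Module.finrank ℚ (rel (mx x j)) :=
    Finset.sum_le_sum fun j _ => Submodule.finrank_mono (h1 j)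
  omega

/-- transcendence degree and rank -/
theorem td_le_rk {F : Type} [Field F] (T : RT F) {K ι : Type} [Fintype ι] [Field K] [Algebra F K]
    (s : ι → T.S) (p : ι → K) (hp : T.Ok s p) : td F p ≤ T.rk s p := by
  have h1 := T.df_inl (F := F) (Sum.elim (fun i : Empty => i.elim) s : Empty ⊕ ι → T.S)
    (Sum.elim (fun i : Empty => i.elim) p) (by
      rintro (i | i) hi
      · exact i.elim
      · exact hp i hi)
  have h2 : T.rk (Sum.elim (fun i : Empty => i.elim) s : Empty ⊕ ι → T.S)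
      (Sum.elim (fun i : Empty => i.elim) p) ≤ T.rk s p := by
    have h3 := T.rk_comp s p (Sum.elim (fun i : Empty => i.elim) id : Empty ⊕ ι → ι)
    have e1 : (fun j => s ((Sum.elim (fun i : Empty => i.elim) id : Empty ⊕ ι → ι) j)) =
        Sum.elim (fun i : Empty => i.elim) s := by
      funext j
      rcases j with j | j
      · exact j.elim
      · rfl
    have e2 : (fun j => p ((Sum.elim (fun i : Empty => i.elim) id : Empty ⊕ ι → ι) j)) =
        Sum.elim (fun i : Empty => i.elim) p := by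
      funext j
      rcases j with j | j
      · exact j.elim
      · rfl
    rw [e1, e2] at h3
    exact h3
  have h3 : td F p ≤ td F (Sum.elim (fun i : Empty => i.elim) p : Empty ⊕ ι → K) :=
    td_comp (F := F) (Sum.elim (fun i : Empty => i.elim) p : Empty ⊕ ι → K) Sum.inr
  have h4 : td F (fun i : Empty => (Sum.elim (fun i : Empty => i.elim) p : Empty ⊕ ι → K)
      (Sum.inl i)) ≤ 0 := (R948.td_le_card F _).trans (by simp)
  rw [RT.df, RT.df] at h1
  omega

end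

/-! ### the dimension of special subvarieties -/

section

variable {F : Type} [Field F] [CharZero F] [IsAlgClosed F] [Algebra F ℂ] {J : Type} [Fintype J]
  {E : J → Cv F} {n : J → Type} [∀ j, Fintype (n j)]

theorem td_le_rkz {K : Type} [Field K] [Algebra ℂ K] [Algebra F K]
    [@IsScalarTower F ℂ K Algebra.toSMul Algebra.toSMul Algebra.toSMul]
    (x : ∀ y : Σ j, n j, (pw E n y).Pt K) : td ℂ (cK x) ≤ rkz E (cK x) := by
  have h1 := td_uu (A := ℂ) x
  have h2 : td ℂ (fun y : Σ j, n j => (pw E n y).uu (x y)) ≤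
      td F (fun y : Σ j, n j => (pw E n y).uu (x y)) := td_le_td (F := F) _
  have h3 : td F (fun y : Σ j, n j => (pw E n y).uu (x y)) ≤ rkz E (cK x) :=
    td_le_rk (RTh E) (fun y : Σ j, n j => y.1) _ (okr E _ _)
  exact (h1.trans h2).trans h3

/-- the part of a special subvariety in the affine chart -/
theorem special_chart (W : ∀ j, Submodule ℚ (n j → ℚ)) (t : Pts (pw E n)) (m : ℕ) (hm : m ≠ 0)
    (ht : ∀ y, m • t y = 0) (p₀ : Pts (pw E n)) (hp₀ : Aff p₀) (hp1 : p₀ ∈ Rel W t) :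
    ∃ R : PP ℂ ((Σ j, n j) ⊕ (Σ j, n j)), Adm (pw E n) R ∧
      (∀ p : Pts (pw E n), Aff p → (p ∈ Rel W t ↔ ∀ f ∈ R.I, eval (co p) f = 0)) ∧
      Fintype.card (Σ j, n j) = td ℂ R.pt + ∑ j, Module.finrank ℚ (W j) ∧
      rkz E R.pt = td ℂ R.pt := by
  obtain ⟨K, i1, i2, i3, i4, x, hx, htd, hrel, hiff⟩ :=
    exists_special_gen (A := ℂ) W t p₀ hp₀ hp1
  obtain ⟨R, hR⟩ : ∃ R, R = PP.ofPt ℂ (cK x) := ⟨_, rfl⟩
  have hRI : ∀ f, f ∈ R.I ↔ aeval (cK x) f = 0 := by
    intro f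
    rw [hR]
    exact Iff.rfl
  have s1 : Sp ℂ R.pt (cK x) := fun f hf => by
    rw [PP.aeval_pt_eq_zero, hRI] at hf
    exact hf
  have s2 : Sp ℂ (cK x) R.pt := fun f hf => by
    rw [PP.aeval_pt_eq_zero, hRI]
    exact hf
  have hadm : Adm (pw E n) R := fun i => by
    rw [hRI]
    exact aeval_cv_cK (k₀ := ℂ) x i
  have b1 : td ℂ (cK x) = td ℂ R.pt := le_antisymm (td_le_of_ker ℂ s1) (td_le_of_ker ℂ s2)
  have b3 := td_le_rkz x
  have b4 := rkt_le_of_rel (A := ℂ) W t m hm ht x hx hrel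
  have b5 : rkz E R.pt = rkz E (cK x) :=
    (RTh E).rk_eq (fun y : Σ j, n j => y.1) (fun y => R.pt (Sum.inl y)) (fun y => cK x (Sum.inl y))
      ((sp_restrict (F := F) s1).comp Sum.inl) ((sp_restrict (F := F) s2).comp Sum.inl)
      (okr E _ _)
  refine ⟨R, hadm, fun p hp => ?_, ?_, ?_⟩
  · rw [hiff p hp]
    constructor
    · intro h f hf
      exact h f ((hRI f).1 hf)
    · intro h f hf
      exact h f ((hRI f).2 hf)
  · omega
  · omega

theorem rel_tr (W : ∀ j, Submodule ℚ (n j → ℚ)) (t : Pts (pw E n)) (ε : (Σ j, n j) → Bool)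
    (P : Pts (pw E n)) : sh ε P ∈ Rel W t ↔ P ∈ Rel W (sh ε t) := by
  have h1 : ∀ y, sh ε P y - t y = P y - sh ε t y := by
    intro y
    by_cases hi : ε y = true
    · rw [sh_true hi, sh_true hi, sub_add_eq_sub_sub, sub_right_comm, ← neg_T' (pw E n y),
        sub_neg_eq_add, neg_T']
    · rw [sh_false hi, sh_false hi]
  change (∀ j, ∀ a : n j → ℤ, _ → (∑ i, a i • (sh ε P ⟨j, i⟩ - t ⟨j, i⟩) : (E j).Pt ℂ) = 0) ↔
    (∀ j, ∀ a : n j → ℤ, _ → (∑ i, a i • (P ⟨j, i⟩ - sh ε t ⟨j, i⟩) : (E j).Pt ℂ) = 0)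
  simp only [h1]

theorem tors_sh {t : Pts (pw E n)} {m : ℕ} (ht : ∀ y, m • t y = 0) (ε : (Σ j, n j) → Bool)
    (y : Σ j, n j) : (2 * m) • sh ε t y = 0 := by
  have h2 : (2 : ℕ) • (pw E n y).T ℂ = 0 := by rw [two_smul, (pw E n y).T_add_T]
  by_cases hi : ε y = true
  · rw [sh_true hi, smul_add, mul_smul, ht, smul_zero, zero_add, mul_comm, mul_smul, h2, smul_zero]
  · rw [sh_false hi, mul_smul, ht, smul_zero]

theorem exists_aff {ι : Type} {C : ι → Cv F} (p : Pts C) : ∃ ε : ι → Bool, Aff (tr ε p) := by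
  classical
  obtain ⟨ε, hε⟩ : ∃ ε : ι → Bool, ∀ i, ε i = true ↔ p i = 0 :=
    ⟨fun i => decide (p i = 0), fun i => by simp⟩
  refine ⟨ε, fun i => ?_⟩
  change sh ε p i ≠ 0
  by_cases hi : p i = 0
  · rw [sh_true ((hε i).2 hi), hi, zero_add]
    exact (C i).T_ne ℂ
  · rw [sh_false (fun h => hi ((hε i).1 h))]
    exact hi

/-- **The dimension of special subvarieties.** -/
theorem special_main (W : ∀ j, Submodule ℚ (n j → ℚ)) (t : Pts (pw E n)) (m : ℕ) (hm : m ≠ 0)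
    (ht : ∀ y, m • t y = 0) :
    ZClosed (Rel W t : Set (Pts (pw E n))) ∧
    ((Rel W t : Set (Pts (pw E n))).Nonempty →
      vdim (Rel W t : Set (Pts (pw E n))) + ∑ j, Module.finrank ℚ (W j) =
        Fintype.card (Σ j, n j)) ∧
    (Meets (Rel W t : Set (Pts (pw E n))) → ∃ R : PP ℂ ((Σ j, n j) ⊕ (Σ j, n j)),
      Adm (pw E n) R ∧ R.I = v0 (Rel W t : Set (Pts (pw E n))) ∧
      rkz E R.pt = vdim (Rel W t : Set (Pts (pw E n)))) := by
  -- the charts
  have key : ∀ ε : (Σ j, n j) → Bool, (∃ p : Pts (pw E n), Aff p ∧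
      tr ε p ∈ (Rel W t : Set (Pts (pw E n)))) → ∃ R : PP ℂ ((Σ j, n j) ⊕ (Σ j, n j)),
      Adm (pw E n) R ∧
      (∀ p : Pts (pw E n), Aff p → (tr ε p ∈ (Rel W t : Set (Pts (pw E n))) ↔
        ∀ f ∈ R.I, eval (co p) f = 0)) ∧
      Fintype.card (Σ j, n j) = td ℂ R.pt + ∑ j, Module.finrank ℚ (W j) ∧
      rkz E R.pt = td ℂ R.pt ∧ R.I = van ε (Rel W t : Set (Pts (pw E n))) := by
    rintro ε ⟨p₀, hp₀, hp1⟩
    obtain ⟨R, h1, h2, h3, h4⟩ := special_chart W (sh ε t) (2 * m) (by omega)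
      (tors_sh ht ε) p₀ hp₀ ((rel_tr W t ε _).1 hp1)
    have h5 : ∀ p : Pts (pw E n), Aff p → (tr ε p ∈ (Rel W t : Set (Pts (pw E n))) ↔
        ∀ f ∈ R.I, eval (co p) f = 0) := by
      intro p hp
      rw [← h2 p hp, ← rel_tr W t ε]
      exact Iff.rfl
    refine ⟨R, h1, h5, h3, h4, le_antisymm ?_ ?_⟩
    · intro f hf
      rw [mem_van]
      exact fun p hp hp' => (h5 p hp).1 hp' f hf
    · intro f hf
      rw [mem_van] at hf
      exact mem_of_Z0 h1 fun p hp => hf p hp.1 ((h5 p hp.1).2 hp.2)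
  have htop : ∀ ε : (Σ j, n j) → Bool, (¬ ∃ p : Pts (pw E n), Aff p ∧
      tr ε p ∈ (Rel W t : Set (Pts (pw E n)))) →
      Cardinal.toNat (Algebra.trdeg ℂ (MvPolynomial ((Σ j, n j) ⊕ (Σ j, n j)) ℂ ⧸
        van ε (Rel W t : Set (Pts (pw E n))))) = 0 := by
    intro ε hε
    have h1 : van ε (Rel W t : Set (Pts (pw E n))) = ⊤ := by
      rw [Ideal.eq_top_iff_one, mem_van]
      intro p hp hp'
      exact absurd ⟨p, hp, hp'⟩ hε
    exact trdeg_top (by rw [h1]; exact Ideal.Quotient.subsingleton_iff.2 rfl)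
  have hdim : ∀ ε : (Σ j, n j) → Bool, (∃ p : Pts (pw E n), Aff p ∧
      tr ε p ∈ (Rel W t : Set (Pts (pw E n)))) →
      Cardinal.toNat (Algebra.trdeg ℂ (MvPolynomial ((Σ j, n j) ⊕ (Σ j, n j)) ℂ ⧸
        van ε (Rel W t : Set (Pts (pw E n))))) + ∑ j, Module.finrank ℚ (W j) =
        Fintype.card (Σ j, n j) := by
    intro ε hε
    obtain ⟨R, h1, h2, h3, h4, h5⟩ := key ε hε
    have h6 := tdP_eq R.I
    rw [← h5, ← h6, Cardinal.toNat_natCast, h3, PP.td_pt]
  have hvd : (Rel W t : Set (Pts (pw E n))).Nonempty →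
      vdim (Rel W t : Set (Pts (pw E n))) + ∑ j, Module.finrank ℚ (W j) =
        Fintype.card (Σ j, n j) := by
    rintro ⟨p, hp⟩
    obtain ⟨ε₀, hε₀⟩ := exists_aff p
    have h0 : ∃ q : Pts (pw E n), Aff q ∧ tr ε₀ q ∈ (Rel W t : Set (Pts (pw E n))) :=
      ⟨tr ε₀ p, hε₀, by rw [tr_self]; exact hp⟩
    have h1 := hdim ε₀ h0
    have h2 : ∀ ε : (Σ j, n j) → Bool, Cardinal.toNat (Algebra.trdeg ℂ
        (MvPolynomial ((Σ j, n j) ⊕ (Σ j, n j)) ℂ ⧸ van ε (Rel W t : Set (Pts (pw E n))))) ≤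
          Cardinal.toNat (Algebra.trdeg ℂ (MvPolynomial ((Σ j, n j) ⊕ (Σ j, n j)) ℂ ⧸
        van ε₀ (Rel W t : Set (Pts (pw E n))))) := by
      intro ε
      by_cases hε : ∃ p : Pts (pw E n), Aff p ∧ tr ε p ∈ (Rel W t : Set (Pts (pw E n)))
      · have := hdim ε hε
        omega
      · rw [htop ε hε]
        exact Nat.zero_le _
    have h3 : vdim (Rel W t : Set (Pts (pw E n))) =
        Cardinal.toNat (Algebra.trdeg ℂ (MvPolynomial ((Σ j, n j) ⊕ (Σ j, n j)) ℂ ⧸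
        van ε₀ (Rel W t : Set (Pts (pw E n))))) :=
      le_antisymm (ciSup_le h2) (le_ciSup (f := fun ε : (Σ j, n j) → Bool => Cardinal.toNat
        (Algebra.trdeg ℂ (MvPolynomial ((Σ j, n j) ⊕ (Σ j, n j)) ℂ ⧸
          van ε (Rel W t : Set (Pts (pw E n)))))) ⟨_, by
            rintro _ ⟨ε, rfl⟩; exact h2 ε⟩ ε₀)
    rw [h3]
    exact h1
  refine ⟨fun ε => ?_, hvd, ?_⟩
  · by_cases hε : ∃ p : Pts (pw E n), Aff p ∧ tr ε p ∈ (Rel W t : Set (Pts (pw E n)))
    · obtain ⟨R, -, h2, -⟩ := key ε hε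
      exact ⟨R.I, fun p hp => h2 p hp⟩
    · refine ⟨{1}, fun p hp => ⟨fun h => absurd ⟨p, hp, h⟩ hε, fun h => ?_⟩⟩
      have h1 := h 1 rfl
      rw [map_one] at h1
      exact absurd h1 one_ne_zero
  · rintro ⟨p, hp, hp'⟩
    obtain ⟨R, h1, h2, h3, h4, h5⟩ := key (fun _ => false) ⟨p, hp', by rw [tr_zero]; exact hp⟩
    refine ⟨R, h1, h5, ?_⟩
    have h6 := hvd ⟨p, hp⟩
    omega

end

end Pool.Agent.N113.FG
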